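import Mathlib

/-! Interpolation by families of functions with separated growth over an ultrametric field. -/

set_option autoImplicit false
open Finset Filter Topology

namespace Pool.Agent.N709

section fld

variable {K : Type} [NormedField K] [IsUltrametricDist K]

/-- the growth of the functions is strictly separated -/
def Good (G : Finset ℕ) {q : ℕ} (f : Fin q → ℕ → K) : Prop :=
  (∀ c, ∀ i ∈ G, f c i ≠ 0) ∧
    ∀ c c', c < c' → ∀ i ∈ G, ∀ j ∈ G, i < j → ‖f c j‖ * ‖f c' i‖ < ‖f c i‖ * ‖f c' j‖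

lemma norm_sub_of_lt {x y : K} (h : ‖y‖ < ‖x‖) : ‖x - y‖ = ‖x‖ := by
  have h1 : ‖x‖ ≠ ‖-y‖ := by rw [norm_neg]; exact h.ne'
  have h2 := IsUltrametricDist.norm_add_eq_max_of_norm_ne_norm h1
  rw [← sub_eq_add_neg, norm_neg, max_eq_left h.le] at h2
  exact h2

/-- a combination with `q` zeros is controlled by one coefficient -/
lemma lemV (q : ℕ) : ∀ (G : Finset ℕ) (f : Fin (q + 1) → ℕ → K) (_ : Good G f)
    (α : Fin (q + 1) → K) (S : Finset ℕ) (_ : S ⊆ G) (_ : S.card = q) (x : ℕ) (_ : x ∈ G)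
    (_ : x ∉ S) (_ : ∀ s ∈ S, ∑ c, α c * f c s = 0) (m : Fin (q + 1))
    (_ : (S.filter (· < x)).card = (m : ℕ)), ‖∑ c, α c * f c x‖ = ‖α m‖ * ‖f m x‖ := by
  classical
  induction q with
  | zero =>
    intro G f hf α S hSG hS x hx hxS hvan m hm
    have h0 : m = 0 := Fin.fin_one_eq_zero m
    rw [Fin.sum_univ_one, norm_mul, h0]
  | succ q ih =>
    intro G f hf α S hSG hS x hx hxS hvan m hm
    have hne : S.Nonempty := Finset.card_pos.1 (by omega)
    by_cases hb : ∃ b ∈ S, x < b
    · -- the rightmost anchor eliminates the slowest function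
      obtain ⟨b', hb'S, hb'⟩ := hb
      set b := S.max' hne with hbdef
      have hbS : b ∈ S := S.max'_mem hne
      have hbG : b ∈ G := hSG hbS
      have hxb : x < b := lt_of_lt_of_le hb' (S.le_max' b' hb'S)
      have hfb : f (Fin.last _) b ≠ 0 := hf.1 _ b hbG
      set f' : Fin (q + 1) → ℕ → K := fun c y =>
        f c.castSucc y - (f c.castSucc b / f (Fin.last _) b) * f (Fin.last _) y with hf'
      have hnorm : ∀ c, ∀ i ∈ G, i < b → ‖f' c i‖ = ‖f c.castSucc i‖ := by
        intro c i hi hib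
        refine norm_sub_of_lt ?_
        rw [norm_mul, norm_div, div_mul_eq_mul_div, div_lt_iff₀ (norm_pos_iff.2 hfb)]
        exact hf.2 c.castSucc (Fin.last _) (Fin.castSucc_lt_last c) i hi b hbG hib
      have hsum : ∀ y, ∑ c, α c * f c y = ∑ c : Fin (q + 1), α c.castSucc * f' c y := by
        intro y
        have h0 := hvan b hbS
        rw [Fin.sum_univ_castSucc] at h0 ⊢
        have h1 : ∑ c : Fin (q + 1), α c.castSucc * f' c y =
            ∑ c : Fin (q + 1), α c.castSucc * f c.castSucc y -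
              (f (Fin.last _) y / f (Fin.last _) b) *
                ∑ c : Fin (q + 1), α c.castSucc * f c.castSucc b := by
          rw [Finset.mul_sum, ← Finset.sum_sub_distrib]
          refine Finset.sum_congr rfl fun c _ => ?_
          simp only [hf']
          field_simp
        have h2 : ∑ c : Fin (q + 1), α c.castSucc * f c.castSucc b =
            -(α (Fin.last _) * f (Fin.last _) b) := by
          rw [eq_neg_iff_add_eq_zero]
          exact h0
        rw [h1, h2]
        field_simp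
        ring
      have hS'lt : ∀ s ∈ S.erase b, s < b := fun s hs =>
        lt_of_le_of_ne (S.le_max' s (Finset.mem_of_mem_erase hs)) (Finset.ne_of_mem_erase hs)
      have hmle : (m : ℕ) ≤ q := by
        have h1 : S.filter (· < x) ⊆ S.erase b := by
          intro s hs
          obtain ⟨h1, h2⟩ := Finset.mem_filter.1 hs
          exact Finset.mem_erase.2 ⟨by omega, h1⟩
        have h2 := Finset.card_le_card h1
        rw [Finset.card_erase_of_mem hbS, hm, hS] at h2
        omega
      have key := ih (G.filter (· < b)) f' ⟨?_, ?_⟩ (fun c => α c.castSucc) (S.erase b) ?_ ?_ x ?_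
        ?_ ?_ ⟨m, by omega⟩ ?_
      · rw [hsum x, key, hnorm _ x hx hxb]
        congr 3
      · intro c i hi
        obtain ⟨h1, h2⟩ := Finset.mem_filter.1 hi
        rw [← norm_ne_zero_iff, hnorm c i h1 h2, norm_ne_zero_iff]
        exact hf.1 _ i h1
      · intro c c' hcc i hi j hj hij
        obtain ⟨h1, h2⟩ := Finset.mem_filter.1 hi
        obtain ⟨h3, h4⟩ := Finset.mem_filter.1 hj
        rw [hnorm c i h1 h2, hnorm c' i h1 h2, hnorm c j h3 h4, hnorm c' j h3 h4]
        exact hf.2 c.castSucc c'.castSucc (Fin.castSucc_lt_castSucc_iff.2 hcc) i h1 j h3 hij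
      · intro s hs
        exact Finset.mem_filter.2 ⟨hSG (Finset.mem_of_mem_erase hs), hS'lt s hs⟩
      · rw [Finset.card_erase_of_mem hbS, hS]
        rfl
      · exact Finset.mem_filter.2 ⟨hx, hxb⟩
      · exact fun h => hxS (Finset.mem_of_mem_erase h)
      · intro s hs
        rw [← hsum s]
        exact hvan s (Finset.mem_of_mem_erase hs)
      · rw [← hm]
        congr 1
        ext s
        simp only [Finset.mem_filter, Finset.mem_erase]
        constructor
        · rintro ⟨⟨_, h2⟩, h3⟩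
          exact ⟨h2, h3⟩
        · rintro ⟨h2, h3⟩
          exact ⟨⟨by omega, h2⟩, h3⟩
    · -- the leftmost anchor eliminates the fastest function
      push Not at hb
      have hlt : ∀ s ∈ S, s < x := fun s hs =>
        lt_of_le_of_ne (hb s hs) (fun h => hxS (h ▸ hs))
      set a := S.min' hne with hadef
      have haS : a ∈ S := S.min'_mem hne
      have haG : a ∈ G := hSG haS
      have hax : a < x := hlt a haS
      have hfa : f 0 a ≠ 0 := hf.1 _ a haG
      set f' : Fin (q + 1) → ℕ → K := fun c y =>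
        f c.succ y - (f c.succ a / f 0 a) * f 0 y with hf'
      have hnorm : ∀ c, ∀ i ∈ G, a < i → ‖f' c i‖ = ‖f c.succ i‖ := by
        intro c i hi hia
        refine norm_sub_of_lt ?_
        rw [norm_mul, norm_div, div_mul_eq_mul_div, div_lt_iff₀ (norm_pos_iff.2 hfa)]
        have h1 := hf.2 0 c.succ (Fin.succ_pos c) a haG i hi hia
        linarith
      have hsum : ∀ y, ∑ c, α c * f c y = ∑ c : Fin (q + 1), α c.succ * f' c y := by
        intro y
        have h0 := hvan a haS
        rw [Fin.sum_univ_succ] at h0 ⊢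
        have h1 : ∑ c : Fin (q + 1), α c.succ * f' c y =
            ∑ c : Fin (q + 1), α c.succ * f c.succ y -
              (f 0 y / f 0 a) * ∑ c : Fin (q + 1), α c.succ * f c.succ a := by
          rw [Finset.mul_sum, ← Finset.sum_sub_distrib]
          refine Finset.sum_congr rfl fun c _ => ?_
          simp only [hf']
          field_simp
        have h2 : ∑ c : Fin (q + 1), α c.succ * f c.succ a = -(α 0 * f 0 a) := by
          rw [eq_neg_iff_add_eq_zero, add_comm]
          exact h0
        rw [h1, h2]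
        field_simp
        ring
      have hS'lt : ∀ s ∈ S.erase a, a < s := fun s hs =>
        lt_of_le_of_ne (S.min'_le s (Finset.mem_of_mem_erase hs)) (Finset.ne_of_mem_erase hs).symm
      have hfil : S.filter (· < x) = S := Finset.filter_true_of_mem hlt
      rw [hfil, hS] at hm
      have hml : m = (Fin.last q).succ := by
        apply Fin.ext
        rw [← hm]
        simp
      have key := ih (G.filter (a < ·)) f' ⟨?_, ?_⟩ (fun c => α c.succ) (S.erase a) ?_ ?_ x ?_
        ?_ ?_ (Fin.last q) ?_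
      · rw [hsum x, key, hnorm _ x hx hax, hml]
      · intro c i hi
        obtain ⟨h1, h2⟩ := Finset.mem_filter.1 hi
        rw [← norm_ne_zero_iff, hnorm c i h1 h2, norm_ne_zero_iff]
        exact hf.1 _ i h1
      · intro c c' hcc i hi j hj hij
        obtain ⟨h1, h2⟩ := Finset.mem_filter.1 hi
        obtain ⟨h3, h4⟩ := Finset.mem_filter.1 hj
        rw [hnorm c i h1 h2, hnorm c' i h1 h2, hnorm c j h3 h4, hnorm c' j h3 h4]
        exact hf.2 c.succ c'.succ (Fin.succ_lt_succ_iff.2 hcc) i h1 j h3 hij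
      · intro s hs
        exact Finset.mem_filter.2 ⟨hSG (Finset.mem_of_mem_erase hs), hS'lt s hs⟩
      · rw [Finset.card_erase_of_mem haS, hS]
        rfl
      · exact Finset.mem_filter.2 ⟨hx, hax⟩
      · exact fun h => hxS (Finset.mem_of_mem_erase h)
      · intro s hs
        rw [← hsum s]
        exact hvan s (Finset.mem_of_mem_erase hs)
      · have : (S.erase a).filter (· < x) = S.erase a :=
          Finset.filter_true_of_mem fun s hs => hlt s (Finset.mem_of_mem_erase hs)
        rw [this, Finset.card_erase_of_mem haS, hS]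
        rfl

/-! ### ranks -/

lemma exists_rank (A : Finset ℕ) (m : ℕ) (hm : m < A.card) :
    ∃ x ∈ A, (A.filter (· < x)).card = m := by
  classical
  set e := A.orderEmbOfFin rfl with he
  refine ⟨e ⟨m, hm⟩, A.orderEmbOfFin_mem rfl _, ?_⟩
  have h1 : A.filter (· < e ⟨m, hm⟩) = (Finset.Iio (⟨m, hm⟩ : Fin A.card)).map e.toEmbedding := by
    ext y
    simp only [Finset.mem_filter, Finset.mem_map, Finset.mem_Iio, RelEmbedding.coe_toEmbedding]
    constructor
    · rintro ⟨h1, h2⟩
      have h3 : y ∈ Set.range e := by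
        rw [he, Finset.range_orderEmbOfFin]
        exact h1
      obtain ⟨j, rfl⟩ := h3
      exact ⟨j, e.lt_iff_lt.1 h2, rfl⟩
    · rintro ⟨j, hj, rfl⟩
      exact ⟨A.orderEmbOfFin_mem rfl _, e.lt_iff_lt.2 hj⟩
  rw [h1, Finset.card_map, Fin.card_Iio]

lemma rank_inj {A : Finset ℕ} {x y : ℕ} (hx : x ∈ A) (hy : y ∈ A)
    (h : (A.filter (· < x)).card = (A.filter (· < y)).card) : x = y := by
  classical
  have key : ∀ x y : ℕ, x ∈ A → x < y → (A.filter (· < x)).card < (A.filter (· < y)).card := by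
    intro x y hx hxy
    refine Finset.card_lt_card ?_
    rw [Finset.ssubset_iff_of_subset]
    · exact ⟨x, Finset.mem_filter.2 ⟨hx, hxy⟩, by simp⟩
    · intro s hs
      obtain ⟨h1, h2⟩ := Finset.mem_filter.1 hs
      exact Finset.mem_filter.2 ⟨h1, h2.trans hxy⟩
  rcases lt_trichotomy x y with h1 | h1 | h1
  · have := key x y hx h1
    omega
  · exact h1
  · have := key y x hy h1
    omega

lemma exists_low (H : Finset ℕ) (a : ℕ) (ha : a ≤ H.card) :
    ∃ L ⊆ H, L.card = a ∧ ∀ x ∈ L, ∀ y ∈ H \ L, x < y := by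
  classical
  induction a with
  | zero => exact ⟨∅, Finset.empty_subset _, rfl, by simp⟩
  | succ a ih =>
    obtain ⟨L, hL, hLc, hlt⟩ := ih (by omega)
    have hne : (H \ L).Nonempty := by
      rw [← Finset.card_pos, Finset.card_sdiff_of_subset hL]
      omega
    set z := (H \ L).min' hne with hz
    have hzm : z ∈ H \ L := (H \ L).min'_mem hne
    obtain ⟨hzH, hzL⟩ := Finset.mem_sdiff.1 hzm
    refine ⟨insert z L, ?_, ?_, ?_⟩
    · exact Finset.insert_subset hzH hL
    · rw [Finset.card_insert_of_notMem hzL, hLc]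
    · intro x hx y hy
      obtain ⟨hyH, hyL⟩ := Finset.mem_sdiff.1 hy
      have hyL' : y ∉ L := fun h => hyL (Finset.mem_insert_of_mem h)
      have hyz : y ≠ z := fun h => hyL (h ▸ Finset.mem_insert_self _ _)
      have hym : y ∈ H \ L := Finset.mem_sdiff.2 ⟨hyH, hyL'⟩
      rcases Finset.mem_insert.1 hx with rfl | hx
      · exact lt_of_le_of_ne ((H \ L).min'_le y hym) (Ne.symm hyz)
      · exact hlt x hx y hym

lemma exists_high (H : Finset ℕ) (a : ℕ) (ha : a ≤ H.card) :
    ∃ L ⊆ H, L.card = a ∧ ∀ x ∈ L, ∀ y ∈ H \ L, y < x := by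
  classical
  induction a with
  | zero => exact ⟨∅, Finset.empty_subset _, rfl, by simp⟩
  | succ a ih =>
    obtain ⟨L, hL, hLc, hlt⟩ := ih (by omega)
    have hne : (H \ L).Nonempty := by
      rw [← Finset.card_pos, Finset.card_sdiff_of_subset hL]
      omega
    set z := (H \ L).max' hne with hz
    have hzm : z ∈ H \ L := (H \ L).max'_mem hne
    obtain ⟨hzH, hzL⟩ := Finset.mem_sdiff.1 hzm
    refine ⟨insert z L, ?_, ?_, ?_⟩
    · exact Finset.insert_subset hzH hL
    · rw [Finset.card_insert_of_notMem hzL, hLc]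
    · intro x hx y hy
      obtain ⟨hyH, hyL⟩ := Finset.mem_sdiff.1 hy
      have hyL' : y ∉ L := fun h => hyL (Finset.mem_insert_of_mem h)
      have hyz : y ≠ z := fun h => hyL (h ▸ Finset.mem_insert_self _ _)
      have hym : y ∈ H \ L := Finset.mem_sdiff.2 ⟨hyH, hyL'⟩
      rcases Finset.mem_insert.1 hx with rfl | hx
      · exact lt_of_le_of_ne ((H \ L).le_max' y hym) hyz
      · exact hlt x hx y hym

/-- lower part, middle, upper part -/
lemma exists_parts (H : Finset ℕ) (a b n : ℕ) (h : a + b + n ≤ H.card) :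
    ∃ L Mid R : Finset ℕ, L ⊆ H ∧ Mid ⊆ H ∧ R ⊆ H ∧ L.card = a ∧ R.card = b ∧ n ≤ Mid.card ∧
      (∀ x ∈ L, ∀ y ∈ Mid, x < y) ∧ (∀ x ∈ L, ∀ y ∈ R, x < y) ∧ (∀ x ∈ Mid, ∀ y ∈ R, x < y) := by
  classical
  obtain ⟨L, hL, hLc, hLlt⟩ := exists_low H a (by omega)
  have hc : (H \ L).card = H.card - a := by rw [Finset.card_sdiff_of_subset hL, hLc]
  obtain ⟨R, hR, hRc, hRlt⟩ := exists_high (H \ L) b (by omega)
  refine ⟨L, (H \ L) \ R, R, hL, Finset.sdiff_subset.trans Finset.sdiff_subset,
    hR.trans Finset.sdiff_subset, hLc, hRc, ?_, ?_, ?_, ?_⟩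
  · rw [Finset.card_sdiff_of_subset hR, hRc, hc]
    omega
  · intro x hx y hy
    exact hLlt x hx y (Finset.mem_sdiff.1 hy).1
  · intro x hx y hy
    exact hLlt x hx y (hR hy)
  · intro x hx y hy
    exact hRlt y hy x hx

/-! ### interpolation -/

lemma interp {q : ℕ} {G : Finset ℕ} {f : Fin (q + 1) → ℕ → K} (hf : Good G f)
    {A : Finset ℕ} (hA : A ⊆ G) (hAc : A.card = q + 1) (N : ℕ → K) :
    ∃ κ : Fin (q + 1) → K, ∀ a ∈ A, N a = ∑ c, κ c * f c a := by
  classical
  set Mx : Matrix A (Fin (q + 1)) K := Matrix.of fun a c => f c a with hMx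
  have hfin : Module.finrank K (Fin (q + 1) → K) = Module.finrank K (A → K) := by
    rw [Module.finrank_fintype_fun_eq_card, Module.finrank_fintype_fun_eq_card, Fintype.card_fin,
      Fintype.card_coe, hAc]
  have happ : ∀ (κ : Fin (q + 1) → K) (a : A), Mx.mulVecLin κ a = ∑ c, κ c * f c a := by
    intro κ a
    rw [Matrix.mulVecLin_apply, Matrix.mulVec, dotProduct]
    refine Finset.sum_congr rfl fun c _ => ?_
    rw [hMx, Matrix.of_apply, mul_comm]
  have hinj : Function.Injective Mx.mulVecLin := by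
    rw [injective_iff_map_eq_zero]
    intro κ hκ
    have hvan : ∀ a ∈ A, ∑ c, κ c * f c a = 0 := by
      intro a ha
      rw [← happ κ ⟨a, ha⟩, hκ]
      rfl
    funext m
    obtain ⟨x, hx, hxm⟩ := exists_rank A m (by rw [hAc]; exact m.2)
    have h1 := lemV q G f hf κ (A.erase x) ((Finset.erase_subset _ _).trans hA)
      (by rw [Finset.card_erase_of_mem hx, hAc]; rfl) x (hA hx) (Finset.notMem_erase _ _)
      (fun s hs => hvan s (Finset.mem_of_mem_erase hs)) m (by
        rw [← hxm]
        congr 1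
        ext s
        simp only [Finset.mem_filter, Finset.mem_erase]
        constructor
        · rintro ⟨⟨_, h2⟩, h3⟩
          exact ⟨h2, h3⟩
        · rintro ⟨h2, h3⟩
          exact ⟨⟨by omega, h2⟩, h3⟩)
    rw [hvan x hx, norm_zero] at h1
    have h2 : ‖f m x‖ ≠ 0 := norm_ne_zero_iff.2 (hf.1 m x (hA hx))
    have h3 := (mul_eq_zero.1 h1.symm).resolve_right h2
    simpa using h3
  obtain ⟨κ, hκ⟩ := (LinearMap.injective_iff_surjective_of_finrank_eq_finrank hfin).1 hinj
    (fun a => N a)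
  refine ⟨κ, fun a ha => ?_⟩
  have := congrFun hκ ⟨a, ha⟩
  rw [happ] at this
  exact this.symm

lemma F3 {q : ℕ} {G : Finset ℕ} {f : Fin (q + 1) → ℕ → K} (hf : Good G f)
    {S : Finset ℕ} (hS : S ⊆ G) (hSc : S.card = q) {x : ℕ} (hx : x ∈ G) (hxS : x ∉ S)
    {N : ℕ → K} {κ κ' : Fin (q + 1) → K} (hκ : ∀ s ∈ S, N s = ∑ c, κ c * f c s)
    (hκ' : ∀ s ∈ insert x S, N s = ∑ c, κ' c * f c s) (m : Fin (q + 1))
    (hm : (S.filter (· < x)).card = (m : ℕ)) :
    ‖N x - ∑ c, κ c * f c x‖ = ‖κ' m - κ m‖ * ‖f m x‖ := by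
  have h1 := lemV q G f hf (fun c => κ' c - κ c) S hS hSc x hx hxS (fun s hs => by
    simp only [sub_mul, Finset.sum_sub_distrib]
    rw [← hκ s hs, ← hκ' s (Finset.mem_insert_of_mem hs), sub_self]) m hm
  simp only [sub_mul, Finset.sum_sub_distrib] at h1
  rw [← hκ' x (Finset.mem_insert_self _ _)] at h1
  exact h1

open Classical in
/-- the interpolating coefficients -/
noncomputable def co {q : ℕ} (f : Fin (q + 1) → ℕ → K) (N : ℕ → K) (A : Finset ℕ) :
    Fin (q + 1) → K :=
  if h : ∃ κ : Fin (q + 1) → K, ∀ a ∈ A, N a = ∑ c, κ c * f c a then Classical.choose h else 0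

lemma co_spec {q : ℕ} {G : Finset ℕ} {f : Fin (q + 1) → ℕ → K} (hf : Good G f)
    {A : Finset ℕ} (hA : A ⊆ G) (hAc : A.card = q + 1) (N : ℕ → K) :
    ∀ a ∈ A, N a = ∑ c, co f N A c * f c a := by
  have h := interp hf hA hAc N
  unfold co
  rw [dif_pos h]
  exact Classical.choose_spec h

open Classical in
/-- the element of rank `m` -/
noncomputable def nth (X : Finset ℕ) (m : ℕ) : ℕ :=
  if h : ∃ x ∈ X, (X.filter (· < x)).card = m then Classical.choose h else 0

lemma nth_eq {X : Finset ℕ} {x m : ℕ} (hx : x ∈ X) (h : (X.filter (· < x)).card = m) :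
    nth X m = x := by
  have h1 : ∃ x ∈ X, (X.filter (· < x)).card = m := ⟨x, hx, h⟩
  unfold nth
  rw [dif_pos h1]
  obtain ⟨h2, h3⟩ := Classical.choose_spec h1
  exact rank_inj h2 hx (h3.trans h.symm)

open Classical in
/-- the colour -/
noncomputable def col {q : ℕ} (f : Fin (q + 1) → ℕ → K) (N : ℕ → K) (X : Finset ℕ) :
    Fin (q + 1) → Bool × Bool := fun m =>
  let i := nth X m
  let j := nth X (m + 1)
  let k := nth X (m + 2)
  let S := ((X.erase i).erase j).erase k
  let s : ℕ → K := fun y => co f N (insert y S) m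
  (decide (‖s j - s k‖ < ‖s i - s k‖), decide (‖s i - s j‖ < ‖s i - s k‖))

open Classical in
lemma col_eq {q : ℕ} (f : Fin (q + 1) → ℕ → K) (N : ℕ → K) (m : Fin (q + 1)) (S : Finset ℕ)
    (i j k : ℕ) (hij : i < j) (hjk : j < k) (hiS : i ∉ S) (hjS : j ∉ S) (hkS : k ∉ S)
    (hS : ∀ s ∈ S, s < i ∨ k < s) (hm : (S.filter (· < i)).card = (m : ℕ)) :
    col f N (insert i (insert j (insert k S))) m =
      (decide (‖co f N (insert j S) m - co f N (insert k S) m‖ <
        ‖co f N (insert i S) m - co f N (insert k S) m‖),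
       decide (‖co f N (insert i S) m - co f N (insert j S) m‖ <
        ‖co f N (insert i S) m - co f N (insert k S) m‖)) := by
  set X := insert i (insert j (insert k S)) with hX
  have hmem : ∀ y, y ∈ X ↔ y = i ∨ y = j ∨ y = k ∨ y ∈ S := by
    intro y
    simp [hX]
  have hi : nth X m = i := by
    refine nth_eq ((hmem i).2 (Or.inl rfl)) ?_
    rw [← hm]
    congr 1
    ext y
    simp only [Finset.mem_filter, hmem]
    constructor
    · rintro ⟨h1, h2⟩
      refine ⟨?_, h2⟩
      rcases h1 with h1 | h1 | h1 | h1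
      · omega
      · omega
      · omega
      · exact h1
    · rintro ⟨h1, h2⟩
      exact ⟨Or.inr (Or.inr (Or.inr h1)), h2⟩
  have hj : nth X (m + 1) = j := by
    refine nth_eq ((hmem j).2 (Or.inr (Or.inl rfl))) ?_
    have h1 : X.filter (· < j) = insert i (S.filter (· < i)) := by
      ext y
      simp only [Finset.mem_filter, hmem, Finset.mem_insert]
      constructor
      · rintro ⟨h1, h2⟩
        rcases h1 with h1 | h1 | h1 | h1
        · exact Or.inl h1
        · omega
        · omega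
        · rcases hS y h1 with h3 | h3
          · exact Or.inr ⟨h1, h3⟩
          · omega
      · rintro (h1 | ⟨h1, h2⟩)
        · exact ⟨Or.inl h1, by omega⟩
        · exact ⟨Or.inr (Or.inr (Or.inr h1)), by omega⟩
    rw [h1, Finset.card_insert_of_notMem (by simp), hm]
  have hk : nth X (m + 2) = k := by
    refine nth_eq ((hmem k).2 (Or.inr (Or.inr (Or.inl rfl)))) ?_
    have h1 : X.filter (· < k) = insert i (insert j (S.filter (· < i))) := by
      ext y
      simp only [Finset.mem_filter, hmem, Finset.mem_insert]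
      constructor
      · rintro ⟨h1, h2⟩
        rcases h1 with h1 | h1 | h1 | h1
        · exact Or.inl h1
        · exact Or.inr (Or.inl h1)
        · omega
        · rcases hS y h1 with h3 | h3
          · exact Or.inr (Or.inr ⟨h1, h3⟩)
          · omega
      · rintro (h1 | h1 | ⟨h1, h2⟩)
        · exact ⟨Or.inl h1, by omega⟩
        · exact ⟨Or.inr (Or.inl h1), by omega⟩
        · exact ⟨Or.inr (Or.inr (Or.inr h1)), by omega⟩
    rw [h1, Finset.card_insert_of_notMem, Finset.card_insert_of_notMem, hm]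
    · simp only [Finset.mem_filter, not_and]
      intro h
      exact absurd h hjS
    · simp only [Finset.mem_insert, Finset.mem_filter, not_or, not_and]
      exact ⟨by omega, fun h => absurd h hiS⟩
  have hSe : ((X.erase i).erase j).erase k = S := by
    ext y
    simp only [Finset.mem_erase, hmem]
    constructor
    · rintro ⟨h1, h2, h3, h4⟩
      rcases h4 with h4 | h4 | h4 | h4
      · exact absurd h4 h3
      · exact absurd h4 h2
      · exact absurd h4 h1
      · exact h4
    · intro h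
      exact ⟨fun h2 => hkS (h2 ▸ h), fun h2 => hjS (h2 ▸ h), fun h2 => hiS (h2 ▸ h),
        Or.inr (Or.inr (Or.inr h))⟩
  unfold col
  simp only [hi, hj, hk, hSe]

end fld

/-! ### four equidistant points -/

lemma toZMod_eq_zero {z : ℤ_[3]} (h : PadicInt.toZMod z = 0) : ‖z‖ < 1 := by
  rw [← RingHom.mem_ker, PadicInt.ker_toZMod, PadicInt.maximalIdeal_eq_span_p,
    Ideal.mem_span_singleton] at h
  exact (PadicInt.norm_lt_one_iff_dvd z).2 (by exact_mod_cast h)

lemma no4 (Γ : Finset ℕ) (hΓ : 4 ≤ Γ.card) (s : ℕ → ℚ_[3]) (r : ℝ)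
    (h : ∀ i ∈ Γ, ∀ j ∈ Γ, i < j → ‖s i - s j‖ = r) : r = 0 := by
  classical
  by_contra hr
  have h' : ∀ i ∈ Γ, ∀ j ∈ Γ, i ≠ j → ‖s i - s j‖ = r := by
    intro i hi j hj hij
    rcases lt_or_gt_of_ne hij with h1 | h1
    · exact h i hi j hj h1
    · rw [norm_sub_rev]
      exact h j hj i hi h1
  obtain ⟨x0, hx0⟩ := Finset.card_pos.1 (by omega : 0 < Γ.card)
  have hc1 : (Γ.erase x0).card = Γ.card - 1 := Finset.card_erase_of_mem hx0
  obtain ⟨x1, hx1⟩ := Finset.card_pos.1 (by omega : 0 < (Γ.erase x0).card)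
  obtain ⟨hx10, hx1Γ⟩ := Finset.mem_erase.1 hx1
  set u := s x1 - s x0 with hu
  have hun : ‖u‖ = r := h' x1 hx1Γ x0 hx0 hx10
  set b : ℕ → ℚ_[3] := fun y => (s y - s x0) / u with hb
  have hb1 : ∀ y ∈ Γ.erase x0, ‖b y‖ = 1 := by
    intro y hy
    obtain ⟨h1, h2⟩ := Finset.mem_erase.1 hy
    simp only [hb]
    rw [norm_div, hun, h' y h2 x0 hx0 h1, div_self hr]
  have hb2 : ∀ y ∈ Γ, ∀ y' ∈ Γ, y ≠ y' → ‖b y - b y'‖ = 1 := by
    intro y hy y' hy' hne
    simp only [hb]
    have e1 : (s y - s x0) / u - (s y' - s x0) / u = (s y - s y') / u := by ring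
    rw [e1, norm_div, hun, h' y hy y' hy' hne, div_self hr]
  have hz : ∀ y, ∃ z : ℤ_[3], y ∈ Γ.erase x0 → (z : ℚ_[3]) = b y := by
    intro y
    by_cases hy : y ∈ Γ.erase x0
    · exact ⟨⟨b y, (hb1 y hy).le⟩, fun _ => rfl⟩
    · exact ⟨0, fun h => absurd h hy⟩
  choose z hz using hz
  set w : ℕ → ZMod 3 := fun y => PadicInt.toZMod (z y) with hw
  have hw0 : ∀ y ∈ Γ.erase x0, w y ≠ 0 := by
    intro y hy h0
    have h1 := hb1 y hy
    have h2 := toZMod_eq_zero h0
    rw [PadicInt.norm_def, hz y hy, h1] at h2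
    exact lt_irrefl _ h2
  have hwi : Set.InjOn w (Γ.erase x0 : Finset ℕ) := by
    intro y hy y' hy' hyy
    by_contra hne
    rw [Finset.mem_coe] at hy hy'
    simp only [hw] at hyy
    rw [← sub_eq_zero, ← map_sub] at hyy
    have h2 := toZMod_eq_zero hyy
    rw [PadicInt.norm_def, PadicInt.coe_sub, hz y hy, hz y' hy',
      hb2 y (Finset.mem_of_mem_erase hy) y' (Finset.mem_of_mem_erase hy') hne] at h2
    exact lt_irrefl _ h2
  have hle := Finset.card_le_card_of_injOn (s := Γ.erase x0)
    (t := (Finset.univ : Finset (ZMod 3)).erase 0) w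
    (fun y hy => Finset.mem_coe.2 (Finset.mem_erase.2 ⟨hw0 y (Finset.mem_coe.1 hy),
      Finset.mem_univ _⟩)) hwi
  have hc3 : ((Finset.univ : Finset (ZMod 3)).erase 0).card = 2 := by decide
  omega

end Pool.Agent.N709
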