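import Mathlib
import Pool.Agent.N709.Vand
import Pool.Agent.H507R3.RamAll

/-! Every function on a large set is on a large subset either an exact combination of the given
functions, or a combination plus a function of separated growth. -/

set_option autoImplicit false
open Finset Filter Topology

namespace Pool.Agent.N709

/-- the third alternative of the colour is impossible unless the coefficients agree -/
lemma exact_type (Γ : Finset ℕ) (hΓ : 5 ≤ Γ.card) (s : ℕ → ℚ_[3])
    (h : ∀ i ∈ Γ, ∀ j ∈ Γ, ∀ k ∈ Γ, i < j → j < k →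
      ‖s i - s k‖ ≤ ‖s j - s k‖ ∧ ‖s i - s k‖ ≤ ‖s i - s j‖) :
    ∃ Γ' ⊆ Γ, Γ.card ≤ Γ'.card + 1 ∧ ∀ i ∈ Γ', ∀ j ∈ Γ', s i = s j := by
  classical
  have h2 : ∀ i ∈ Γ, ∀ j ∈ Γ, ∀ k ∈ Γ, i < j → j < k → ‖s i - s j‖ = ‖s j - s k‖ := by
    intro i hi j hj k hk hij hjk
    obtain ⟨h3, h4⟩ := h i hi j hj k hk hij hjk
    by_contra hne
    have h5 := IsUltrametricDist.norm_sub_eq_max_of_norm_sub_ne_norm_sub (s i) (s j) (s k) hne
    rcases lt_or_gt_of_ne hne with h6 | h6
    · rw [max_eq_right h6.le] at h5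
      linarith
    · rw [max_eq_left h6.le] at h5
      linarith
  have hne : Γ.Nonempty := Finset.card_pos.1 (by omega)
  set g0 := Γ.min' hne with hg0
  have hg0m : g0 ∈ Γ := Γ.min'_mem hne
  have hc1 : (Γ.erase g0).card = Γ.card - 1 := Finset.card_erase_of_mem hg0m
  have hne1 : (Γ.erase g0).Nonempty := Finset.card_pos.1 (by omega)
  set g1 := (Γ.erase g0).min' hne1 with hg1
  have hg1m : g1 ∈ Γ.erase g0 := (Γ.erase g0).min'_mem hne1
  obtain ⟨hg10, hg1Γ⟩ := Finset.mem_erase.1 hg1m
  have hg01 : g0 < g1 := lt_of_le_of_ne (Γ.min'_le g1 hg1Γ) hg10.symm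
  have hr : ∀ i ∈ Γ.erase g0, ∀ j ∈ Γ.erase g0, i < j → ‖s i - s j‖ = ‖s g0 - s g1‖ := by
    intro i hi j hj hij
    have hiΓ := Finset.mem_of_mem_erase hi
    have hjΓ := Finset.mem_of_mem_erase hj
    have hi1 : g1 ≤ i := (Γ.erase g0).min'_le i hi
    rcases hi1.eq_or_lt with h5 | h5
    · rw [← h5]
      exact (h2 g0 hg0m g1 hg1Γ j hjΓ hg01 (by omega)).symm
    · rw [← h2 g1 hg1Γ i hiΓ j hjΓ h5 hij]
      exact (h2 g0 hg0m g1 hg1Γ i hiΓ hg01 h5).symm
  have hr0 := no4 (Γ.erase g0) (by omega) s _ hr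
  refine ⟨Γ.erase g0, Finset.erase_subset _ _, by omega, fun i hi j hj => ?_⟩
  rw [hr0] at hr
  rcases lt_trichotomy i j with h5 | h5 | h5
  · have := hr i hi j hj h5
    rwa [norm_eq_zero, sub_eq_zero] at this
  · rw [h5]
  · have := hr j hj i hi h5
    rw [norm_eq_zero, sub_eq_zero] at this
    exact this.symm

theorem claim (q n : ℕ) : ∃ A : ℕ, ∀ G : Finset ℕ, A ≤ G.card →
    ∀ (f : Fin (q + 1) → ℕ → ℚ_[3]) (N : ℕ → ℚ_[3]), Good G f →
    ∃ H ⊆ G, n ≤ H.card ∧ ∃ κ : Fin (q + 1) → ℚ_[3],
      (∀ x ∈ H, N x = ∑ c, κ c * f c x) ∨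
      ((∀ x ∈ H, N x - ∑ c, κ c * f c x ≠ 0) ∧ ∀ c,
        (∀ x ∈ H, ∀ x' ∈ H, x < x' → ‖N x' - ∑ c, κ c * f c x'‖ * ‖f c x‖ <
          ‖N x - ∑ c, κ c * f c x‖ * ‖f c x'‖) ∨
        (∀ x ∈ H, ∀ x' ∈ H, x < x' → ‖N x - ∑ c, κ c * f c x‖ * ‖f c x'‖ <
          ‖N x' - ∑ c, κ c * f c x'‖ * ‖f c x‖)) := by
  classical
  obtain ⟨A, hA⟩ := Pool.Agent.H507R3.RamAll.ramsey_finset (Fin (q + 1) → Bool × Bool) (q + 3)
    ((q + 1) + 0 + (n + 6))
  refine ⟨A, fun G hG f N hf => ?_⟩
  obtain ⟨T, hTG, hTc, t, ht⟩ := hA G (col f N) hG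
  -- the types
  have typ : ∀ (m : Fin (q + 1)) (S : Finset ℕ) (i j k : ℕ), S ⊆ T → S.card = q → i ∈ T → j ∈ T →
      k ∈ T → i < j → j < k → i ∉ S → j ∉ S → k ∉ S → (∀ s ∈ S, s < i ∨ k < s) →
      (S.filter (· < i)).card = (m : ℕ) →
      ((‖co f N (insert j S) m - co f N (insert k S) m‖ <
        ‖co f N (insert i S) m - co f N (insert k S) m‖) ↔ (t m).1 = true) ∧
      ((‖co f N (insert i S) m - co f N (insert j S) m‖ <
        ‖co f N (insert i S) m - co f N (insert k S) m‖) ↔ (t m).2 = true) := by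
    intro m S i j k hST hSc hi hj hk hij hjk hiS hjS hkS hS hm
    have h1 := ht (insert i (insert j (insert k S))) (by
      intro y hy
      simp only [Finset.mem_insert] at hy
      rcases hy with rfl | rfl | rfl | hy
      · exact hi
      · exact hj
      · exact hk
      · exact hST hy) (by
      rw [Finset.card_insert_of_notMem, Finset.card_insert_of_notMem,
        Finset.card_insert_of_notMem hkS, hSc]
      · simp only [Finset.mem_insert, not_or]
        exact ⟨by omega, hjS⟩
      · simp only [Finset.mem_insert, not_or]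
        exact ⟨by omega, by omega, hiS⟩)
    have h2 := col_eq f N m S i j k hij hjk hiS hjS hkS hS hm
    rw [h1] at h2
    rw [h2]
    simp
  by_cases hex : ∃ m, t m = (false, false)
  · -- exact case
    obtain ⟨m, hm⟩ := hex
    obtain ⟨L, Mid, R, hL, hMid, hR, hLc, hRc, hMc, h1, h2, h3⟩ :=
      exists_parts T m (q - m) (n + 6) (by have := m.2; omega)
    set S := L ∪ R with hSdef
    have hdisj : Disjoint L R := by
      rw [Finset.disjoint_left]
      intro x hx hx'
      exact lt_irrefl _ (h2 x hx x hx')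
    have hSc : S.card = q := by
      rw [hSdef, Finset.card_union_of_disjoint hdisj, hLc, hRc]
      have := m.2
      omega
    have hST : S ⊆ T := Finset.union_subset hL hR
    have hMS : ∀ x ∈ Mid, x ∉ S := by
      intro x hx hxS
      rcases Finset.mem_union.1 hxS with h4 | h4
      · exact lt_irrefl _ (h1 x h4 x hx)
      · exact lt_irrefl _ (h3 x hx x h4)
    have hfil : ∀ x ∈ Mid, (S.filter (· < x)).card = (m : ℕ) := by
      intro x hx
      rw [← hLc]
      congr 1
      ext y
      simp only [hSdef, Finset.mem_filter, Finset.mem_union]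
      constructor
      · rintro ⟨h4 | h4, h5⟩
        · exact h4
        · have := h3 x hx y h4
          omega
      · intro h4
        exact ⟨Or.inl h4, h1 y h4 x hx⟩
    obtain ⟨Γ', hΓ', hΓc, hΓeq⟩ := exact_type Mid (by omega) (fun y => co f N (insert y S) m) (by
      intro i hi j hj k hk hij hjk
      obtain ⟨e1, e2⟩ := typ m S i j k hST hSc (hMid hi) (hMid hj) (hMid hk) hij hjk (hMS i hi)
        (hMS j hj) (hMS k hk) (by
          intro s hs
          rcases Finset.mem_union.1 hs with h4 | h4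
          · exact Or.inl (h1 s h4 i hi)
          · exact Or.inr (h3 k hk s h4)) (hfil i hi)
      rw [hm] at e1 e2
      simp only [Bool.false_eq_true, iff_false, not_lt] at e1 e2
      exact ⟨e1, e2⟩)
    obtain ⟨y0, hy0⟩ : Γ'.Nonempty := Finset.card_pos.1 (by omega)
    refine ⟨Γ', hΓ'.trans (hMid.trans hTG), by omega, co f N (insert y0 S), Or.inl ?_⟩
    intro x hx
    have hxM := hΓ' hx
    have hyM := hΓ' hy0
    have hic : ∀ y ∈ Mid, (insert y S).card = q + 1 := fun y hy => by
      rw [Finset.card_insert_of_notMem (hMS y hy), hSc]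
    have hsub : ∀ y ∈ Mid, insert y S ⊆ G := fun y hy =>
      Finset.insert_subset (hTG (hMid hy)) (hST.trans hTG)
    have h5 := F3 hf (hST.trans hTG) hSc (hTG (hMid hxM)) (hMS x hxM)
      (N := N) (κ := co f N (insert y0 S)) (κ' := co f N (insert x S))
      (fun s hs => co_spec hf (hsub y0 hyM) (hic y0 hyM) N s (Finset.mem_insert_of_mem hs))
      (co_spec hf (hsub x hxM) (hic x hxM) N) m (hfil x hxM)
    rw [hΓeq x hx y0 hy0, sub_self, norm_zero, zero_mul, norm_eq_zero, sub_eq_zero] at h5
    exact h5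
  · -- a new class
    push Not at hex
    have hPex : ∃ p : ℕ, p = q + 1 ∨ ∃ h : p < q + 1, (t ⟨p, h⟩).1 = true := ⟨q + 1, Or.inl rfl⟩
    set p := Nat.find hPex with hp
    have hp1 : p = q + 1 ∨ ∃ h : p < q + 1, (t ⟨p, h⟩).1 = true := Nat.find_spec hPex
    have hpmin : ∀ p' < p, ∀ h : p' < q + 1, (t ⟨p', h⟩).1 = false := by
      intro p' hp' h
      have := Nat.find_min hPex hp'
      push Not at this
      have h2 := this.2 h
      simpa using h2
    have hple : p ≤ q + 1 := by
      rcases hp1 with h | ⟨h, _⟩ <;> omega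
    have hp2 : ∀ h : 1 ≤ p, (t ⟨p - 1, by omega⟩).2 = true := by
      intro h
      have h1 := hpmin (p - 1) (by omega) (by omega)
      by_contra h2
      have h3 : (t ⟨p - 1, by omega⟩).2 = false := by simpa using h2
      exact hex ⟨p - 1, by omega⟩ (Prod.ext h1 h3)
    obtain ⟨L, Mid, R, hL, hMid, hR, hLc, hRc, hMc, h1, h2, h3⟩ :=
      exists_parts T p (q + 1 - p) (n + 6) (by omega)
    set Aa := L ∪ R with hAdef
    have hdisj : Disjoint L R := by
      rw [Finset.disjoint_left]
      intro x hx hx'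
      exact lt_irrefl _ (h2 x hx x hx')
    have hAc : Aa.card = q + 1 := by
      rw [hAdef, Finset.card_union_of_disjoint hdisj, hLc, hRc]
      omega
    have hAT : Aa ⊆ T := Finset.union_subset hL hR
    have hMA : ∀ x ∈ Mid, x ∉ Aa := by
      intro x hx hxS
      rcases Finset.mem_union.1 hxS with h4 | h4
      · exact lt_irrefl _ (h1 x h4 x hx)
      · exact lt_irrefl _ (h3 x hx x h4)
    set κ := co f N Aa with hκ
    have hκs := co_spec hf (hAT.trans hTG) hAc N
    set ρ : ℕ → ℝ := fun x => ‖N x - ∑ c, κ c * f c x‖ with hρ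
    have hfpos : ∀ c, ∀ x ∈ Mid, 0 < ‖f c x‖ := fun c x hx =>
      norm_pos_iff.2 (hf.1 c x (hTG (hMid hx)))
    -- comparison with the function of index `p`
    have hcmp1 : ∀ h : p < q + 1, ∀ x ∈ Mid, ∀ x' ∈ Mid, x < x' →
        ρ x' * ‖f ⟨p, h⟩ x‖ < ρ x * ‖f ⟨p, h⟩ x'‖ := by
      intro h x hx x' hx' hxx
      have hRne : R.Nonempty := Finset.card_pos.1 (by omega)
      set b := R.min' hRne with hb
      have hbR : b ∈ R := R.min'_mem hRne
      have hbA : b ∈ Aa := Finset.mem_union_right _ hbR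
      set S := Aa.erase b with hS
      have hSc : S.card = q := by
        rw [hS, Finset.card_erase_of_mem hbA, hAc]
        rfl
      have hST : S ⊆ T := (Finset.erase_subset _ _).trans hAT
      have hMS : ∀ y ∈ Mid, y ∉ S := fun y hy hyS => hMA y hy (Finset.mem_of_mem_erase hyS)
      have hbS : b ∉ S := Finset.notMem_erase _ _
      have hbx : ∀ y ∈ Mid, y < b := fun y hy => h3 y hy b hbR
      have hib : insert b S = Aa := Finset.insert_erase hbA
      have hfil : ∀ y ∈ Mid, (S.filter (· < y)).card = p := by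
        intro y hy
        rw [← hLc]
        congr 1
        ext z
        simp only [hS, hAdef, Finset.mem_filter, Finset.mem_erase, Finset.mem_union]
        constructor
        · rintro ⟨⟨_, h4 | h4⟩, h5⟩
          · exact h4
          · have := h3 y hy z h4
            omega
        · intro h4
          have h5 := h1 z h4 y hy
          have h6 := hbx y hy
          exact ⟨⟨by omega, Or.inl h4⟩, h5⟩
      have hval : ∀ y ∈ Mid, ρ y = ‖co f N (insert y S) ⟨p, h⟩ -
          co f N (insert b S) ⟨p, h⟩‖ * ‖f ⟨p, h⟩ y‖ := by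
        intro y hy
        rw [hib]
        refine F3 hf (hST.trans hTG) hSc (hTG (hMid hy)) (hMS y hy)
          (fun s hs => hκs s (Finset.mem_of_mem_erase hs)) ?_ ⟨p, h⟩ (hfil y hy)
        exact co_spec hf (Finset.insert_subset (hTG (hMid hy)) (hST.trans hTG))
          (by rw [Finset.card_insert_of_notMem (hMS y hy), hSc]) N
      have h4 := (typ ⟨p, h⟩ S x x' b hST hSc (hMid hx) (hMid hx') (hR hbR) hxx (hbx x' hx')
        (hMS x hx) (hMS x' hx') hbS (by
          intro s hs
          obtain ⟨h5, h6⟩ := Finset.mem_erase.1 hs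
          rcases Finset.mem_union.1 h6 with h7 | h7
          · exact Or.inl (h1 s h7 x hx)
          · exact Or.inr (lt_of_le_of_ne (R.min'_le s h7) (Ne.symm h5))) (hfil x hx)).1.2 (by
          rcases hp1 with h5 | ⟨_, h5⟩
          · omega
          · exact h5)
      rw [hval x hx, hval x' hx']
      have a1 := hfpos ⟨p, h⟩ x hx
      have a2 := hfpos ⟨p, h⟩ x' hx'
      have a3 := mul_lt_mul_of_pos_right h4 (mul_pos a1 a2)
      calc _ = ‖co f N (insert x' S) ⟨p, h⟩ - co f N (insert b S) ⟨p, h⟩‖ *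
              (‖f ⟨p, h⟩ x‖ * ‖f ⟨p, h⟩ x'‖) := by ring
        _ < _ := a3
        _ = _ := by ring
    -- comparison with the function of index `p - 1`
    have hcmp2 : ∀ h : 1 ≤ p, ∀ x ∈ Mid, ∀ x' ∈ Mid, x < x' →
        ρ x * ‖f ⟨p - 1, by omega⟩ x'‖ < ρ x' * ‖f ⟨p - 1, by omega⟩ x‖ := by
      intro h x hx x' hx' hxx
      have hLne : L.Nonempty := Finset.card_pos.1 (by omega)
      set m : Fin (q + 1) := ⟨p - 1, by omega⟩ with hm
      set a := L.max' hLne with ha
      have haL : a ∈ L := L.max'_mem hLne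
      have haA : a ∈ Aa := Finset.mem_union_left _ haL
      set S := Aa.erase a with hS
      have hSc : S.card = q := by
        rw [hS, Finset.card_erase_of_mem haA, hAc]
        rfl
      have hST : S ⊆ T := (Finset.erase_subset _ _).trans hAT
      have hMS : ∀ y ∈ Mid, y ∉ S := fun y hy hyS => hMA y hy (Finset.mem_of_mem_erase hyS)
      have haS : a ∉ S := Finset.notMem_erase _ _
      have hax : ∀ y ∈ Mid, a < y := fun y hy => h1 a haL y hy
      have hia : insert a S = Aa := Finset.insert_erase haA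
      have hLe : (L.erase a).card = (m : ℕ) := by
        rw [Finset.card_erase_of_mem haL, hLc]
      have hfil : ∀ y, a ≤ y → (∀ z ∈ R, y < z) → (S.filter (· < y)).card = (m : ℕ) := by
        intro y hy hy2
        rw [← hLe]
        congr 1
        ext z
        simp only [hS, hAdef, Finset.mem_filter, Finset.mem_erase, Finset.mem_union]
        constructor
        · rintro ⟨⟨h5, h4 | h4⟩, h6⟩
          · exact ⟨h5, h4⟩
          · have := hy2 z h4
            omega
        · rintro ⟨h4, h5⟩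
          have h6 := L.le_max' z h5
          have h7 : z < a := lt_of_le_of_ne h6 h4
          exact ⟨⟨h4, Or.inl h5⟩, by omega⟩
      have hval : ∀ y ∈ Mid, ρ y = ‖co f N (insert y S) m -
          co f N (insert a S) m‖ * ‖f m y‖ := by
        intro y hy
        rw [hia]
        refine F3 hf (hST.trans hTG) hSc (hTG (hMid hy)) (hMS y hy)
          (fun s hs => hκs s (Finset.mem_of_mem_erase hs)) ?_ m
          (hfil y (hax y hy).le (fun z hz => h3 y hy z hz))
        exact co_spec hf (Finset.insert_subset (hTG (hMid hy)) (hST.trans hTG))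
          (by rw [Finset.card_insert_of_notMem (hMS y hy), hSc]) N
      have h4 := (typ m S a x x' hST hSc (hL haL) (hMid hx) (hMid hx') (hax x hx) hxx
        haS (hMS x hx) (hMS x' hx') (by
          intro s hs
          obtain ⟨h5, h6⟩ := Finset.mem_erase.1 hs
          rcases Finset.mem_union.1 h6 with h7 | h7
          · exact Or.inl (lt_of_le_of_ne (L.le_max' s h7) h5)
          · exact Or.inr (h3 x' hx' s h7))
          (hfil a le_rfl (fun z hz => h2 a haL z hz))).2.2 (hp2 h)
      rw [norm_sub_rev (co f N (insert a S) m), norm_sub_rev (co f N (insert a S) m)] at h4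
      rw [hval x hx, hval x' hx']
      have a1 := hfpos m x hx
      have a2 := hfpos m x' hx'
      have a3 := mul_lt_mul_of_pos_right h4 (mul_pos a1 a2)
      calc _ = ‖co f N (insert x S) m - co f N (insert a S) m‖ * (‖f m x‖ * ‖f m x'‖) := by ring
        _ < _ := a3
        _ = _ := by ring
    -- remove the first and the last element
    have hMne : Mid.Nonempty := Finset.card_pos.1 (by omega)
    set z0 := Mid.min' hMne with hz0
    have hz0m : z0 ∈ Mid := Mid.min'_mem hMne
    have hne2 : (Mid.erase z0).Nonempty := by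
      rw [← Finset.card_pos, Finset.card_erase_of_mem hz0m]
      omega
    set z1 := (Mid.erase z0).max' hne2 with hz1
    have hz1m : z1 ∈ Mid.erase z0 := (Mid.erase z0).max'_mem hne2
    set H := (Mid.erase z0).erase z1 with hH
    have hHM : H ⊆ Mid := (Finset.erase_subset _ _).trans (Finset.erase_subset _ _)
    refine ⟨H, hHM.trans (hMid.trans hTG), ?_, κ, Or.inr ⟨?_, ?_⟩⟩
    · rw [hH, Finset.card_erase_of_mem hz1m, Finset.card_erase_of_mem hz0m]
      omega
    · intro x hx h0
      have hρ0 : ρ x = 0 := by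
        simp only [hρ]
        rw [h0, norm_zero]
      obtain ⟨hx1, hx2⟩ := Finset.mem_erase.1 hx
      obtain ⟨hx3, hx4⟩ := Finset.mem_erase.1 hx2
      rcases hple.eq_or_lt with h5 | h5
      · have h6 : z0 < x := lt_of_le_of_ne (Mid.min'_le x hx4) (Ne.symm hx3)
        have h7 := hcmp2 (by omega) z0 hz0m x hx4 h6
        rw [hρ0, zero_mul] at h7
        have h8 : 0 ≤ ρ z0 := norm_nonneg _
        have h9 := hfpos ⟨p - 1, by omega⟩ x hx4
        nlinarith
      · have h6 : x < z1 := lt_of_le_of_ne ((Mid.erase z0).le_max' x hx2) hx1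
        have h7 := hcmp1 h5 x hx4 z1 (Finset.mem_of_mem_erase hz1m) h6
        rw [hρ0, zero_mul] at h7
        have h8 : 0 ≤ ρ z1 := norm_nonneg _
        have h9 := hfpos ⟨p, h5⟩ x hx4
        nlinarith
    · intro c
      by_cases hc : p ≤ (c : ℕ)
      · left
        intro x hx x' hx' hxx
        have hpq : p < q + 1 := by have := c.2; omega
        have hxM := hHM hx
        have hxM' := hHM hx'
        have e1 := hcmp1 hpq x hxM x' hxM' hxx
        show ρ x' * ‖f c x‖ < ρ x * ‖f c x'‖
        rcases hc.eq_or_lt with h5 | h5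
        · have : c = ⟨p, hpq⟩ := Fin.ext h5.symm
          rw [this]
          exact e1
        · have e2 := hf.2 ⟨p, hpq⟩ c (by rw [Fin.lt_def]; exact h5) x (hTG (hMid hxM)) x'
            (hTG (hMid hxM')) hxx
          have a1 := hfpos ⟨p, hpq⟩ x hxM
          have a2 := hfpos ⟨p, hpq⟩ x' hxM'
          have a3 := hfpos c x hxM
          have a4 := hfpos c x' hxM'
          have a5 : 0 ≤ ρ x := norm_nonneg _
          have a6 : 0 ≤ ρ x' := norm_nonneg _
          have a7 : 0 < ρ x := by
            by_contra hneg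
            have : ρ x = 0 := le_antisymm (not_lt.1 hneg) a5
            rw [this, zero_mul] at e1
            nlinarith
          have a8 : (ρ x' * ‖f ⟨p, hpq⟩ x‖) * (‖f ⟨p, hpq⟩ x'‖ * ‖f c x‖) ≤
              (ρ x * ‖f ⟨p, hpq⟩ x'‖) * (‖f ⟨p, hpq⟩ x'‖ * ‖f c x‖) :=
            mul_le_mul_of_nonneg_right e1.le (by positivity)
          have a9 : (ρ x * ‖f ⟨p, hpq⟩ x'‖) * (‖f ⟨p, hpq⟩ x'‖ * ‖f c x‖) <
              (ρ x * ‖f ⟨p, hpq⟩ x'‖) * (‖f ⟨p, hpq⟩ x‖ * ‖f c x'‖) :=
            mul_lt_mul_of_pos_left e2 (by positivity)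
          have a10 : (ρ x' * ‖f c x‖) * (‖f ⟨p, hpq⟩ x‖ * ‖f ⟨p, hpq⟩ x'‖) <
              (ρ x * ‖f c x'‖) * (‖f ⟨p, hpq⟩ x‖ * ‖f ⟨p, hpq⟩ x'‖) := by
            calc _ = (ρ x' * ‖f ⟨p, hpq⟩ x‖) * (‖f ⟨p, hpq⟩ x'‖ * ‖f c x‖) := by ring
              _ ≤ _ := a8
              _ < _ := a9
              _ = _ := by ring
          exact lt_of_mul_lt_mul_right a10 (by positivity)
      · right
        intro x hx x' hx' hxx
        push Not at hc
        have hp0 : 1 ≤ p := by omega
        set m : Fin (q + 1) := ⟨p - 1, by omega⟩ with hm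
        have hxM := hHM hx
        have hxM' := hHM hx'
        have e1 := hcmp2 hp0 x hxM x' hxM' hxx
        show ρ x * ‖f c x'‖ < ρ x' * ‖f c x‖
        have hcle : (c : ℕ) ≤ p - 1 := by omega
        rcases hcle.eq_or_lt with h5 | h5
        · have : c = m := Fin.ext h5
          rw [this]
          exact e1
        · have e2 := hf.2 c m (by rw [Fin.lt_def]; exact h5) x (hTG (hMid hxM)) x'
            (hTG (hMid hxM')) hxx
          have a1 := hfpos m x hxM
          have a2 := hfpos m x' hxM'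
          have a3 := hfpos c x hxM
          have a4 := hfpos c x' hxM'
          have a5 : 0 ≤ ρ x := norm_nonneg _
          have a6 : 0 ≤ ρ x' := norm_nonneg _
          have a7 : 0 < ρ x' := by
            by_contra hneg
            have : ρ x' = 0 := le_antisymm (not_lt.1 hneg) a6
            rw [this, zero_mul] at e1
            nlinarith
          have a8 : (ρ x * ‖f m x'‖) * (‖f c x'‖ * ‖f m x‖) ≤
              (ρ x' * ‖f m x‖) * (‖f c x'‖ * ‖f m x‖) :=
            mul_le_mul_of_nonneg_right e1.le (by positivity)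
          have a9 : (ρ x' * ‖f m x‖) * (‖f c x'‖ * ‖f m x‖) <
              (ρ x' * ‖f m x‖) * (‖f c x‖ * ‖f m x'‖) :=
            mul_lt_mul_of_pos_left e2 (by positivity)
          have a10 : (ρ x * ‖f c x'‖) * (‖f m x‖ * ‖f m x'‖) <
              (ρ x' * ‖f c x‖) * (‖f m x‖ * ‖f m x'‖) := by
            calc _ = (ρ x * ‖f m x'‖) * (‖f c x'‖ * ‖f m x‖) := by ring
              _ ≤ _ := a8
              _ < _ := a9
              _ = _ := by ring
          exact lt_of_mul_lt_mul_right a10 (by positivity)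

end Pool.Agent.N709
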