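import Mathlib
import Pool.Agent.TH338.LG.Sst

/-! Vanishing sums of the numbers `2 ^ x * 3 ^ y`: every term has a neighbour. -/

set_option autoImplicit false
open Finset Filter Topology

namespace Pool.Agent.N709

open Pool.Agent.TH461.SST Pool.Agent.TH338.LG

/-- all coordinates but `i`, as forms in all coordinates but `i1` -/
lemma gad {m : ℕ} (c : Fin (m + 1) → ℤ) (hc : ∀ l, c l ≠ 0) (i1 i : Fin (m + 1)) :
    ∃ (Mt : Matrix (Fin m) (Fin m) ℤ) (τ : Fin m → Fin (m + 1)), Mt.det ≠ 0 ∧
      (∀ z : Fin (m + 1) → ℤ, ∑ l, c l * z l = 0 →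
        ∀ l, z (τ l) ∣ ∑ j, Mt l j * z (i1.succAbove j)) ∧
      ∀ f : Fin (m + 1) → ℝ, ∑ l, f (τ l) = ∑ l, f l - f i := by
  classical
  by_cases h : i = i1
  · subst h
    refine ⟨1, i.succAbove, by simp, fun z _ l => ?_, fun f => ?_⟩
    · simp only [Matrix.one_apply, ite_mul, one_mul, zero_mul]
      rw [Finset.sum_ite_eq Finset.univ l]
      simp
    · rw [Fin.sum_univ_succAbove f i]
      ring
  · obtain ⟨l2, hl2⟩ := Fin.exists_succAbove_eq h
    refine ⟨Matrix.updateRow 1 l2 (fun j => c (i1.succAbove j)),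
      fun l => if l = l2 then i1 else i1.succAbove l, ?_, fun z hz l => ?_, fun f => ?_⟩
    · rw [← Matrix.transpose_one, Matrix.updateRow_transpose, Matrix.det_transpose,
        ← Matrix.cramer_apply, Matrix.cramer_one]
      exact hc _
    · by_cases hl : l = l2
      · subst hl
        simp only [if_true, Matrix.updateRow_self]
        rw [Fin.sum_univ_succAbove _ i1] at hz
        have : ∑ j, c (i1.succAbove j) * z (i1.succAbove j) = -(c i1) * z i1 := by linarith
        rw [this]
        exact dvd_mul_left _ _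
      · simp only [if_neg hl]
        have : ∀ j, (Matrix.updateRow (1 : Matrix (Fin m) (Fin m) ℤ) l2
            (fun j => c (i1.succAbove j))) l j = if l = j then 1 else 0 := by
          intro j
          rw [Matrix.updateRow_ne hl, Matrix.one_apply]
        simp only [this, ite_mul, one_mul, zero_mul]
        rw [Finset.sum_ite_eq Finset.univ l]
        simp
    · have h1 : ∀ l, f (if l = l2 then i1 else i1.succAbove l) =
          f (i1.succAbove l) + if l = l2 then f i1 - f i else 0 := by
        intro l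
        split_ifs with hl
        · rw [hl, hl2]; ring
        · ring
      simp only [h1]
      rw [Finset.sum_add_distrib, Finset.sum_ite_eq' Finset.univ l2, Fin.sum_univ_succAbove f i1]
      simp only [Finset.mem_univ, if_true]
      ring

/-- the index `i'` is close to `i` -/
def Nb {m : ℕ} (B : ℕ) (x y : Fin m → ℕ) (i i' : Fin m) : Prop :=
  x i ≤ x i' + B ∧ x i' ≤ x i + B ∧ y i ≤ y i' + B ∧ y i' ≤ y i + B

/-- **S-unit theorem.** -/
theorem sun (m : ℕ) : ∀ c : Fin m → ℤ, ∃ B : ℕ, ∀ x y : Fin m → ℕ,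
    ∑ l, c l * (2 ^ x l * 3 ^ y l) = 0 → ∀ i, c i ≠ 0 → ∃ i', i' ≠ i ∧ Nb B x y i i' := by
  classical
  induction m with
  | zero => exact fun c => ⟨0, fun x y _ i => i.elim0⟩
  | succ m ih =>
    -- relations with a zero coefficient
    have hdrop : ∀ (d : Fin (m + 1) → ℤ) (l0 : Fin (m + 1)), d l0 = 0 → ∃ B : ℕ,
        ∀ x y : Fin (m + 1) → ℕ, ∑ l, d l * (2 ^ x l * 3 ^ y l) = 0 → ∀ i, d i ≠ 0 →
          ∃ i', i' ≠ i ∧ Nb B x y i i' := by
      intro d l0 hl0
      obtain ⟨B, hB⟩ := ih (fun j => d (l0.succAbove j))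
      refine ⟨B, fun x y hs i hi => ?_⟩
      have hne : i ≠ l0 := by
        rintro rfl
        exact hi hl0
      obtain ⟨j, rfl⟩ := Fin.exists_succAbove_eq hne
      rw [Fin.sum_univ_succAbove _ l0, hl0, zero_mul, zero_add] at hs
      obtain ⟨j', hj', hN⟩ := hB (fun j => x (l0.succAbove j)) (fun j => y (l0.succAbove j)) hs j hi
      refine ⟨l0.succAbove j', ?_, hN⟩
      intro h
      exact hj' (Fin.succAbove_right_injective h)
    intro c
    by_cases hc : ∃ i, c i = 0
    · obtain ⟨l0, hl0⟩ := hc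
      exact hdrop c l0 hl0
    push Not at hc
    by_contra hcon
    push Not at hcon
    -- normalised bad solutions
    have hnorm : ∀ B : ℕ, ∃ (x y : Fin (m + 1) → ℕ) (p : Fin (m + 1) × Fin (m + 1) ×
        Fin (m + 1) × Fin (m + 1)), ∑ l, c l * (2 ^ x l * 3 ^ y l) = 0 ∧
        (∀ l, (2 : ℤ) ^ x l * 3 ^ y l ≤ 2 ^ x p.1 * 3 ^ y p.1) ∧ x p.2.1 = 0 ∧ y p.2.2.1 = 0 ∧
        ∀ i', i' ≠ p.2.2.2 → ¬ Nb B x y p.2.2.2 i' := by
      intro B
      obtain ⟨x, y, hs, i0, _, hbad⟩ := hcon B
      obtain ⟨i2, _, h2⟩ := Finset.exists_min_image (Finset.univ : Finset (Fin (m + 1))) x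
        ⟨0, Finset.mem_univ _⟩
      obtain ⟨i3, _, h3⟩ := Finset.exists_min_image (Finset.univ : Finset (Fin (m + 1))) y
        ⟨0, Finset.mem_univ _⟩
      have h2' : ∀ l, x i2 ≤ x l := fun l => h2 l (Finset.mem_univ _)
      have h3' : ∀ l, y i3 ≤ y l := fun l => h3 l (Finset.mem_univ _)
      obtain ⟨i1, _, h1⟩ := Finset.exists_max_image (Finset.univ : Finset (Fin (m + 1)))
        (fun l => (2 : ℤ) ^ (x l - x i2) * 3 ^ (y l - y i3)) ⟨0, Finset.mem_univ _⟩
      refine ⟨fun l => x l - x i2, fun l => y l - y i3, (i1, i2, i3, i0), ?_,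
        fun l => h1 l (Finset.mem_univ _), by simp, by simp, ?_⟩
      · have h4 : ∀ l, c l * ((2 : ℤ) ^ x l * 3 ^ y l) = (2 ^ x i2 * 3 ^ y i3) *
            (c l * (2 ^ (x l - x i2) * 3 ^ (y l - y i3))) := by
          intro l
          have e1 : (2 : ℤ) ^ x l = 2 ^ x i2 * 2 ^ (x l - x i2) := by
            rw [← pow_add, Nat.add_sub_cancel' (h2' l)]
          have e2 : (3 : ℤ) ^ y l = 3 ^ y i3 * 3 ^ (y l - y i3) := by
            rw [← pow_add, Nat.add_sub_cancel' (h3' l)]
          rw [e1, e2]
          ring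
        simp only [h4] at hs
        rw [← Finset.mul_sum] at hs
        rcases mul_eq_zero.1 hs with h | h
        · exfalso
          have : (2 : ℤ) ^ x i2 * 3 ^ y i3 ≠ 0 := by positivity
          exact this h
        · exact h
      · intro i' hi' hN
        apply hbad i' hi'
        obtain ⟨a1, a2, a3, a4⟩ := hN
        have b1 := h2' i'
        have b2 := h2' i0
        have b3 := h3' i'
        have b4 := h3' i0
        simp only at a1 a2 a3 a4
        refine ⟨?_, ?_, ?_, ?_⟩ <;> omega
    choose x y p hsum hmax hx0 hy0 hbad using hnorm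
    obtain ⟨⟨i1, i2, i3, i0⟩, hp⟩ : ∃ q, ∃ᶠ t in atTop, p t = q := by
      by_contra hne
      push Not at hne
      have h1 : ∀ q, ∀ᶠ t in atTop, p t ≠ q := fun q => hne q
      obtain ⟨t, ht⟩ := (Filter.eventually_all.2 h1).exists
      exact ht (p t) rfl
    obtain ⟨φ, hφ, hφ2⟩ := Filter.extraction_of_frequently_atTop hp
    have hmax' : ∀ t l, (2 : ℤ) ^ x (φ t) l * 3 ^ y (φ t) l ≤
        2 ^ x (φ t) i1 * 3 ^ y (φ t) i1 := fun t l => by
      have := hmax (φ t) l
      rwa [hφ2 t] at this
    have hx0' : ∀ t, x (φ t) i2 = 0 := fun t => by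
      have := hx0 (φ t)
      rwa [hφ2 t] at this
    have hy0' : ∀ t, y (φ t) i3 = 0 := fun t => by
      have := hy0 (φ t)
      rwa [hφ2 t] at this
    have hbad' : ∀ t i', i' ≠ i0 → ¬ Nb (φ t) (x (φ t)) (y (φ t)) i0 i' := fun t i' hi' => by
      have := hbad (φ t) i'
      rw [hφ2 t] at this
      exact this hi'
    -- the contradiction from a relation with a zero coefficient
    have hK : ∀ (d : Fin (m + 1) → ℤ) (l0 : Fin (m + 1)), d l0 = 0 → d i0 ≠ 0 →
        ¬ ∃ᶠ t in atTop, ∑ l, d l * (2 ^ x (φ t) l * 3 ^ y (φ t) l) = 0 := by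
      intro d l0 hl0 hi0 hfr
      obtain ⟨B, hB⟩ := hdrop d l0 hl0
      obtain ⟨t, ht, htB⟩ := (hfr.and_eventually (Filter.eventually_ge_atTop B)).exists
      obtain ⟨i', hi', hN⟩ := hB _ _ ht i0 hi0
      refine hbad' t i' hi' ?_
      have h1 : B ≤ φ t := htB.trans (hφ.id_le t)
      obtain ⟨a1, a2, a3, a4⟩ := hN
      exact ⟨by omega, by omega, by omega, by omega⟩
    rcases Nat.eq_zero_or_pos m with hm | hm
    · -- a single term
      subst hm
      have h1 := hsum 0
      rw [Fin.sum_univ_one] at h1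
      have h2 : c 0 * ((2 : ℤ) ^ x 0 0 * 3 ^ y 0 0) ≠ 0 :=
        mul_ne_zero (hc 0) (by positivity)
      exact h2 h1
    -- logarithmic sizes
    set L2 : ℝ := Real.log 2 with hL2
    set L3 : ℝ := Real.log 3 with hL3
    have L2pos : 0 < L2 := Real.log_pos (by norm_num)
    have L3pos : 0 < L3 := Real.log_pos (by norm_num)
    have L23 : L2 ≤ L3 := Real.log_le_log (by norm_num) (by norm_num)
    set z : ℕ → Fin (m + 1) → ℤ := fun t l => 2 ^ x (φ t) l * 3 ^ y (φ t) l with hz
    have hzpos : ∀ t l, 0 < z t l := fun t l => by simp only [hz]; positivity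
    have hlogz : ∀ t l, Real.log (z t l : ℝ) = x (φ t) l * L2 + y (φ t) l * L3 := by
      intro t l
      simp only [hz]
      push_cast
      rw [Real.log_mul (by positivity) (by positivity), Real.log_pow, Real.log_pow]
    set NN : ℕ → ℝ := fun t => x (φ t) i1 * L2 + y (φ t) i1 * L3 with hNN
    have hle : ∀ t l, x (φ t) l * L2 + y (φ t) l * L3 ≤ NN t := by
      intro t l
      rw [← hlogz, hNN]
      simp only
      rw [← hlogz]
      refine Real.log_le_log (by exact_mod_cast hzpos t l) ?_
      have h9 : z t l ≤ z t i1 := hmax' t l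
      exact_mod_cast h9
    have hxle : ∀ t l, (x (φ t) l : ℝ) * L2 ≤ NN t := fun t l => by
      have := hle t l
      have h2 : 0 ≤ (y (φ t) l : ℝ) * L3 := by positivity
      linarith
    have hyle : ∀ t l, (y (φ t) l : ℝ) * L3 ≤ NN t := fun t l => by
      have := hle t l
      have h2 : 0 ≤ (x (φ t) l : ℝ) * L2 := by positivity
      linarith
    have hNlow : ∀ t : ℕ, (t : ℝ) * L2 ≤ NN t := by
      intro t
      obtain ⟨i', hi'⟩ : ∃ i' : Fin (m + 1), i' ≠ i0 := by
        have : Nontrivial (Fin (m + 1)) := Fin.nontrivial_iff_two_le.2 (by omega)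
        exact exists_ne i0
      have h1 := hbad' t i' hi'
      have h2 : t ≤ φ t := hφ.id_le t
      have h3 : t ≤ x (φ t) i0 ∨ t ≤ x (φ t) i' ∨ t ≤ y (φ t) i0 ∨ t ≤ y (φ t) i' := by
        by_contra hne
        push Not at hne
        obtain ⟨a1, a2, a3, a4⟩ := hne
        exact h1 ⟨by omega, by omega, by omega, by omega⟩
      rcases h3 with h3 | h3 | h3 | h3
      · refine le_trans ?_ (hxle t i0)
        exact mul_le_mul_of_nonneg_right (by exact_mod_cast h3) L2pos.le
      · refine le_trans ?_ (hxle t i')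
        exact mul_le_mul_of_nonneg_right (by exact_mod_cast h3) L2pos.le
      · refine le_trans ?_ (hyle t i0)
        exact mul_le_mul (by exact_mod_cast h3) L23 L2pos.le (by positivity)
      · refine le_trans ?_ (hyle t i')
        exact mul_le_mul (by exact_mod_cast h3) L23 L2pos.le (by positivity)
    have hNt : Tendsto NN atTop atTop := by
      refine tendsto_atTop_mono hNlow ?_
      exact tendsto_natCast_atTop_atTop.atTop_mul_const L2pos
    -- the places
    obtain ⟨M2, τ2, hd2, hv2, hs2⟩ := gad c hc i1 i2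
    obtain ⟨M3, τ3, hd3, hv3, hs3⟩ := gad c hc i1 i3
    have hPl : Places (1 : Matrix (Fin m) (Fin m) ℤ) ![M2, M3] ![2, 3] := by
      refine ⟨by simp, ?_, ?_, ?_⟩
      · intro v
        fin_cases v
        · exact hd2
        · exact hd3
      · intro v
        fin_cases v
        · show 2 ≤ 2
          exact le_rfl
        · show 2 ≤ 3
          norm_num
      · intro v v' hv
        fin_cases v <;> fin_cases v'
        · exact absurd rfl hv
        · show Nat.Coprime 2 3
          norm_num
        · show Nat.Coprime 3 2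
          norm_num
        · exact absurd rfl hv
    set e : ℕ → Fin 2 → Fin m → ℕ := fun t =>
      ![fun l => x (φ t) (τ2 l), fun l => y (φ t) (τ3 l)] with he
    set A : ℕ → Fin m → ℝ := fun t l => (z t (i1.succAbove l) : ℝ) with hA
    have hSize : ∀ t, Size (![2, 3] : Fin 2 → ℕ) 1 1 (NN t) (e t) (A t) := by
      intro t
      refine ⟨?_, ?_, ?_, ?_⟩
      · intro v l
        rw [one_mul]
        fin_cases v
        · show ((x (φ t) (τ2 l) : ℕ) : ℝ) * Real.log ((2 : ℕ) : ℝ) ≤ NN t
          push_cast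
          exact hxle t _
        · show ((y (φ t) (τ3 l) : ℕ) : ℝ) * Real.log ((3 : ℕ) : ℝ) ≤ NN t
          push_cast
          exact hyle t _
      · intro l
        simp only [hA]
        exact_mod_cast hzpos t _
      · intro l
        simp only [hA]
        rw [hlogz, one_mul, abs_of_nonneg (by positivity)]
        exact hle t _
      · rw [Fin.sum_univ_two]
        show ∑ l, Real.log (A t l) + 1 * NN t ≤
          ∑ l, ((x (φ t) (τ2 l) : ℕ) : ℝ) * Real.log ((2 : ℕ) : ℝ) +
          ∑ l, ((y (φ t) (τ3 l) : ℕ) : ℝ) * Real.log ((3 : ℕ) : ℝ)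
        push_cast
        rw [← hL2, ← hL3]
        have e1 := hs2 (fun l => (x (φ t) l : ℝ) * L2)
        have e2 := hs3 (fun l => (y (φ t) l : ℝ) * L3)
        rw [e1, e2]
        have e3 : ∑ l, Real.log (A t l) = ∑ l : Fin m, ((x (φ t) (i1.succAbove l) : ℝ) * L2 +
            (y (φ t) (i1.succAbove l) : ℝ) * L3) := by
          refine Finset.sum_congr rfl fun l _ => ?_
          simp only [hA]
          rw [hlogz]
        rw [e3, Fin.sum_univ_succAbove (fun l => (x (φ t) l : ℝ) * L2) i1,
          Fin.sum_univ_succAbove (fun l => (y (φ t) l : ℝ) * L3) i1, Finset.sum_add_distrib,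
          hx0', hy0']
        simp only [hNN]
        push_cast
        linarith
    set X : ℕ → Fin m → ℤ := fun t l => z t (i1.succAbove l) with hX
    have hX0 : ∀ t, X t ≠ 0 := by
      intro t h0
      have := congrFun h0 ⟨0, hm⟩
      simp only [hX, Pi.zero_apply] at this
      exact (hzpos t _).ne' this
    have hzs : ∀ t, ∑ l, c l * z t l = 0 := fun t => hsum (φ t)
    have hSol : ∀ t, Sol (1 : Matrix (Fin m) (Fin m) ℤ) ![M2, M3] ![2, 3] (e t) (A t) (X t) := by
      intro t
      refine ⟨fun l => ?_, fun v l => ?_⟩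
      · simp only [Matrix.one_apply, ite_mul, one_mul, zero_mul]
        rw [Finset.sum_ite_eq Finset.univ l]
        simp only [Finset.mem_univ, if_true, hA, hX]
        rw [abs_of_pos (by exact_mod_cast hzpos t _)]
      · fin_cases v
        · show ((2 : ℕ) : ℤ) ^ (x (φ t) (τ2 l)) ∣ ∑ j, M2 l j * X t j
          refine dvd_trans ?_ (hv2 (z t) (hzs t) l)
          exact dvd_mul_right _ _
        · show ((3 : ℕ) : ℤ) ^ (y (φ t) (τ3 l)) ∣ ∑ j, M3 l j * X t j
          refine dvd_trans ?_ (hv3 (z t) (hzs t) l)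
          exact dvd_mul_left _ _
    obtain ⟨w, hw, hfreq⟩ := subspace m 2 hm 1 ![M2, M3] ![2, 3] hPl 1 1 le_rfl one_pos NN hNt
      e A hSize X hX0 hSol
    -- the new relation
    set d : Fin (m + 1) → ℤ := i1.insertNth 0 w with hd
    have hd1 : d i1 = 0 := by simp [hd]
    have hds : ∀ j, d (i1.succAbove j) = w j := fun j => by simp [hd]
    have hdrel : ∀ t, ∑ l, w l * X t l = 0 → ∑ l, d l * z t l = 0 := by
      intro t ht
      rw [Fin.sum_univ_succAbove _ i1, hd1, zero_mul, zero_add]
      simp only [hds]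
      exact ht
    by_cases hdi0 : d i0 = 0
    · obtain ⟨j1, hj1⟩ : ∃ j1, w j1 ≠ 0 := by
        by_contra hne
        push Not at hne
        exact hw (funext hne)
      set l1 := i1.succAbove j1 with hl1
      have hdl1 : d l1 ≠ 0 := by rw [hl1, hds]; exact hj1
      refine hK (fun l => d l1 * c l - c l1 * d l) l1 (by ring) ?_ (hfreq.mono fun t ht => ?_)
      · show d l1 * c i0 - c l1 * d i0 ≠ 0
        rw [hdi0, mul_zero, sub_zero]
        exact mul_ne_zero hdl1 (hc _)
      · show ∑ l, (d l1 * c l - c l1 * d l) * z t l = 0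
        have e1 := hzs t
        have e2 := hdrel t ht
        have e3 : ∑ l, (d l1 * c l - c l1 * d l) * z t l =
            d l1 * ∑ l, c l * z t l - c l1 * ∑ l, d l * z t l := by
          rw [Finset.mul_sum, Finset.mul_sum, ← Finset.sum_sub_distrib]
          refine Finset.sum_congr rfl fun l _ => ?_
          ring
        rw [e3, e1, e2]
        ring
    · exact hK d i1 hd1 hdi0 (hfreq.mono fun t ht => hdrel t ht)

end Pool.Agent.N709
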