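import Mathlib
import Pool.Agent.N709.Sun

/-! Separated indices, and the absence of exact expansions. -/

set_option autoImplicit false
open Finset Filter Topology

namespace Pool.Agent.N709

lemma card_bad (G : Finset ℕ) (d : ℕ → ℤ) (hd : Set.InjOn d G) (D : ℤ) (M : ℕ) :
    (G.filter (fun x => |D + d x| ≤ (M : ℤ))).card ≤ 2 * M + 1 := by
  classical
  have h := Finset.card_le_card_of_injOn (s := G.filter (fun x => |D + d x| ≤ (M : ℤ)))
    (t := Finset.Icc (-(M : ℤ) - D) (M - D)) d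
    (by
      intro x hx
      have hx2 := (Finset.mem_filter.1 (Finset.mem_coe.1 hx)).2
      rw [abs_le] at hx2
      rw [Finset.mem_coe, Finset.mem_Icc]
      constructor <;> omega)
    (by
      intro x hx y hy hxy
      exact hd (Finset.mem_coe.2 (Finset.mem_filter.1 (Finset.mem_coe.1 hx)).1)
        (Finset.mem_coe.2 (Finset.mem_filter.1 (Finset.mem_coe.1 hy)).1) hxy)
  rw [Int.card_Icc] at h
  omega

/-- avoid finitely many small bad sets -/
lemma exists_avoid {β : Type} [Fintype β] [DecidableEq β] (G : Finset ℕ) (bad : β → Finset ℕ)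
    (n : ℕ) (hbad : ∀ b, (bad b).card ≤ n) (hG : Fintype.card β * n < G.card) :
    ∃ x ∈ G, ∀ b, x ∉ bad b := by
  classical
  by_contra hcon
  push Not at hcon
  have h1 : G ⊆ Finset.univ.biUnion bad := by
    intro x hx
    obtain ⟨b, hb⟩ := hcon x hx
    exact Finset.mem_biUnion.2 ⟨b, Finset.mem_univ _, hb⟩
  have h2 := Finset.card_le_card h1
  have h3 := Finset.card_biUnion_le_card_mul Finset.univ bad n (fun b _ => hbad b)
  rw [Finset.card_univ] at h3
  omega

/-- **selection of separated indices** -/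
theorem sel (r M : ℕ) : ∀ l : ℕ, ∃ A : ℕ, ∀ G : Finset ℕ, A ≤ G.card → ∀ U : Fin r → ℕ → ℤ,
    (∀ c c', c ≠ c' → Set.InjOn (fun n => U c n - U c' n) G) →
    ∃ g : Fin l → ℕ, (∀ k, g k ∈ G) ∧
      (∀ k k', k ≠ k' → (M : ℤ) < |(g k : ℤ) - g k'|) ∧
      ∀ a a' : Fin l → Fin r, a ≠ a' → (M : ℤ) < |∑ k, (U (a k) (g k) - U (a' k) (g k))| := by
  classical
  intro l
  induction l with
  | zero =>
    refine ⟨0, fun G _ U _ => ⟨fun k => k.elim0, fun k => k.elim0, fun k => k.elim0,
      fun a a' h => ?_⟩⟩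
    exact absurd (Subsingleton.elim a a') h
  | succ l ih =>
    obtain ⟨A, hA⟩ := ih
    refine ⟨max A (Fintype.card (Fin l ⊕ ((Fin (l + 1) → Fin r) × (Fin (l + 1) → Fin r))) *
      (2 * M + 1) + 1), fun G hG U hU => ?_⟩
    obtain ⟨g, hg, hsep, hT⟩ := hA G ((le_max_left _ _).trans hG) U hU
    set bad : (Fin l ⊕ ((Fin (l + 1) → Fin r) × (Fin (l + 1) → Fin r))) → Finset ℕ := fun b =>
      match b with
      | Sum.inl k => G.filter (fun x => |(-(g k : ℤ)) + (x : ℤ)| ≤ (M : ℤ))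
      | Sum.inr p => if p.1 (Fin.last l) = p.2 (Fin.last l) then ∅ else
          G.filter (fun x => |(∑ k : Fin l, (U (p.1 k.castSucc) (g k) - U (p.2 k.castSucc) (g k))) +
            (U (p.1 (Fin.last l)) x - U (p.2 (Fin.last l)) x)| ≤ (M : ℤ)) with hbad
    have hcard : ∀ b, (bad b).card ≤ 2 * M + 1 := by
      intro b
      rcases b with k | p
      · exact card_bad G (fun x => (x : ℤ)) (fun x _ y _ h => by
          simpa using h) _ M
      · simp only [hbad]
        split_ifs with h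
        · simp
        · exact card_bad G _ (hU _ _ h) _ M
    obtain ⟨x, hxG, hx⟩ := exists_avoid G bad (2 * M + 1) hcard
      (by have := (le_max_right _ _).trans hG; omega)
    refine ⟨Fin.snoc g x, ?_, ?_, ?_⟩
    · intro k
      refine Fin.lastCases ?_ (fun k => ?_) k
      · simpa using hxG
      · simpa using hg k
    · have hnew : ∀ k : Fin l, (M : ℤ) < |(x : ℤ) - g k| := by
        intro k
        have h1 := hx (Sum.inl k)
        simp only [hbad, Finset.mem_filter, not_and, not_le] at h1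
        have h2 := h1 hxG
        have h3 : -(g k : ℤ) + (x : ℤ) = (x : ℤ) - g k := by ring
        rwa [h3] at h2
      intro k k'
      refine Fin.lastCases ?_ (fun k => ?_) k
      · refine Fin.lastCases ?_ (fun k' => ?_) k'
        · intro h
          exact absurd rfl h
        · intro _
          simpa using hnew k'
      · refine Fin.lastCases ?_ (fun k' => ?_) k'
        · intro _
          have := hnew k
          rw [abs_sub_comm] at this
          simpa using this
        · intro h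
          have h' : k ≠ k' := by
            rintro rfl
            exact h rfl
          simpa using hsep k k' h'
    · intro a a' haa
      rw [Fin.sum_univ_castSucc]
      simp only [Fin.snoc_castSucc, Fin.snoc_last]
      by_cases hl : a (Fin.last l) = a' (Fin.last l)
      · rw [hl, sub_self, add_zero]
        refine hT (fun k => a k.castSucc) (fun k => a' k.castSucc) ?_
        intro h
        apply haa
        funext k
        refine Fin.lastCases hl (fun k => ?_) k
        exact congrFun h k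
      · have h1 := hx (Sum.inr (a, a'))
        simp only [hbad, if_neg hl, Finset.mem_filter, not_and, not_le] at h1
        exact h1 hxG

theorem sun' {ι : Type} [Fintype ι] (c : ι → ℤ) : ∃ B : ℕ, ∀ x y : ι → ℕ,
    ∑ l, c l * (2 ^ x l * 3 ^ y l) = 0 → ∀ i, c i ≠ 0 → ∃ i', i' ≠ i ∧
      (x i ≤ x i' + B ∧ x i' ≤ x i + B ∧ y i ≤ y i' + B ∧ y i' ≤ y i + B) := by
  classical
  set e := Fintype.equivFin ι with he
  obtain ⟨B, hB⟩ := sun (Fintype.card ι) (fun j => c (e.symm j))
  refine ⟨B, fun x y hs i hi => ?_⟩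
  obtain ⟨j', hj', hN⟩ := hB (fun j => x (e.symm j)) (fun j => y (e.symm j)) (by
    rw [← hs]
    exact Equiv.sum_comp e.symm (fun l => c l * (2 ^ x l * 3 ^ y l))) (e i) (by simpa using hi)
  refine ⟨e.symm j', ?_, ?_⟩
  · intro h
    apply hj'
    rw [← h]
    simp
  · unfold Nb at hN
    simpa using hN

/-- **no exact expansions** -/
theorem noexact (q : ℕ) : ∃ A : ℕ, ∀ G : Finset ℕ, A ≤ G.card → ∀ U : Fin q → ℕ → ℤ,
    (∀ c c', c ≠ c' → Set.InjOn (fun n => U c n - U c' n) G) → ∀ κ : Fin q → ℚ_[3],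
    ¬ ∀ n ∈ G, (2 : ℚ_[3]) ^ n = ∑ c, κ c * (3 : ℚ_[3]) ^ (U c n) := by
  classical
  rcases Nat.eq_zero_or_pos q with hq | hq
  · subst hq
    refine ⟨1, fun G hG U _ κ h => ?_⟩
    obtain ⟨n, hn⟩ := Finset.card_pos.1 (by omega : 0 < G.card)
    have h1 := h n hn
    simp at h1
  obtain ⟨B, hB⟩ := sun' (fun σ : Equiv.Perm (Fin (q + 1)) => ((Equiv.Perm.sign σ : ℤˣ) : ℤ))
  obtain ⟨A, hA⟩ := sel q B (q + 1)
  refine ⟨A, fun G hG U hU κ h => ?_⟩
  obtain ⟨g, hg, hsep, hT⟩ := hA G hG U hU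
  -- make the exponents nonnegative
  obtain ⟨m0, hm0⟩ : ∃ m0 : ℕ, ∀ c k, 0 ≤ U c (g k) + m0 := by
    refine ⟨∑ c, ∑ k, (U c (g k)).natAbs, fun c k => ?_⟩
    have h1 : (U c (g k)).natAbs ≤ ∑ k, (U c (g k)).natAbs :=
      Finset.single_le_sum (f := fun k => (U c (g k)).natAbs) (fun _ _ => Nat.zero_le _)
        (Finset.mem_univ k)
    have h2 : ∑ k, (U c (g k)).natAbs ≤ ∑ c, ∑ k, (U c (g k)).natAbs :=
      Finset.single_le_sum (f := fun c => ∑ k, (U c (g k)).natAbs) (fun _ _ => Nat.zero_le _)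
        (Finset.mem_univ c)
    omega
  set V : Fin q → Fin (q + 1) → ℕ := fun c k => (U c (g k) + m0).toNat with hV
  have hVU : ∀ c k, ((V c k : ℕ) : ℤ) = U c (g k) + m0 := fun c k => Int.toNat_of_nonneg (hm0 c k)
  obtain ⟨Mx, hM0, hMs⟩ : ∃ Mx : Matrix (Fin (q + 1)) (Fin (q + 1)) ℤ,
      (∀ k, Mx k 0 = 2 ^ g k) ∧ ∀ k (c : Fin q), Mx k c.succ = 3 ^ V c k :=
    ⟨Matrix.of (fun k => Fin.cons (2 ^ g k) (fun c => 3 ^ V c k)), fun k => by simp,
      fun k c => by simp⟩
  have hdet : Mx.det = 0 := by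
    have h1 : (Mx.map (Int.castRingHom ℚ_[3])).det = 0 := by
      rw [← Matrix.exists_mulVec_eq_zero_iff]
      refine ⟨Fin.cons (-1) (fun c => κ c * (3 : ℚ_[3]) ^ (-(m0 : ℤ))), ?_, ?_⟩
      · intro h0
        have := congrFun h0 0
        simp at this
      · funext k
        rw [Matrix.mulVec, dotProduct, Fin.sum_univ_succ]
        simp only [Matrix.map_apply, hM0, hMs, Fin.cons_zero, Fin.cons_succ, Pi.zero_apply,
          eq_intCast]
        push_cast
        rw [h (g k) (hg k), mul_neg, mul_one, neg_add_eq_zero]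
        refine Finset.sum_congr rfl fun c _ => ?_
        have h3 : ((3 : ℚ_[3])) ≠ 0 := by norm_num
        have h2 : (3 : ℚ_[3]) ^ (V c k) = (3 : ℚ_[3]) ^ (U c (g k) + m0) := by
          rw [← hVU, zpow_natCast]
        rw [h2, zpow_add₀ h3, zpow_neg]
        field_simp
    have h2 : ((Mx.det : ℤ) : ℚ_[3]) = 0 := by
      rw [← h1]
      exact RingHom.map_det (Int.castRingHom ℚ_[3]) Mx
    exact_mod_cast h2
  rw [Matrix.det_apply'] at hdet
  set x : Equiv.Perm (Fin (q + 1)) → ℕ := fun σ => g (σ 0) with hx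
  set y : Equiv.Perm (Fin (q + 1)) → ℕ := fun σ => ∑ c : Fin q, V c (σ c.succ) with hy
  have hterm : ∀ σ : Equiv.Perm (Fin (q + 1)), ((Equiv.Perm.sign σ : ℤˣ) : ℤ) *
      ∏ k, Mx (σ k) k = ((Equiv.Perm.sign σ : ℤˣ) : ℤ) * (2 ^ x σ * 3 ^ y σ) := by
    intro σ
    rw [Fin.prod_univ_succ]
    simp only [hM0, hMs, hx, hy]
    rw [Finset.prod_pow_eq_pow_sum]
  have hdet' : ∑ σ : Equiv.Perm (Fin (q + 1)), ((Equiv.Perm.sign σ : ℤˣ) : ℤ) *
      (2 ^ x σ * 3 ^ y σ) = 0 := by
    rw [← hdet]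
    refine Finset.sum_congr rfl fun σ _ => ?_
    rw [← hterm σ]
    simp
  obtain ⟨σ, hσ, h1, h2, h3, h4⟩ := hB x y hdet' 1 (by simp)
  have hσ0 : σ 0 = 0 := by
    by_contra hne
    have h5 := hsep _ _ hne
    simp only [hx, Equiv.Perm.coe_one, id_eq] at h1 h2
    rw [lt_abs] at h5
    omega
  -- the assignments
  set c0 : Fin q := ⟨0, hq⟩ with hc0
  set pr : Fin (q + 1) → Fin q := Fin.cons c0 id with hpr
  set a : Fin (q + 1) → Fin q := fun k => pr k with ha
  set a' : Fin (q + 1) → Fin q := fun k => pr (σ⁻¹ k) with ha'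
  have haa : a ≠ a' := by
    intro heq
    apply hσ
    ext k
    have h5 : σ⁻¹ k = k := by
      refine Fin.cases ?_ (fun c => ?_) k
      · rw [Equiv.Perm.inv_eq_iff_eq]
        exact hσ0.symm
      · have h6 := congrFun heq c.succ
        simp only [ha, ha', hpr, Fin.cons_succ, id_eq] at h6
        have h7 : σ⁻¹ c.succ ≠ 0 := by
          intro h8
          rw [Equiv.Perm.inv_eq_iff_eq, hσ0] at h8
          exact Fin.succ_ne_zero c h8
        obtain ⟨c', hc'⟩ := Fin.exists_succ_eq_of_ne_zero h7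
        rw [← hc'] at h6
        simp only [Fin.cons_succ, id_eq] at h6
        rw [← hc', ← h6]
    rw [Equiv.Perm.inv_eq_iff_eq] at h5
    rw [← h5]
    rfl
  have hS := hT a a' haa
  have e1 : ∑ k, (U (a k) (g k) - U (a' k) (g k)) = (y 1 : ℤ) - y σ := by
    have e2 : ∑ k, ((V (a k) k : ℕ) : ℤ) = V c0 0 + y 1 := by
      rw [Fin.sum_univ_succ]
      simp only [ha, hpr, Fin.cons_zero, Fin.cons_succ, id_eq, hy, Equiv.Perm.coe_one]
      push_cast
      rfl
    have hinv : ∀ j, σ⁻¹ (σ j) = j := fun j => by simp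
    have hinv0 : σ⁻¹ 0 = 0 := by
      rw [Equiv.Perm.inv_eq_iff_eq]
      exact hσ0.symm
    have e3 : ∑ k, ((V (a' k) k : ℕ) : ℤ) = V c0 0 + y σ := by
      rw [← Equiv.sum_comp σ (fun k => ((V (a' k) k : ℕ) : ℤ)), Fin.sum_univ_succ]
      simp only [ha', hpr, hinv, hinv0, Fin.cons_zero, Fin.cons_succ, id_eq, hy, hσ0]
      push_cast
      rfl
    have e4 : ∑ k, (U (a k) (g k) - U (a' k) (g k)) =
        ∑ k, ((V (a k) k : ℕ) : ℤ) - ∑ k, ((V (a' k) k : ℕ) : ℤ) := by
      rw [← Finset.sum_sub_distrib]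
      refine Finset.sum_congr rfl fun k _ => ?_
      rw [hVU, hVU]
      ring
    rw [e4, e2, e3]
    ring
  rw [e1, lt_abs] at hS
  omega

end Pool.Agent.N709
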