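import Mathlib
import Pool.Agent.N709.Claim
import Pool.Agent.N709.Sel

/-! Powers of two on a large set are sums of several powers of three with separated exponents. -/

set_option autoImplicit false
open Finset Filter Topology

namespace Pool.Agent.N709

lemma norm_two_pow (i : ℕ) : ‖(2 : ℚ_[3]) ^ i‖ = 1 := by
  have h : ‖((2 : ℕ) : ℚ_[3])‖ = 1 := Padic.norm_natCast_eq_one_iff.2 (by norm_num)
  rw [norm_pow]
  push_cast at h
  rw [h, one_pow]

lemma norm_three_zpow (a : ℤ) : ‖(3 : ℚ_[3]) ^ a‖ = (3 : ℝ) ^ (-a) := by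
  have := Padic.norm_p_zpow (p := 3) a
  push_cast at this
  exact this

lemma norm_eq_zpow {x : ℚ_[3]} (hx : x ≠ 0) : ‖x‖ = (3 : ℝ) ^ (-x.valuation) := by
  have := Padic.norm_eq_zpow_neg_valuation hx
  push_cast at this
  exact this

lemma zpow3_lt {a b : ℤ} : (3 : ℝ) ^ a < 3 ^ b ↔ a < b := zpow_lt_zpow_iff_right₀ (by norm_num)

lemma zpow3_le {a b : ℤ} : (3 : ℝ) ^ a ≤ 3 ^ b ↔ a ≤ b := zpow_le_zpow_iff_right₀ (by norm_num)

theorem stage (q : ℕ) : ∀ n : ℕ, ∃ A : ℕ, ∀ G : Finset ℕ, A ≤ G.card → ∃ H ⊆ G, n ≤ H.card ∧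
    ∃ U : ℕ → ℕ → ℤ, (∀ i, U 0 i = 0) ∧
      (∀ c ≤ q, ∀ c' ≤ q, c ≠ c' → StrictMonoOn (fun i => U c i - U c' i) (H : Set ℕ) ∨
        StrictAntiOn (fun i => U c i - U c' i) (H : Set ℕ)) ∧
      ∀ t ≤ q, ∃ κ : ℕ → ℚ_[3], ∀ i ∈ H,
        ‖(2 : ℚ_[3]) ^ i - ∑ c ∈ range t, κ c * (3 : ℚ_[3]) ^ (U c i)‖ = (3 : ℝ) ^ (-(U t i)) := by
  classical
  induction q with
  | zero =>
    intro n
    refine ⟨n, fun G hG => ⟨G, subset_rfl, hG, fun _ _ => 0, fun _ => rfl, ?_, ?_⟩⟩
    · intro c hc c' hc' h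
      omega
    · intro t ht
      obtain rfl : t = 0 := by omega
      refine ⟨fun _ => 0, fun i _ => ?_⟩
      have := norm_two_pow i
      simpa using this
  | succ q ih =>
    intro n
    obtain ⟨A1, hA1⟩ := noexact (q + 1)
    obtain ⟨A2, hA2⟩ := claim q (max n A1)
    obtain ⟨A3, hA3⟩ := ih (max A2 2)
    refine ⟨A3, fun G hG => ?_⟩
    obtain ⟨H1, hH1G, hH1c, U, hU0, hUd, hUκ⟩ := hA3 G hG
    have hc2 : 2 ≤ H1.card := (le_max_right _ _).trans hH1c
    obtain ⟨i0, hi0, j0, hj0, hij0⟩ : ∃ i0 ∈ H1, ∃ j0 ∈ H1, i0 < j0 := by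
      obtain ⟨a, ha, b, hb, hab⟩ := Finset.one_lt_card.1 (by omega : 1 < H1.card)
      rcases lt_or_gt_of_ne hab with h | h
      · exact ⟨a, ha, b, hb, h⟩
      · exact ⟨b, hb, a, ha, h⟩
    set key : Fin (q + 1) → ℤ := fun c => -(U c j0 - U c i0) with hkey
    set σ := Tuple.sort key with hσ
    have hσm : Monotone (key ∘ σ) := Tuple.monotone_sort key
    set f : Fin (q + 1) → ℕ → ℚ_[3] := fun c i => (3 : ℚ_[3]) ^ (U (σ c) i) with hf
    have hfn : ∀ c i, ‖f c i‖ = (3 : ℝ) ^ (-(U (σ c) i)) := fun c i => norm_three_zpow _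
    have h3 : (3 : ℚ_[3]) ≠ 0 := by norm_num
    have hinj : ∀ c c' : Fin (q + 1), c ≠ c' → ((σ c : Fin (q + 1)) : ℕ) ≠ (σ c' : Fin (q + 1)) := by
      intro c c' h h2
      exact h (σ.injective (Fin.ext h2))
    have hle : ∀ c : Fin (q + 1), (c : ℕ) ≤ q := fun c => by have := c.2; omega
    have hgood : Good H1 f := by
      refine ⟨fun c i _ => zpow_ne_zero _ h3, fun c c' hcc i hi j hj hij => ?_⟩
      have hmono : StrictMonoOn (fun i => U (σ c) i - U (σ c') i) (H1 : Set ℕ) := by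
        rcases hUd (σ c) (hle _) (σ c') (hle _) (hinj c c' hcc.ne) with h | h
        · exact h
        · exfalso
          have h1 := h (Finset.mem_coe.2 hi0) (Finset.mem_coe.2 hj0) hij0
          have h2 := hσm hcc.le
          simp only [Function.comp_apply, hkey] at h1 h2
          omega
      have h1 := hmono (Finset.mem_coe.2 hi) (Finset.mem_coe.2 hj) hij
      simp only at h1
      rw [hfn, hfn, hfn, hfn, ← zpow_add₀ (by norm_num), ← zpow_add₀ (by norm_num), zpow3_lt]
      omega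
    obtain ⟨H2, hH2, hH2c, κ, hκ⟩ := hA2 H1 ((le_max_left _ _).trans hH1c) f
      (fun i => (2 : ℚ_[3]) ^ i) hgood
    have hUd2 : ∀ c ≤ q, ∀ c' ≤ q, c ≠ c' → StrictMonoOn (fun i => U c i - U c' i) (H2 : Set ℕ) ∨
        StrictAntiOn (fun i => U c i - U c' i) (H2 : Set ℕ) := by
      intro c hc c' hc' h
      rcases hUd c hc c' hc' h with h | h
      · exact Or.inl (h.mono (by exact_mod_cast hH2))
      · exact Or.inr (h.mono (by exact_mod_cast hH2))
    rcases hκ with hκ | ⟨hne, hκ⟩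
    · exfalso
      refine hA1 H2 ((le_max_right _ _).trans hH2c) (fun c i => U (σ c) i) ?_ κ hκ
      intro c c' hcc
      rcases hUd2 (σ c) (hle _) (σ c') (hle _) (hinj c c' hcc) with h | h
      · exact h.injOn
      · exact h.injOn
    set ρ : ℕ → ℚ_[3] := fun i => (2 : ℚ_[3]) ^ i - ∑ c, κ c * f c i with hρ
    set U' : ℕ → ℕ → ℤ := fun c i => if c = q + 1 then (ρ i).valuation else U c i with hU'
    have hU'1 : ∀ c ≤ q, U' c = U c := by
      intro c hc
      funext i
      simp only [hU']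
      rw [if_neg (by omega)]
    have hU'2 : ∀ i, U' (q + 1) i = (ρ i).valuation := fun i => by simp [hU']
    have hρn : ∀ i ∈ H2, ‖ρ i‖ = (3 : ℝ) ^ (-(ρ i).valuation) := fun i hi => norm_eq_zpow (hne i hi)
    have hnew : ∀ c ≤ q, StrictMonoOn (fun i => (ρ i).valuation - U c i) (H2 : Set ℕ) ∨
        StrictAntiOn (fun i => (ρ i).valuation - U c i) (H2 : Set ℕ) := by
      intro c hc
      set d := σ.symm ⟨c, by omega⟩ with hd
      have hσd : ((σ d : Fin (q + 1)) : ℕ) = c := by rw [hd, Equiv.apply_symm_apply]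
      rcases hκ d with h | h
      · left
        intro x hx x' hx' hxx
        rw [Finset.mem_coe] at hx hx'
        have h1 := h x hx x' hx' hxx
        have e1 : ‖(2 : ℚ_[3]) ^ x - ∑ c, κ c * f c x‖ = (3 : ℝ) ^ (-(ρ x).valuation) := hρn x hx
        have e2 : ‖(2 : ℚ_[3]) ^ x' - ∑ c, κ c * f c x'‖ = (3 : ℝ) ^ (-(ρ x').valuation) :=
          hρn x' hx'
        rw [e1, e2, hfn, hfn, ← zpow_add₀ (by norm_num), ← zpow_add₀ (by norm_num), zpow3_lt,
          hσd] at h1
        simp only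
        omega
      · right
        intro x hx x' hx' hxx
        rw [Finset.mem_coe] at hx hx'
        have h1 := h x hx x' hx' hxx
        have e1 : ‖(2 : ℚ_[3]) ^ x - ∑ c, κ c * f c x‖ = (3 : ℝ) ^ (-(ρ x).valuation) := hρn x hx
        have e2 : ‖(2 : ℚ_[3]) ^ x' - ∑ c, κ c * f c x'‖ = (3 : ℝ) ^ (-(ρ x').valuation) :=
          hρn x' hx'
        rw [e1, e2, hfn, hfn, ← zpow_add₀ (by norm_num), ← zpow_add₀ (by norm_num), zpow3_lt,
          hσd] at h1
        simp only
        omega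
    refine ⟨H2, hH2.trans hH1G, (le_max_left _ _).trans hH2c, U', ?_, ?_, ?_⟩
    · intro i
      rw [hU'1 0 (by omega), hU0]
    · intro c hc c' hc' hcc
      by_cases h1 : c = q + 1
      · have h2 : c' ≤ q := by omega
        rw [h1]
        simp only [hU'2, hU'1 c' h2]
        exact hnew c' h2
      · have h3 : c ≤ q := by omega
        by_cases h2 : c' = q + 1
        · rw [h2]
          simp only [hU'2, hU'1 c h3]
          rcases hnew c h3 with h | h
          · right
            intro x hx x' hx' hxx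
            have := h hx hx' hxx
            simp only at this ⊢
            omega
          · left
            intro x hx x' hx' hxx
            have := h hx hx' hxx
            simp only at this ⊢
            omega
        · have h4 : c' ≤ q := by omega
          simp only [hU'1 c h3, hU'1 c' h4]
          exact hUd2 c h3 c' h4 hcc
    · intro t ht
      by_cases h1 : t = q + 1
      · refine ⟨fun c => if h : c < q + 1 then κ (σ.symm ⟨c, h⟩) else 0, fun i hi => ?_⟩
        rw [h1, hU'2, ← hρn i hi]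
        congr 2
        rw [Finset.sum_range (fun c => (if h : c < q + 1 then κ (σ.symm ⟨c, h⟩) else 0) *
          (3 : ℚ_[3]) ^ (U' c i))]
        rw [← Equiv.sum_comp σ]
        refine Finset.sum_congr rfl fun c _ => ?_
        rw [dif_pos (σ c).2, hU'1 _ (hle _)]
        simp [hf]
      · have h2 : t ≤ q := by omega
        obtain ⟨κ', hκ'⟩ := hUκ t h2
        refine ⟨κ', fun i hi => ?_⟩
        rw [hU'1 t h2, ← hκ' i (hH2 hi)]
        congr 2
        refine Finset.sum_congr rfl fun c hc => ?_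
        rw [hU'1 c (by have := Finset.mem_range.1 hc; omega)]

/-! ### general position -/

/-- terms of distinct norms do not cancel -/
lemma sum_norm {ι : Type} [DecidableEq ι] (B : Finset ι) (z : ι → ℚ_[3])
    (h : ∀ b ∈ B, ∀ b' ∈ B, b ≠ b' → z b ≠ 0 → z b' ≠ 0 → ‖z b‖ ≠ ‖z b'‖) :
    (∀ b ∈ B, ‖z b‖ ≤ ‖∑ b ∈ B, z b‖) ∧
      (∑ b ∈ B, z b = 0 ∨ ∃ b ∈ B, z b ≠ 0 ∧ ‖∑ b ∈ B, z b‖ = ‖z b‖) := by
  induction B using Finset.induction_on with
  | empty => simp
  | insert a B ha ih =>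
    obtain ⟨h1, h2⟩ := ih (fun b hb b' hb' => h b (Finset.mem_insert_of_mem hb) b'
      (Finset.mem_insert_of_mem hb'))
    rw [Finset.sum_insert ha]
    by_cases hz : z a = 0
    · rw [hz, zero_add]
      refine ⟨?_, ?_⟩
      · intro b hb
        rcases Finset.mem_insert.1 hb with rfl | hb
        · rw [hz, norm_zero]
          exact norm_nonneg _
        · exact h1 b hb
      · rcases h2 with h2 | ⟨b, hb, h3, h4⟩
        · exact Or.inl h2
        · exact Or.inr ⟨b, Finset.mem_insert_of_mem hb, h3, h4⟩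
    · rcases h2 with h2 | ⟨b, hb, h3, h4⟩
      · rw [h2, add_zero]
        rw [h2, norm_zero] at h1
        refine ⟨?_, Or.inr ⟨a, Finset.mem_insert_self _ _, hz, rfl⟩⟩
        intro b hb
        rcases Finset.mem_insert.1 hb with rfl | hb
        · exact le_rfl
        · exact (h1 b hb).trans (norm_nonneg _)
      · have hab : a ≠ b := fun h5 => ha (h5 ▸ hb)
        have hne : ‖z a‖ ≠ ‖∑ b ∈ B, z b‖ := by
          rw [h4]
          exact h a (Finset.mem_insert_self _ _) b (Finset.mem_insert_of_mem hb) hab hz h3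
        have h5 := IsUltrametricDist.norm_add_eq_max_of_norm_ne_norm hne
        rw [h5]
        refine ⟨?_, ?_⟩
        · intro b' hb'
          rcases Finset.mem_insert.1 hb' with rfl | hb'
          · exact le_max_left _ _
          · exact (h1 b' hb').trans (le_max_right _ _)
        · right
          rcases le_total ‖z a‖ ‖∑ b ∈ B, z b‖ with h6 | h6
          · rw [max_eq_right h6]
            exact ⟨b, Finset.mem_insert_of_mem hb, h3, h4⟩
          · rw [max_eq_left h6]
            exact ⟨a, Finset.mem_insert_self _ _, hz, rfl⟩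

/-- one step of the comparison of consecutive approximations -/
lemma step_cmp (t : ℕ) (U : ℕ → ℤ) (Δ : ℕ → ℚ_[3]) (K r r' : ℚ_[3])
    (hid : r = K * (3 : ℚ_[3]) ^ (U t) + (r' + ∑ c ∈ range t, Δ c * (3 : ℚ_[3]) ^ (U c)))
    (hr : ‖r‖ = (3 : ℝ) ^ (-(U t))) (hr' : ‖r'‖ = (3 : ℝ) ^ (-(U (t + 1))))
    (lam : ℕ → ℤ) (hlam : ∀ c < t, lam c = (Δ c).valuation)
    (hlamt : lam t = min 0 K.valuation) (hlamt1 : lam (t + 1) = 0)
    (hgen : ∀ c ≤ t + 1, ∀ c' ≤ t + 1, c ≠ c' → lam c + U c ≠ lam c' + U c') :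
    ‖K‖ = 1 ∧ U t < U (t + 1) ∧ ∀ c < t, ‖Δ c‖ * (3 : ℝ) ^ (-(U c)) < (3 : ℝ) ^ (-(U t)) := by
  classical
  have h3 : (3 : ℚ_[3]) ≠ 0 := by norm_num
  set z : ℕ → ℚ_[3] := fun b => if b = t + 1 then r' else Δ b * (3 : ℚ_[3]) ^ (U b) with hz
  set B : Finset ℕ := insert (t + 1) (range t) with hB
  have hzB : ∀ b ∈ B, z b ≠ 0 → ‖z b‖ = (3 : ℝ) ^ (-(lam b + U b)) := by
    intro b hb hb0
    by_cases h1 : b = t + 1
    · rw [h1]
      simp only [hz, if_true]
      rw [hr', hlamt1, zero_add]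
    · have h2 : b < t := by
        rcases Finset.mem_insert.1 hb with h | h
        · exact absurd h h1
        · exact Finset.mem_range.1 h
      simp only [hz, if_neg h1] at hb0 ⊢
      have hΔ : Δ b ≠ 0 := left_ne_zero_of_mul hb0
      rw [norm_mul, norm_eq_zpow hΔ, norm_three_zpow, ← zpow_add₀ (by norm_num), hlam b h2]
      congr 1
      ring
  have hBle : ∀ b ∈ B, b ≤ t + 1 ∧ b ≠ t := by
    intro b hb
    rcases Finset.mem_insert.1 hb with h | h
    · omega
    · have := Finset.mem_range.1 h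
      omega
  have hsum : ∑ b ∈ B, z b = r' + ∑ c ∈ range t, Δ c * (3 : ℚ_[3]) ^ (U c) := by
    rw [hB, Finset.sum_insert (by simp)]
    congr 1
    · simp [hz]
    · refine Finset.sum_congr rfl fun c hc => ?_
      have := Finset.mem_range.1 hc
      simp only [hz]
      rw [if_neg (by omega)]
  obtain ⟨hs1, hs2⟩ := sum_norm B z (by
    intro b hb b' hb' hbb h1 h2
    rw [hzB b hb h1, hzB b' hb' h2]
    intro h4
    have h5 := zpow_right_injective₀ (by norm_num : (0 : ℝ) < 3) (by norm_num : (3 : ℝ) ≠ 1) h4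
    have h6 := hgen b (hBle b hb).1 b' (hBle b' hb').1 hbb
    omega)
  have hrS : r - K * (3 : ℚ_[3]) ^ (U t) = ∑ b ∈ B, z b := by
    rw [hsum, hid]
    ring
  have hKn : ‖K * (3 : ℚ_[3]) ^ (U t)‖ = ‖K‖ * (3 : ℝ) ^ (-(U t)) := by
    rw [norm_mul, norm_three_zpow]
  have hpos : (0 : ℝ) < (3 : ℝ) ^ (-(U t)) := by positivity
  have hK1 : ‖K‖ = 1 := by
    by_contra hK1
    have h4 : ‖r‖ ≠ ‖-(K * (3 : ℚ_[3]) ^ (U t))‖ := by
      rw [norm_neg, hKn, hr]
      intro h5
      apply hK1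
      have h6 : (‖K‖ - 1) * (3 : ℝ) ^ (-(U t)) = 0 := by rw [sub_mul, one_mul, ← h5, sub_self]
      rcases mul_eq_zero.1 h6 with h7 | h7
      · linarith
      · exact absurd h7 hpos.ne'
    have h5 := IsUltrametricDist.norm_add_eq_max_of_norm_ne_norm h4
    rw [← sub_eq_add_neg, hrS, norm_neg, hKn, hr] at h5
    have h6 : max ((3 : ℝ) ^ (-(U t))) (‖K‖ * (3 : ℝ) ^ (-(U t))) =
        (3 : ℝ) ^ (-(lam t + U t)) := by
      rw [hlamt]
      by_cases hK0 : K = 0
      · rw [hK0, norm_zero, zero_mul, max_eq_left hpos.le, Padic.valuation_zero, min_self,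
          zero_add]
      · rw [norm_eq_zpow hK0, ← zpow_add₀ (by norm_num)]
        rcases le_total 0 K.valuation with h7 | h7
        · rw [min_eq_left h7, max_eq_left (zpow3_le.2 (by omega)), zero_add]
        · rw [min_eq_right h7, max_eq_right (zpow3_le.2 (by omega))]
          congr 1
          ring
    rw [h6] at h5
    rcases hs2 with h7 | ⟨b, hb, hb0, hb1⟩
    · rw [h7, norm_zero] at h5
      have : (0 : ℝ) < (3 : ℝ) ^ (-(lam t + U t)) := by positivity
      linarith
    · rw [hb1, hzB b hb hb0] at h5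
      have h8 := zpow_right_injective₀ (by norm_num : (0 : ℝ) < 3) (by norm_num : (3 : ℝ) ≠ 1) h5
      have h9 := hgen b (hBle b hb).1 t (by omega) (hBle b hb).2
      omega
  have hlt0 : lam t = 0 := by
    rw [hlamt]
    have hK0 : K ≠ 0 := by
      intro h
      rw [h, norm_zero] at hK1
      exact zero_ne_one hK1
    have h4 := norm_eq_zpow hK0
    rw [hK1] at h4
    have h5 : K.valuation = 0 := by
      have h6 : (3 : ℝ) ^ (0 : ℤ) = (3 : ℝ) ^ (-K.valuation) := by rw [zpow_zero]; exact h4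
      have h8 := zpow_right_injective₀ (by norm_num : (0 : ℝ) < 3) (by norm_num : (3 : ℝ) ≠ 1) h6
      omega
    rw [h5]
    simp
  have hle : ‖∑ b ∈ B, z b‖ ≤ (3 : ℝ) ^ (-(U t)) := by
    rw [← hrS, sub_eq_add_neg]
    refine (IsUltrametricDist.norm_add_le_max _ _).trans ?_
    rw [norm_neg, hKn, hr, hK1, one_mul, max_self]
  have hlt : ∀ b ∈ B, ‖z b‖ < (3 : ℝ) ^ (-(U t)) := by
    intro b hb
    by_cases hb0 : z b = 0
    · rw [hb0, norm_zero]
      exact hpos
    · refine lt_of_le_of_ne ((hs1 b hb).trans hle) ?_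
      rw [hzB b hb hb0]
      intro h5
      have h8 := zpow_right_injective₀ (by norm_num : (0 : ℝ) < 3) (by norm_num : (3 : ℝ) ≠ 1) h5
      have h9 := hgen b (hBle b hb).1 t (by omega) (hBle b hb).2
      omega
  refine ⟨hK1, ?_, ?_⟩
  · have h4 := hlt (t + 1) (Finset.mem_insert_self _ _)
    simp only [hz, if_true] at h4
    rw [hr', zpow3_lt] at h4
    omega
  · intro c hc
    have h4 := hlt c (Finset.mem_insert_of_mem (Finset.mem_range.2 hc))
    simp only [hz] at h4
    rw [if_neg (by omega), norm_mul, norm_three_zpow] at h4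
    exact h4

end Pool.Agent.N709
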