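import Mathlib
import Pool.Agent.N709.Stage

/-! The combinatorial theorem on powers of two. -/

set_option autoImplicit false
open Finset Filter Topology

namespace Pool.Agent.N709

theorem comb (R l : ℕ) : ∃ A : ℕ, ∀ G : Finset ℕ, A ≤ G.card →
    ∃ (g : Fin l → ℕ) (U : Fin (R + 1) → Fin l → ℕ) (K : Fin R → ℕ) (M : Fin l → ℤ),
      (∀ k, g k ∈ G) ∧ (∀ k, U 0 k = 0) ∧ (∀ k, StrictMono (fun c => U c k)) ∧
      (∀ a a' : Fin l → Fin (R + 1), ∑ k, U (a k) k = ∑ k, U (a' k) k → a = a') ∧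
      (∀ c, ¬ 3 ∣ K c) ∧
      ∀ k, (2 : ℤ) ^ (g k) = ∑ c : Fin R, (K c : ℤ) * 3 ^ (U c.castSucc k) +
        3 ^ (U (Fin.last R) k) * M k := by
  classical
  obtain ⟨A1, hA1⟩ := sel (R + 1) 0 l
  obtain ⟨A2, hA2⟩ := stage R (A1 + 1 + Fintype.card (Fin R × Fin (R + 1) × Fin (R + 1)))
  refine ⟨A2, fun G hG => ?_⟩
  obtain ⟨H, hHG, hHc, U, hU0, hUd, hUκ⟩ := hA2 G hG
  choose! κt hκt using hUκ
  set Δ : ℕ → ℕ → ℚ_[3] := fun t c => κt (t + 1) c - κt t c with hΔ
  set K : ℕ → ℚ_[3] := fun t => κt (t + 1) t with hK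
  set lam : ℕ → ℕ → ℤ := fun t c => if c < t then (Δ t c).valuation else
    if c = t then min 0 (K t).valuation else 0 with hlam
  have hUinj : ∀ c ≤ R, ∀ c' ≤ R, c ≠ c' → Set.InjOn (fun i => U c i - U c' i) (H : Set ℕ) := by
    intro c hc c' hc' h
    rcases hUd c hc c' hc' h with h1 | h1
    · exact h1.injOn
    · exact h1.injOn
  set bad : (Fin R × Fin (R + 1) × Fin (R + 1)) → Finset ℕ := fun b =>
    if b.2.1 = b.2.2 then ∅ else H.filter (fun x => lam b.1 b.2.1 + U b.2.1 x =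
      lam b.1 b.2.2 + U b.2.2 x) with hbad
  have hbadc : ∀ b, (bad b).card ≤ 1 := by
    intro b
    simp only [hbad]
    split_ifs with h
    · simp
    · rw [Finset.card_le_one]
      intro x hx y hy
      obtain ⟨h1, h2⟩ := Finset.mem_filter.1 hx
      obtain ⟨h3, h4⟩ := Finset.mem_filter.1 hy
      refine hUinj b.2.1 (by have := b.2.1.2; omega) b.2.2 (by have := b.2.2.2; omega)
        (fun h5 => h (Fin.ext h5)) (Finset.mem_coe.2 h1) (Finset.mem_coe.2 h3) ?_
      simp only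
      omega
  set G' := H \ Finset.univ.biUnion bad with hG'
  have hG'c : A1 + 1 ≤ G'.card := by
    have h1 := Finset.card_biUnion_le_card_mul Finset.univ bad 1 (fun b _ => hbadc b)
    rw [Finset.card_univ, mul_one] at h1
    have h2 := Finset.le_card_sdiff (Finset.univ.biUnion bad) H
    rw [← hG'] at h2
    omega
  have hG'H : G' ⊆ H := Finset.sdiff_subset
  have hgen : ∀ x ∈ G', ∀ t < R, ∀ c ≤ t + 1, ∀ c' ≤ t + 1, c ≠ c' →
      lam t c + U c x ≠ lam t c' + U c' x := by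
    intro x hx t ht c hc c' hc' hcc heq
    obtain ⟨h1, h2⟩ := Finset.mem_sdiff.1 hx
    apply h2
    refine Finset.mem_biUnion.2 ⟨(⟨t, ht⟩, ⟨c, by omega⟩, ⟨c', by omega⟩), Finset.mem_univ _, ?_⟩
    simp only [hbad]
    rw [if_neg (fun h => hcc (by simpa using h))]
    exact Finset.mem_filter.2 ⟨h1, heq⟩
  have hstep : ∀ x ∈ G', ∀ t < R, ‖K t‖ = 1 ∧ U t x < U (t + 1) x ∧
      ∀ c < t, ‖Δ t c‖ * (3 : ℝ) ^ (-(U c x)) < (3 : ℝ) ^ (-(U t x)) := by
    intro x hx t ht
    refine step_cmp t (fun c => U c x) (Δ t) (K t) _ _ ?_ (hκt t (by omega) x (hG'H hx))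
      (hκt (t + 1) (by omega) x (hG'H hx)) (lam t) ?_ ?_ ?_ (hgen x hx t ht)
    · simp only [hΔ, hK, sub_mul, Finset.sum_sub_distrib, Finset.sum_range_succ]
      ring
    · intro c hc
      simp only [hlam, if_pos hc]
    · simp [hlam]
    · simp only [hlam]
      rw [if_neg (by omega), if_neg (by omega)]
  obtain ⟨x0, hx0⟩ : G'.Nonempty := Finset.card_pos.1 (by omega)
  have hUlt : ∀ x ∈ G', ∀ c' ≤ R, ∀ c < c', U c x < U c' x := by
    intro x hx c'
    induction c' with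
    | zero => intro _ c hc; omega
    | succ c' ih =>
      intro hc' c hc
      have h1 := (hstep x hx c' (by omega)).2.1
      rcases (Nat.lt_succ_iff.1 hc).eq_or_lt with h2 | h2
      · rw [h2]; exact h1
      · exact (ih (by omega) c h2).trans h1
  have hU0' : ∀ x ∈ G', ∀ c ≤ R, 0 ≤ U c x := by
    intro x hx c hc
    rcases Nat.eq_zero_or_pos c with h | h
    · rw [h, hU0]
    · have := hUlt x hx c hc 0 h
      rw [hU0] at this
      exact this.le
  have hκn : ∀ t ≤ R, ∀ c < t, ‖κt t c‖ = 1 := by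
    intro t
    induction t with
    | zero => intro _ c hc; omega
    | succ t ih =>
      intro ht c hc
      have h1 := hstep x0 hx0 t (by omega)
      rcases (Nat.lt_succ_iff.1 hc).eq_or_lt with h2 | h2
      · rw [h2]; exact h1.1
      · have h3 := h1.2.2 c h2
        have h4 := hUlt x0 hx0 t (by omega) c h2
        have h5 : (3 : ℝ) ^ (-(U t x0)) < (3 : ℝ) ^ (-(U c x0)) := zpow3_lt.2 (by omega)
        have h6 : ‖Δ t c‖ < 1 := by
          by_contra h7
          push Not at h7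
          have h8 : (0 : ℝ) < (3 : ℝ) ^ (-(U c x0)) := by positivity
          nlinarith
        have h7 := ih (by omega) c h2
        have h8 : κt (t + 1) c = κt t c - (-(Δ t c)) := by simp [hΔ]
        rw [h8, norm_sub_of_lt, h7]
        rw [norm_neg, h7]
        exact h6
  -- selection
  obtain ⟨g, hg, _, hT⟩ := hA1 G' (by omega) (fun c => U c) (by
    intro c c' hcc
    refine (hUinj c (by have := c.2; omega) c' (by have := c'.2; omega)
      (fun h => hcc (Fin.ext h))).mono ?_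
    exact_mod_cast hG'H)
  set V : Fin (R + 1) → Fin l → ℕ := fun c k => (U c (g k)).toNat with hV
  have hVU : ∀ c k, ((V c k : ℕ) : ℤ) = U c (g k) := fun c k =>
    Int.toNat_of_nonneg (hU0' _ (hg k) c (by have := c.2; omega))
  set Z : ℕ := ∑ k, V (Fin.last R) k + 1 with hZ
  have hVZ : ∀ k, V (Fin.last R) k ≤ Z := fun k => by
    have : V (Fin.last R) k ≤ ∑ k, V (Fin.last R) k :=
      Finset.single_le_sum (f := fun k => V (Fin.last R) k) (fun _ _ => Nat.zero_le _)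
        (Finset.mem_univ k)
    omega
  have hz : ∀ c : Fin R, ∃ z : ℤ_[3], (z : ℚ_[3]) = κt R c := fun c =>
    ⟨⟨κt R c, (hκn R le_rfl c c.2).le⟩, rfl⟩
  choose z hz using hz
  set Kn : Fin R → ℕ := fun c => (z c).appr Z with hKn
  have happ : ∀ c : Fin R, ‖κt R c - ((Kn c : ℕ) : ℚ_[3])‖ ≤ (3 : ℝ) ^ (-(Z : ℤ)) := by
    intro c
    have h1 := (PadicInt.norm_le_pow_iff_mem_span_pow (z c - ((z c).appr Z : ℤ_[3])) Z).2
      (PadicInt.appr_spec Z (z c))
    rw [PadicInt.norm_def] at h1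
    push_cast at h1
    rw [hz] at h1
    exact h1
  have h3le : ∀ a : ℕ, (3 : ℝ) ^ (-(a : ℤ)) ≤ 1 := fun a => by
    have h1 : (3 : ℝ) ^ (-(a : ℤ)) ≤ (3 : ℝ) ^ (0 : ℤ) := zpow3_le.2 (by omega)
    rwa [zpow_zero] at h1
  refine ⟨g, V, Kn, ?_⟩
  have hdvd : ∀ k, ∃ M : ℤ, (2 : ℤ) ^ (g k) = ∑ c : Fin R, (Kn c : ℤ) * 3 ^ (V c.castSucc k) +
        3 ^ (V (Fin.last R) k) * M := by
    intro k
    have h1 : ((3 : ℕ) : ℤ) ^ (V (Fin.last R) k) ∣
        (2 : ℤ) ^ (g k) - ∑ c : Fin R, (Kn c : ℤ) * 3 ^ (V c.castSucc k) := by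
      rw [← Padic.norm_int_le_pow_iff_dvd]
      push_cast
      have h2 := hκt R le_rfl (g k) (hG'H (hg k))
      rw [Finset.sum_range] at h2
      have h4 : (2 : ℚ_[3]) ^ (g k) - ∑ c : Fin R, (Kn c : ℚ_[3]) * 3 ^ (V c.castSucc k) =
          ((2 : ℚ_[3]) ^ (g k) - ∑ c : Fin R, κt R c * (3 : ℚ_[3]) ^ (U c (g k))) +
          ∑ c : Fin R, (κt R c - (Kn c : ℚ_[3])) * 3 ^ (V c.castSucc k) := by
        have h5 : ∀ c : Fin R, (3 : ℚ_[3]) ^ (U c (g k)) = 3 ^ (V c.castSucc k) := by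
          intro c
          have h6 := hVU c.castSucc k
          simp only [Fin.val_castSucc] at h6
          rw [← h6, zpow_natCast]
        simp only [h5, sub_mul, Finset.sum_sub_distrib]
        ring
      rw [h4]
      refine (IsUltrametricDist.norm_add_le_max _ _).trans (max_le ?_ ?_)
      · rw [h2]
        have h6 := hVU (Fin.last R) k
        simp only [Fin.val_last] at h6
        rw [h6]
      · refine IsUltrametricDist.norm_sum_le_of_forall_le_of_nonneg (by positivity) fun c _ => ?_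
        rw [norm_mul]
        have h5 : ‖(3 : ℚ_[3]) ^ (V c.castSucc k)‖ ≤ 1 := by
          have h6 := norm_three_zpow (V c.castSucc k : ℤ)
          rw [zpow_natCast] at h6
          rw [h6]
          exact h3le _
        calc ‖κt R c - (Kn c : ℚ_[3])‖ * ‖(3 : ℚ_[3]) ^ (V c.castSucc k)‖ ≤
              (3 : ℝ) ^ (-(Z : ℤ)) * 1 :=
              mul_le_mul (happ c) h5 (norm_nonneg _) (by positivity)
          _ = (3 : ℝ) ^ (-(Z : ℤ)) := mul_one _
          _ ≤ _ := zpow3_le.2 (by have := hVZ k; omega)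
    obtain ⟨M, hM⟩ := h1
    refine ⟨M, ?_⟩
    push_cast at hM
    linarith
  choose M hM using hdvd
  refine ⟨M, fun k => hG'H.trans hHG (hg k), ?_, ?_, ?_, ?_, hM⟩
  · intro k
    simp [hV, hU0]
  · intro k c c' hcc
    have h1 := hUlt (g k) (hg k) c' (by have := c'.2; omega) c hcc
    have h2 := hVU c k
    have h4 := hVU c' k
    show V c k < V c' k
    omega
  · intro a a' haa
    by_contra hne
    have h1 := hT a a' hne
    have h2 : ∑ k, (U (a k) (g k) - U (a' k) (g k)) = 0 := by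
      rw [Finset.sum_sub_distrib, sub_eq_zero]
      have h4 : ∀ b : Fin l → Fin (R + 1), ∑ k, U (b k) (g k) = ((∑ k, V (b k) k : ℕ) : ℤ) := by
        intro b
        push_cast
        refine Finset.sum_congr rfl fun k _ => ?_
        rw [hVU]
      rw [h4, h4, haa]
    rw [h2] at h1
    simp at h1
  · intro c h3
    have h1 : ‖((Kn c : ℕ) : ℚ_[3])‖ < 1 := Padic.norm_natCast_lt_one_iff.2 h3
    have h2 := happ c
    have h4 : (3 : ℝ) ^ (-(Z : ℤ)) < 1 := by
      have h5 : (3 : ℝ) ^ (-(Z : ℤ)) < (3 : ℝ) ^ (0 : ℤ) := zpow3_lt.2 (by omega)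
      rwa [zpow_zero] at h5
    have h5 : κt R c = (κt R c - ((Kn c : ℕ) : ℚ_[3])) + ((Kn c : ℕ) : ℚ_[3]) := by ring
    have h6 := IsUltrametricDist.norm_add_le_max (κt R c - ((Kn c : ℕ) : ℚ_[3])) ((Kn c : ℕ) : ℚ_[3])
    rw [← h5, hκn R le_rfl c c.2] at h6
    have h7 : max ‖κt R c - ((Kn c : ℕ) : ℚ_[3])‖ ‖((Kn c : ℕ) : ℚ_[3])‖ < 1 :=
      max_lt (h2.trans_lt h4) h1
    linarith

end Pool.Agent.N709
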