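import Mathlib

/-! Transfer operators of a measure-preserving system with exact inverse branches. -/

set_option autoImplicit false
open MeasureTheory Finset Filter Topology
open scoped ENNReal

namespace Pool.Agent.N709

/-- a measure-preserving system with finitely many inverse branches -/
structure TS (X ι : Type) [MeasurableSpace X] [Fintype ι] where
  σ : X → X
  c : ι → X → X
  w : ι → X → ℝ
  μ : Measure X
  prob : IsProbabilityMeasure μ
  hσ : Measurable σ
  hc : ∀ a, Measurable (c a)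
  hw : ∀ a, Measurable (w a)
  w0 : ∀ a z, 0 ≤ w a z
  w1 : ∀ z, ∑ a, w a z = 1
  σc : ∀ a z, σ (c a z) = z
  inv : ∀ F : X → ℂ, Measurable F → (∃ C : ℝ, ∀ z, ‖F z‖ ≤ C) →
    ∫ z, ∑ a, w a z • F (c a z) ∂μ = ∫ z, F z ∂μ

namespace TS

variable {X ι : Type} [MeasurableSpace X] [Fintype ι] (S : TS X ι)

/-- the transfer operator -/
def P {E : Type} [AddCommGroup E] [Module ℝ E] (F : X → E) : X → E :=
  fun z => ∑ a, S.w a z • F (S.c a z)

lemma P_pull (F G : X → ℂ) (z : X) : S.P (fun x => G (S.σ x) * F x) z = G z * S.P F z := by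
  unfold P
  rw [Finset.mul_sum]
  refine Finset.sum_congr rfl fun a _ => ?_
  simp only [Complex.real_smul, S.σc]
  ring

lemma P_pull' (F G : X → ℝ) (z : X) : S.P (fun x => F x * G (S.σ x)) z = S.P F z * G z := by
  unfold P
  rw [Finset.sum_mul]
  refine Finset.sum_congr rfl fun a _ => ?_
  simp only [smul_eq_mul, S.σc]
  ring

lemma P_comp {E : Type} [AddCommGroup E] [Module ℝ E] (G : X → E) :
    S.P (fun x => G (S.σ x)) = G := by
  funext z
  unfold P
  simp only [S.σc]
  rw [← Finset.sum_smul, S.w1, one_smul]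

lemma P_sub {E : Type} [AddCommGroup E] [Module ℝ E] (F G : X → E) (z : X) :
    S.P (fun x => F x - G x) z = S.P F z - S.P G z := by
  unfold P
  rw [← Finset.sum_sub_distrib]
  refine Finset.sum_congr rfl fun a _ => ?_
  rw [smul_sub]

lemma P_smul {E : Type} [AddCommGroup E] [Module ℝ E] (r : ℝ) (F : X → E) (z : X) :
    S.P (fun x => r • F x) z = r • S.P F z := by
  unfold P
  rw [Finset.smul_sum]
  refine Finset.sum_congr rfl fun a _ => ?_
  rw [smul_comm]

lemma P_mono {F G : X → ℝ} (h : ∀ z, F z ≤ G z) (z : X) : S.P F z ≤ S.P G z := by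
  unfold P
  refine Finset.sum_le_sum fun a _ => ?_
  simp only [smul_eq_mul]
  exact mul_le_mul_of_nonneg_left (h _) (S.w0 _ _)

lemma P_affine (a b : ℝ) (F : X → ℝ) (z : X) :
    S.P (fun x => a + b * F x) z = a + b * S.P F z := by
  unfold P
  simp only [smul_eq_mul, mul_add]
  rw [Finset.sum_add_distrib, ← Finset.sum_mul, S.w1, one_mul, Finset.mul_sum]
  congr 1
  refine Finset.sum_congr rfl fun i _ => ?_
  ring

lemma P_re (F : X → ℂ) (z : X) : S.P (fun x => (F x).re) z = (S.P F z).re := by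
  unfold P
  rw [Complex.re_sum]
  refine Finset.sum_congr rfl fun a _ => ?_
  simp [Complex.real_smul]

lemma P_norm_le {F : X → ℂ} {C : ℝ} (h : ∀ z, ‖F z‖ ≤ C) (z : X) : ‖S.P F z‖ ≤ C := by
  unfold P
  calc ‖∑ a, S.w a z • F (S.c a z)‖ ≤ ∑ a, ‖S.w a z • F (S.c a z)‖ := norm_sum_le _ _
    _ ≤ ∑ a, S.w a z * C := by
        refine Finset.sum_le_sum fun a _ => ?_
        rw [norm_smul, Real.norm_eq_abs, abs_of_nonneg (S.w0 _ _)]
        exact mul_le_mul_of_nonneg_left (h _) (S.w0 _ _)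
    _ = C := by rw [← Finset.sum_mul, S.w1, one_mul]

lemma meas_P {F : X → ℂ} (hF : Measurable F) : Measurable (S.P F) := by
  unfold P
  refine Finset.measurable_sum _ fun a _ => ?_
  exact (S.hw a).smul (hF.comp (S.hc a))

lemma meas_P' {F : X → ℝ} (hF : Measurable F) : Measurable (S.P F) := by
  unfold P
  refine Finset.measurable_sum _ fun a _ => ?_
  exact (S.hw a).smul (hF.comp (S.hc a))

lemma int_P {F : X → ℂ} (hF : Measurable F) {C : ℝ} (hC : ∀ z, ‖F z‖ ≤ C) :
    ∫ z, S.P F z ∂S.μ = ∫ z, F z ∂S.μ := S.inv F hF ⟨C, hC⟩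

lemma int_P' {F : X → ℝ} (hF : Measurable F) {C : ℝ} (hC : ∀ z, |F z| ≤ C) :
    ∫ z, S.P F z ∂S.μ = ∫ z, F z ∂S.μ := by
  have h1 := S.int_P (F := fun x => (F x : ℂ)) (Complex.measurable_ofReal.comp hF) (C := C)
    (by intro z; simpa using hC z)
  have h2 : ∀ z, S.P (fun x => (F x : ℂ)) z = ((S.P F z : ℝ) : ℂ) := by
    intro z
    unfold P
    push_cast
    refine Finset.sum_congr rfl fun i _ => ?_
    simp only [Complex.real_smul, smul_eq_mul, Complex.ofReal_mul]
  simp only [h2] at h1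
  rw [integral_complex_ofReal, integral_complex_ofReal] at h1
  exact_mod_cast h1

lemma integrable_bdd {F : X → ℝ} (hF : Measurable F) {C : ℝ} (hC : ∀ z, |F z| ≤ C) :
    Integrable F S.μ := by
  have := S.prob
  exact Integrable.of_bound hF.aestronglyMeasurable C (Eventually.of_forall hC)

lemma integrable_bddC {F : X → ℂ} (hF : Measurable F) {C : ℝ} (hC : ∀ z, ‖F z‖ ≤ C) :
    Integrable F S.μ := by
  have := S.prob
  exact Integrable.of_bound hF.aestronglyMeasurable C (Eventually.of_forall hC)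

lemma int_comp {F : X → ℂ} (hF : Measurable F) {C : ℝ} (hC : ∀ z, ‖F z‖ ≤ C) :
    ∫ z, F (S.σ z) ∂S.μ = ∫ z, F z ∂S.μ := by
  rw [← S.int_P (F := fun z => F (S.σ z)) (hF.comp S.hσ) (C := C) (fun z => hC _), S.P_comp F]

lemma int_iter (n : ℕ) {F : X → ℂ} (hF : Measurable F) {C : ℝ} (hC : ∀ z, ‖F z‖ ≤ C) :
    ∫ z, F (S.σ^[n] z) ∂S.μ = ∫ z, F z ∂S.μ := by
  induction n with
  | zero => rfl
  | succ n ih =>
    have h1 := S.int_comp (F := fun z => F (S.σ^[n] z)) (hF.comp (S.hσ.iterate n)) (C := C)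
      (fun z => hC _)
    rw [← ih, ← h1]
    rfl

lemma int_iter' (n : ℕ) {F : X → ℝ} (hF : Measurable F) {C : ℝ} (hC : ∀ z, |F z| ≤ C) :
    ∫ z, F (S.σ^[n] z) ∂S.μ = ∫ z, F z ∂S.μ := by
  have h1 := S.int_iter n (F := fun x => (F x : ℂ)) (Complex.measurable_ofReal.comp hF) (C := C)
    (by intro z; simpa using hC z)
  rw [integral_complex_ofReal, integral_complex_ofReal] at h1
  exact_mod_cast h1

/-- **exponential moments** -/
lemma em (n : ℕ) : ∀ (h : ℕ → X → ℝ) (c : ℕ → ℝ), (∀ t, Measurable (h t)) →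
    (∀ t z, 0 ≤ h t z) → (∀ t, ∃ C : ℝ, ∀ z, h t z ≤ C) → (∀ t, 0 ≤ c t) →
    (∀ t z, S.P (h t) z ≤ c t) →
    ∫ z, ∏ t ∈ range n, h t (S.σ^[t] z) ∂S.μ ≤ ∏ t ∈ range n, c t := by
  induction n with
  | zero =>
    intro h c _ _ _ _ _
    have := S.prob
    simp
  | succ n ih =>
    intro h c hm h0 hC hc hP
    have hprob := S.prob
    set H : X → ℝ := fun z => ∏ t ∈ range n, h (t + 1) (S.σ^[t] z) with hH
    have mH : Measurable H :=
      Finset.measurable_prod _ fun t _ => (hm (t + 1)).comp (S.hσ.iterate t)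
    have H0 : ∀ z, 0 ≤ H z := fun z => Finset.prod_nonneg fun t _ => h0 _ _
    choose C hC using hC
    have hC0 : ∀ t, 0 ≤ C t := fun t => by
      obtain ⟨z⟩ : Nonempty X := nonempty_of_isProbabilityMeasure S.μ
      exact (h0 t z).trans (hC t z)
    have HC : ∀ z, H z ≤ ∏ t ∈ range n, C (t + 1) := fun z =>
      Finset.prod_le_prod (fun t _ => h0 _ _) fun t _ => hC _ _
    have hsplit : ∀ z, ∏ t ∈ range (n + 1), h t (S.σ^[t] z) = h 0 z * H (S.σ z) := by
      intro z
      rw [Finset.prod_range_succ', mul_comm]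
      rfl
    simp only [hsplit]
    have mF : Measurable (fun z => h 0 z * H (S.σ z)) := (hm 0).mul (mH.comp S.hσ)
    have bF : ∀ z, |h 0 z * H (S.σ z)| ≤ C 0 * ∏ t ∈ range n, C (t + 1) := by
      intro z
      rw [abs_of_nonneg (mul_nonneg (h0 _ _) (H0 _))]
      exact mul_le_mul (hC _ _) (HC _) (H0 _) (hC0 0)
    rw [← S.int_P' mF bF]
    have h1 : ∀ z, S.P (fun z => h 0 z * H (S.σ z)) z = S.P (h 0) z * H z := fun z =>
      S.P_pull' (h 0) H z
    simp only [h1]
    have hP0 : ∀ z, 0 ≤ S.P (h 0) z := fun z => by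
      unfold P
      refine Finset.sum_nonneg fun a _ => ?_
      simp only [smul_eq_mul]
      exact mul_nonneg (S.w0 _ _) (h0 _ _)
    have bH : ∀ z, |H z| ≤ ∏ t ∈ range n, C (t + 1) := fun z => by
      rw [abs_of_nonneg (H0 z)]
      exact HC z
    calc ∫ z, S.P (h 0) z * H z ∂S.μ ≤ ∫ z, c 0 * H z ∂S.μ := by
          refine integral_mono_of_nonneg (Eventually.of_forall fun z => mul_nonneg (hP0 z) (H0 z))
            ((S.integrable_bdd mH bH).const_mul _) (Eventually.of_forall fun z => ?_)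
          exact mul_le_mul_of_nonneg_right (hP 0 z) (H0 z)
      _ = c 0 * ∫ z, H z ∂S.μ := integral_const_mul _ _
      _ ≤ c 0 * ∏ t ∈ range n, c (t + 1) := by
          refine mul_le_mul_of_nonneg_left ?_ (hc 0)
          exact ih (fun t => h (t + 1)) (fun t => c (t + 1)) (fun t => hm _) (fun t z => h0 _ _)
            (fun t => ⟨_, hC _⟩) (fun t => hc _) (fun t z => hP _ _)
      _ = ∏ t ∈ range (n + 1), c t := by
          rw [Finset.prod_range_succ', mul_comm]

/-- exponential moments of differences at distinct times -/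
lemma em_diff {β : Type} [Fintype β] [DecidableEq β] (τ : β → ℕ) (hτ : Function.Injective τ)
    (r : β → X → ℂ) (mr : ∀ e, Measurable (r e)) (r1 : ∀ e z, ‖r e z‖ ≤ 1)
    (r0 : ∀ e z, S.P (r e) z = 0) (s : ℝ) (hs0 : 0 ≤ s) (hs1 : s ≤ 1) :
    ∫ z, Real.exp (s * ∑ e, (r e (S.σ^[τ e] z)).re) ∂S.μ ≤
      Real.exp (s ^ 2) ^ (Fintype.card β) := by
  classical
  set n : ℕ := (Finset.univ.sup τ) + 1 with hn
  have hlt : ∀ e, τ e < n := fun e => by
    have : τ e ≤ Finset.univ.sup τ := Finset.le_sup (f := τ) (Finset.mem_univ e)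
    omega
  set h : ℕ → X → ℝ := fun t z => ∏ e ∈ Finset.univ.filter (fun e => τ e = t),
    Real.exp (s * (r e z).re) with hh
  set c : ℕ → ℝ := fun t => ∏ _e ∈ Finset.univ.filter (fun e => τ e = t), Real.exp (s ^ 2) with hc
  have hre : ∀ e z, |(r e z).re| ≤ 1 := fun e z => (Complex.abs_re_le_norm _).trans (r1 e z)
  have hsre : ∀ e z, |s * (r e z).re| ≤ 1 := fun e z => by
    rw [abs_mul, abs_of_nonneg hs0]
    exact mul_le_one₀ hs1 (abs_nonneg _) (hre e z)
  have hexp : ∀ e z, Real.exp (s * (r e z).re) ≤ (1 + s ^ 2) + s * (r e z).re := by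
    intro e z
    have h1 := (abs_le.1 (Real.abs_exp_sub_one_sub_id_le (hsre e z))).2
    have h2 : (s * (r e z).re) ^ 2 ≤ s ^ 2 := by
      rw [mul_pow]
      have h3 : (r e z).re ^ 2 ≤ 1 := by
        rw [← sq_abs]
        exact pow_le_one₀ (abs_nonneg _) (hre e z)
      nlinarith [sq_nonneg s]
    linarith
  have hPexp : ∀ e z, S.P (fun z => Real.exp (s * (r e z).re)) z ≤ Real.exp (s ^ 2) := by
    intro e z
    refine (S.P_mono (hexp e) z).trans ?_
    rw [S.P_affine, S.P_re, r0 e z]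
    simp only [Complex.zero_re, mul_zero, add_zero]
    have := Real.add_one_le_exp (s ^ 2)
    linarith
  have hcard : ∀ t, (Finset.univ.filter (fun e => τ e = t)).card ≤ 1 := by
    intro t
    rw [Finset.card_le_one]
    intro a ha b hb
    have h1 := (Finset.mem_filter.1 ha).2
    have h2 := (Finset.mem_filter.1 hb).2
    exact hτ (h1.trans h2.symm)
  have hPh : ∀ t z, S.P (h t) z ≤ c t := by
    intro t z
    rcases Nat.le_one_iff_eq_zero_or_eq_one.1 (hcard t) with h1 | h1
    · rw [Finset.card_eq_zero] at h1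
      simp only [hh, hc, h1, Finset.prod_empty]
      unfold P
      simp only [smul_eq_mul, mul_one]
      rw [S.w1]
    · obtain ⟨e, he⟩ := Finset.card_eq_one.1 h1
      simp only [hh, hc, he, Finset.prod_singleton]
      exact hPexp e z
  have hmeas : ∀ t, Measurable (h t) := fun t =>
    Finset.measurable_prod _ fun e _ =>
      Real.measurable_exp.comp ((Complex.measurable_re.comp (mr e)).const_mul s)
  have hnn : ∀ t z, 0 ≤ h t z := fun t z => Finset.prod_nonneg fun e _ => (Real.exp_pos _).le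
  have hbd : ∀ t, ∃ C : ℝ, ∀ z, h t z ≤ C := by
    intro t
    refine ⟨∏ _e ∈ Finset.univ.filter (fun e => τ e = t), Real.exp 1, fun z => ?_⟩
    refine Finset.prod_le_prod (fun e _ => (Real.exp_pos _).le) fun e _ => ?_
    exact Real.exp_le_exp.2 ((le_abs_self _).trans (hsre e z))
  have key := S.em n h c hmeas hnn hbd (fun t => Finset.prod_nonneg fun e _ => (Real.exp_pos _).le)
    hPh
  have e1 : ∀ z, ∏ t ∈ range n, h t (S.σ^[t] z) =
      Real.exp (s * ∑ e, (r e (S.σ^[τ e] z)).re) := by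
    intro z
    rw [Finset.mul_sum, Real.exp_sum]
    rw [← Finset.prod_fiberwise_of_maps_to (s := Finset.univ) (t := range n) (g := τ)
      (fun e _ => Finset.mem_range.2 (hlt e))]
    refine Finset.prod_congr rfl fun t _ => ?_
    refine Finset.prod_congr rfl fun e he => ?_
    rw [(Finset.mem_filter.1 he).2]
  have e2 : ∏ t ∈ range n, c t = Real.exp (s ^ 2) ^ (Fintype.card β) := by
    simp only [hc]
    rw [Finset.prod_fiberwise_of_maps_to (s := Finset.univ) (t := range n) (g := τ)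
      (fun e _ => Finset.mem_range.2 (hlt e)) (fun _ => Real.exp (s ^ 2)), Finset.prod_const,
      Finset.card_univ]
  simp only [e1] at key
  rwa [e2] at key

end TS

end Pool.Agent.N709
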