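import Mathlib
import Pool.Agent.N709.Tr

/-! Decoupling of a factor with vanishing conditional expectation, on average. -/

set_option autoImplicit false
open MeasureTheory Finset Filter Topology
open scoped ENNReal

namespace Pool.Agent.N709

namespace TS

variable {X ι : Type} [MeasurableSpace X] [Fintype ι] (S : TS X ι)

/-- the integrand -/
def Ei (J : ℕ) (f : ℕ → X → ℂ) (g b : X → ℂ) (u : ℕ → ℕ) : X → ℂ :=
  fun z => (∏ c ∈ range J, f c (S.σ^[u c] z)) * (g (S.σ^[u J] z) * b (S.σ^[u J + 1] z))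

lemma meas_Ei (J : ℕ) {f : ℕ → X → ℂ} {g b : X → ℂ} (hf : ∀ c, Measurable (f c))
    (hg : Measurable g) (hb : Measurable b) (u : ℕ → ℕ) : Measurable (S.Ei J f g b u) :=
  (Finset.measurable_prod _ fun c _ => (hf c).comp (S.hσ.iterate _)).mul
    ((hg.comp (S.hσ.iterate _)).mul (hb.comp (S.hσ.iterate _)))

lemma norm_prod_le_one {α : Type} (s : Finset α) (f : α → ℂ) (h : ∀ a ∈ s, ‖f a‖ ≤ 1) :
    ‖∏ a ∈ s, f a‖ ≤ 1 := by
  rw [norm_prod]
  exact Finset.prod_le_one (fun _ _ => norm_nonneg _) h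

lemma norm_Ei (J : ℕ) {f : ℕ → X → ℂ} {g b : X → ℂ} (hf : ∀ c z, ‖f c z‖ ≤ 1)
    (hg : ∀ z, ‖g z‖ ≤ 1) (hb : ∀ z, ‖b z‖ ≤ 1) (u : ℕ → ℕ) (z : X) : ‖S.Ei J f g b u z‖ ≤ 1 := by
  unfold Ei
  rw [norm_mul, norm_mul]
  exact mul_le_one₀ (norm_prod_le_one _ _ fun c _ => hf c _)
    (mul_nonneg (norm_nonneg _) (norm_nonneg _)) (mul_le_one₀ (hg _) (norm_nonneg _) (hb _))

lemma log_step {Z : X → ℝ} (mZ : Measurable Z) {C : ℝ} (bZ : ∀ z, |Z z| ≤ C) (s : ℝ)
    (hs : 0 ≤ s) {A : ℝ} (hApos : 0 < A) (hEA : ∫ z, Real.exp (s * Z z) ∂S.μ ≤ A) :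
    s * ∫ z, Z z ∂S.μ ≤ Real.log A := by
  have hprob := S.prob
  have mE : Measurable fun z => Real.exp (s * Z z) := Real.measurable_exp.comp (mZ.const_mul s)
  have bE : ∀ z, |Real.exp (s * Z z)| ≤ Real.exp (s * C) := by
    intro z
    rw [abs_of_pos (Real.exp_pos _), Real.exp_le_exp]
    exact mul_le_mul_of_nonneg_left ((le_abs_self _).trans (bZ z)) hs
  have iE := S.integrable_bdd mE bE
  have h1 : ∀ z, s * Z z ≤ A⁻¹ * Real.exp (s * Z z) + (Real.log A - 1) := by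
    intro z
    have h2 := Real.add_one_le_exp (s * Z z - Real.log A)
    rw [Real.exp_sub, Real.exp_log hApos] at h2
    have h3 : Real.exp (s * Z z) / A = A⁻¹ * Real.exp (s * Z z) := by
      rw [div_eq_inv_mul]
    rw [h3] at h2
    linarith
  have h4 : ∫ z, s * Z z ∂S.μ ≤ ∫ z, (A⁻¹ * Real.exp (s * Z z) + (Real.log A - 1)) ∂S.μ :=
    integral_mono ((S.integrable_bdd mZ bZ).const_mul s)
      ((iE.const_mul _).add (integrable_const _)) h1
  rw [integral_const_mul, integral_add (iE.const_mul _)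
    (integrable_const _), integral_const_mul, integral_const] at h4
  simp only [probReal_univ, smul_eq_mul, one_mul] at h4
  have h5 : A⁻¹ * ∫ z, Real.exp (s * Z z) ∂S.μ ≤ A⁻¹ * A :=
    mul_le_mul_of_nonneg_left hEA (inv_nonneg.2 hApos.le)
  rw [inv_mul_cancel₀ hApos.ne'] at h5
  linarith

/-- **decoupling** for functions with finitely many values -/
theorem dec_fin (J l : ℕ) (hJ : 1 ≤ J) (V : Finset ℂ) (hV : ∀ v ∈ V, ‖v‖ ≤ 1) (f : ℕ → X → ℂ)
    (mf : ∀ c, Measurable (f c)) (hfV : ∀ c z, f c z ∈ V) (g : X → ℂ) (mg : Measurable g)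
    (g1 : ∀ z, ‖g z‖ ≤ 1) (g0 : ∀ z, S.P g z = 0) (b : Fin (l + 1) → X → ℂ)
    (mb : ∀ i, Measurable (b i)) (b1 : ∀ i z, ‖b i z‖ ≤ 1) (u : Fin (l + 1) → ℕ → ℕ)
    (hinj : ∀ a a' : Fin (l + 1) → ℕ, (∀ k, a k ≤ J) → (∀ k, a' k ≤ J) →
      ∑ k, u k (a k) = ∑ k, u k (a' k) → a = a') (s : ℝ) (hs0 : 0 < s) (hs1 : s ≤ 1) :
    s * ∑ i, ‖∫ z, S.Ei J f g (b i) (u i) z ∂S.μ‖ ≤
      (J : ℝ) ^ 2 * Real.log V.card + s ^ 2 * (l + 1) := by
  classical
  have hprob := S.prob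
  obtain ⟨z0⟩ : Nonempty X := nonempty_of_isProbabilityMeasure S.μ
  have hVc : 0 < V.card := Finset.card_pos.2 ⟨f 0 z0, hfV 0 z0⟩
  have hth : ∀ i, ∃ θ : ℂ, ‖θ‖ = 1 ∧ (‖∫ z, S.Ei J f g (b i) (u i) z ∂S.μ‖ : ℂ) =
      θ * ∫ z, S.Ei J f g (b i) (u i) z ∂S.μ := fun i => RCLike.exists_norm_eq_mul_self _
  choose θ hθ1 hθ using hth
  -- edges and times
  set rr : Fin (l + 1) × (Fin l → Fin J) → ℕ := fun e =>
    ∑ k : Fin l, u (e.1.succAbove k) (e.2 k) with hrr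
  set τ : Fin (l + 1) × (Fin l → Fin J) → ℕ := fun e => u e.1 J + rr e with hτ
  set vt : (Fin (l + 1) → Fin J) → ℕ := fun a => ∑ k, u k (a k) with hvt
  have hvte : ∀ (e : Fin (l + 1) × (Fin l → Fin J)) (c : Fin J),
      vt (e.1.insertNth c e.2) = u e.1 c + rr e := by
    intro e c
    simp only [hvt, hrr]
    rw [Fin.sum_univ_succAbove _ e.1]
    simp
  have hτinj : Function.Injective τ := by
    intro e e' hee
    set a : Fin (l + 1) → ℕ := e.1.insertNth J (fun k => ((e.2 k : Fin J) : ℕ)) with ha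
    set a' : Fin (l + 1) → ℕ := e'.1.insertNth J (fun k => ((e'.2 k : Fin J) : ℕ)) with ha'
    have hs : ∀ e : Fin (l + 1) × (Fin l → Fin J),
        ∑ k, u k ((e.1.insertNth J (fun k => ((e.2 k : Fin J) : ℕ)) : Fin (l + 1) → ℕ) k) =
          τ e := by
      intro e
      rw [Fin.sum_univ_succAbove _ e.1]
      simp [hτ, hrr]
    have hle : ∀ e : Fin (l + 1) × (Fin l → Fin J), ∀ k,
        ((e.1.insertNth J (fun k => ((e.2 k : Fin J) : ℕ)) : Fin (l + 1) → ℕ) k) ≤ J := by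
      intro e k
      rcases eq_or_ne k e.1 with rfl | hk
      · simp
      · obtain ⟨k', rfl⟩ := Fin.exists_succAbove_eq hk
        simp only [Fin.insertNth_apply_succAbove]
        exact (e.2 k').2.le
    have haa : a = a' := hinj a a' (hle e) (hle e') (by rw [ha, ha', hs e, hs e', hee])
    have h1 : e.1 = e'.1 := by
      by_contra hne
      obtain ⟨k', hk'⟩ := Fin.exists_succAbove_eq hne
      have h2 := congrFun haa e.1
      rw [ha, ha', Fin.insertNth_apply_same, ← hk', Fin.insertNth_apply_succAbove] at h2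
      have := (e'.2 k').2
      omega
    have h2 : e.2 = e'.2 := by
      funext k
      have h3 := congrFun haa (e.1.succAbove k)
      rw [ha, Fin.insertNth_apply_succAbove, ha', h1, Fin.insertNth_apply_succAbove] at h3
      exact Fin.ext h3
    exact Prod.ext h1 h2
  set Gi : Fin (l + 1) → X → ℂ := fun i z => g z * (θ i * b i (S.σ z)) with hGi
  have mGi : ∀ i, Measurable (Gi i) := fun i =>
    mg.mul (((mb i).comp S.hσ).const_mul (θ i))
  have hb1' : ∀ i z, ‖θ i * b i z‖ ≤ 1 := fun i z => by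
    rw [norm_mul, hθ1, one_mul]
    exact b1 i z
  have hGi1 : ∀ i z, ‖Gi i z‖ ≤ 1 := fun i z => by
    simp only [hGi]
    rw [norm_mul]
    exact mul_le_one₀ (g1 z) (norm_nonneg _) (hb1' _ _)
  have hGi0 : ∀ (κ : ℂ) i z, S.P (fun z => κ * Gi i z) z = 0 := by
    intro κ i z
    have h1 : (fun z => κ * Gi i z) =
        fun z => (fun y => κ * (θ i * b i y)) (S.σ z) * g z := by
      funext z
      simp only [hGi]
      ring
    rw [h1, S.P_pull g (fun y => κ * (θ i * b i y)) z, g0 z, mul_zero]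
  -- the sum
  set Z : X → ℝ := fun z => ∑ e : Fin (l + 1) × (Fin l → Fin J),
    ((∏ c : Fin J, f c (S.σ^[vt (e.1.insertNth c e.2)] z)) * Gi e.1 (S.σ^[τ e] z)).re with hZ
  have mterm : ∀ e : Fin (l + 1) × (Fin l → Fin J), Measurable fun z =>
      ((∏ c : Fin J, f c (S.σ^[vt (e.1.insertNth c e.2)] z)) * Gi e.1 (S.σ^[τ e] z)).re := by
    intro e
    have h1 : Measurable fun z => ∏ c : Fin J, f c (S.σ^[vt (e.1.insertNth c e.2)] z) :=
      Finset.measurable_prod _ fun c _ => (mf c).comp (S.hσ.iterate _)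
    have h2 : Measurable fun z => Gi e.1 (S.σ^[τ e] z) := (mGi e.1).comp (S.hσ.iterate _)
    exact Complex.measurable_re.comp (h1.mul h2)
  have hf1 : ∀ c z, ‖f c z‖ ≤ 1 := fun c z => hV _ (hfV c z)
  have bterm : ∀ (e : Fin (l + 1) × (Fin l → Fin J)) z,
      |((∏ c : Fin J, f c (S.σ^[vt (e.1.insertNth c e.2)] z)) * Gi e.1 (S.σ^[τ e] z)).re| ≤ 1 := by
    intro e z
    refine (Complex.abs_re_le_norm _).trans ?_
    rw [norm_mul]
    exact mul_le_one₀ (norm_prod_le_one _ _ fun c _ => hf1 c _) (norm_nonneg _) (hGi1 _ _)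
  have mZ : Measurable Z := Finset.measurable_sum _ fun e _ => mterm e
  set NE : ℕ := Fintype.card (Fin (l + 1) × (Fin l → Fin J)) with hNE
  have hNE' : NE = (l + 1) * J ^ l := by
    simp [hNE, Fintype.card_prod]
  have bZ : ∀ z, |Z z| ≤ NE := by
    intro z
    simp only [hZ]
    refine (Finset.abs_sum_le_sum_abs _ _).trans ?_
    refine (Finset.sum_le_sum fun e _ => bterm e z).trans ?_
    rw [Finset.sum_const, Finset.card_univ, nsmul_eq_mul, mul_one]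
  -- the integral of `Z`
  have hintZ : ∫ z, Z z ∂S.μ = (J : ℝ) ^ l * ∑ i, ‖∫ z, S.Ei J f g (b i) (u i) z ∂S.μ‖ := by
    simp only [hZ]
    rw [integral_finsetSum _ fun e _ => S.integrable_bdd (mterm e) (bterm e)]
    have h1 : ∀ e : Fin (l + 1) × (Fin l → Fin J), ∫ z, ((∏ c : Fin J,
        f c (S.σ^[vt (e.1.insertNth c e.2)] z)) * Gi e.1 (S.σ^[τ e] z)).re ∂S.μ =
        ‖∫ z, S.Ei J f g (b e.1) (u e.1) z ∂S.μ‖ := by
      intro e
      set Ψ : X → ℂ := fun z => θ e.1 * S.Ei J f g (b e.1) (u e.1) z with hΨ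
      have mΨ : Measurable Ψ := (S.meas_Ei J mf mg (mb e.1) (u e.1)).const_mul _
      have bΨ : ∀ z, ‖Ψ z‖ ≤ 1 := fun z => by
        simp only [hΨ]
        rw [norm_mul, hθ1, one_mul]
        exact S.norm_Ei J hf1 g1 (b1 e.1) (u e.1) z
      have h2 : ∀ z, (∏ c : Fin J, f c (S.σ^[vt (e.1.insertNth c e.2)] z)) *
          Gi e.1 (S.σ^[τ e] z) = Ψ (S.σ^[rr e] z) := by
        intro z
        simp only [hΨ, Ei, hGi]
        rw [Finset.prod_range]
        have h3 : ∀ c : Fin J, f c (S.σ^[vt (e.1.insertNth c e.2)] z) =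
            f c (S.σ^[u e.1 c] (S.σ^[rr e] z)) := by
          intro c
          rw [hvte, Function.iterate_add_apply]
        rw [Finset.prod_congr rfl fun c _ => h3 c]
        have h4 : S.σ^[τ e] z = S.σ^[u e.1 J] (S.σ^[rr e] z) := by
          simp only [hτ]
          rw [Function.iterate_add_apply]
        have h5 : S.σ (S.σ^[u e.1 J] (S.σ^[rr e] z)) = S.σ^[u e.1 J + 1] (S.σ^[rr e] z) := by
          rw [Function.iterate_succ_apply']
        rw [h4, h5]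
        ring
      simp only [h2]
      have h6 : ∫ z, (Ψ (S.σ^[rr e] z)).re ∂S.μ = (∫ z, Ψ (S.σ^[rr e] z) ∂S.μ).re := by
        have := integral_re (𝕜 := ℂ) (S.integrable_bddC (F := fun z => Ψ (S.σ^[rr e] z))
          (mΨ.comp (S.hσ.iterate _)) (C := 1) (fun z => bΨ _))
        simpa using this
      rw [h6, S.int_iter (rr e) mΨ bΨ]
      simp only [hΨ]
      rw [integral_const_mul, ← hθ]
      simp
    rw [Finset.sum_congr rfl fun e _ => h1 e, Fintype.sum_prod_type]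
    simp only [Finset.sum_const, Finset.card_univ, nsmul_eq_mul]
    rw [← Finset.mul_sum]
    simp
  -- the exponential moment
  set Φ := (Fin J × (Fin (l + 1) → Fin J)) → V with hΦ
  set rφ : Φ → (Fin (l + 1) × (Fin l → Fin J)) → X → ℂ := fun φ e z =>
    (∏ c : Fin J, ((φ (c, e.1.insertNth c e.2) : V) : ℂ)) * Gi e.1 z with hrφ
  have mrφ : ∀ φ e, Measurable (rφ φ e) := fun φ e => (mGi e.1).const_mul _
  have rφ1 : ∀ φ e z, ‖rφ φ e z‖ ≤ 1 := by
    intro φ e z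
    simp only [hrφ]
    rw [norm_mul]
    exact mul_le_one₀ (norm_prod_le_one _ _ fun c _ => hV _ (φ _).2) (norm_nonneg _) (hGi1 _ _)
  have hY : ∀ φ, ∫ z, Real.exp (s * ∑ e, (rφ φ e (S.σ^[τ e] z)).re) ∂S.μ ≤
      Real.exp (s ^ 2) ^ NE := fun φ =>
    S.em_diff τ hτinj (rφ φ) (mrφ φ) (rφ1 φ) (fun e z => hGi0 _ _ z) s hs0.le hs1
  have mY : ∀ φ, Measurable fun z => Real.exp (s * ∑ e, (rφ φ e (S.σ^[τ e] z)).re) := fun φ =>
    Real.measurable_exp.comp ((Finset.measurable_sum _ fun e _ =>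
      Complex.measurable_re.comp ((mrφ φ e).comp (S.hσ.iterate _))).const_mul s)
  have bY : ∀ φ z, |Real.exp (s * ∑ e, (rφ φ e (S.σ^[τ e] z)).re)| ≤ Real.exp (s * NE) := by
    intro φ z
    rw [abs_of_pos (Real.exp_pos _), Real.exp_le_exp]
    refine mul_le_mul_of_nonneg_left ?_ hs0.le
    refine (Finset.sum_le_sum (g := fun _ => (1 : ℝ)) fun e _ => (le_abs_self _).trans
      ((Complex.abs_re_le_norm _).trans (rφ1 φ e _))).trans ?_
    rw [Finset.sum_const, Finset.card_univ, nsmul_eq_mul, mul_one]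
  have hpt : ∀ z, Real.exp (s * Z z) ≤
      ∑ φ : Φ, Real.exp (s * ∑ e, (rφ φ e (S.σ^[τ e] z)).re) := by
    intro z
    set φz : Φ := fun p => ⟨f p.1 (S.σ^[vt p.2] z), hfV _ _⟩ with hφz
    have h1 : Real.exp (s * Z z) = Real.exp (s * ∑ e, (rφ φz e (S.σ^[τ e] z)).re) := rfl
    rw [h1]
    exact Finset.single_le_sum (f := fun φ : Φ => Real.exp (s * ∑ e, (rφ φ e (S.σ^[τ e] z)).re))
      (fun _ _ => (Real.exp_pos _).le) (Finset.mem_univ φz)
  set NV : ℕ := J * J ^ (l + 1) with hNV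
  have hcardΦ : Fintype.card Φ = V.card ^ NV := by
    simp [hΦ, hNV]
  set A : ℝ := (V.card : ℝ) ^ NV * Real.exp (s ^ 2) ^ NE with hA
  have hApos : 0 < A := by
    have : (0 : ℝ) < V.card := by exact_mod_cast hVc
    positivity
  have mE : Measurable fun z => Real.exp (s * Z z) := Real.measurable_exp.comp (mZ.const_mul s)
  have bE : ∀ z, |Real.exp (s * Z z)| ≤ Real.exp (s * NE) := by
    intro z
    rw [abs_of_pos (Real.exp_pos _), Real.exp_le_exp]
    exact mul_le_mul_of_nonneg_left ((le_abs_self _).trans (bZ z)) hs0.le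
  have hEA : ∫ z, Real.exp (s * Z z) ∂S.μ ≤ A := by
    calc ∫ z, Real.exp (s * Z z) ∂S.μ ≤
          ∫ z, ∑ φ : Φ, Real.exp (s * ∑ e, (rφ φ e (S.σ^[τ e] z)).re) ∂S.μ :=
          integral_mono (S.integrable_bdd mE bE)
            (integrable_finsetSum _ fun φ _ => S.integrable_bdd (mY φ) (bY φ)) hpt
      _ = ∑ φ : Φ, ∫ z, Real.exp (s * ∑ e, (rφ φ e (S.σ^[τ e] z)).re) ∂S.μ :=
          integral_finsetSum _ fun φ _ => S.integrable_bdd (mY φ) (bY φ)
      _ ≤ ∑ _φ : Φ, Real.exp (s ^ 2) ^ NE := Finset.sum_le_sum fun φ _ => hY φ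
      _ = A := by
          rw [Finset.sum_const, Finset.card_univ, hcardΦ, nsmul_eq_mul, hA]
          push_cast
          rfl
  -- the logarithm
  have hlog : s * ∫ z, Z z ∂S.μ ≤ Real.log A := S.log_step mZ bZ s hs0.le hApos hEA
  have hlogA : Real.log A = NV * Real.log V.card + NE * s ^ 2 := by
    have : (0 : ℝ) < V.card := by exact_mod_cast hVc
    rw [hA, Real.log_mul (by positivity) (by positivity), Real.log_pow, Real.log_pow, Real.log_exp]
  rw [hintZ, hlogA] at hlog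
  have hJ0 : (0 : ℝ) < (J : ℝ) ^ l := by
    have : (0 : ℝ) < J := by exact_mod_cast hJ
    positivity
  have e1 : ((NV : ℕ) : ℝ) * Real.log V.card + NE * s ^ 2 =
      (J : ℝ) ^ l * ((J : ℝ) ^ 2 * Real.log V.card + s ^ 2 * (l + 1)) := by
    rw [hNE', hNV]
    push_cast
    ring
  rw [e1] at hlog
  have e2 : (J : ℝ) ^ l * (s * ∑ i, ‖∫ z, S.Ei J f g (b i) (u i) z ∂S.μ‖) ≤
      (J : ℝ) ^ l * ((J : ℝ) ^ 2 * Real.log V.card + s ^ 2 * (l + 1)) := by
    refine le_trans (le_of_eq ?_) hlog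
    ring
  exact le_of_mul_le_mul_left e2 hJ0

end TS

/-! ### rounding -/

lemma exists_round (δ : ℝ) (hδ : 0 < δ) : ∃ (V : Finset ℂ) (r : ℂ → ℂ), Measurable r ∧
    (∀ z, ‖z‖ ≤ 1 → r z ∈ V) ∧ (∀ v ∈ V, ‖v‖ ≤ 1) ∧ ∀ z, ‖z‖ ≤ 1 → ‖z - r z‖ ≤ δ := by
  classical
  obtain ⟨M, hM⟩ := exists_nat_gt (4 / δ)
  have hM0 : (0 : ℝ) < (M : ℝ) + 2 := by positivity
  set r : ℂ → ℂ := fun z => (((⌊(M : ℝ) * z.re⌋ : ℤ) : ℂ) +
    ((⌊(M : ℝ) * z.im⌋ : ℤ) : ℂ) * Complex.I) / (M + 2) with hr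
  have hnum : ∀ z : ℂ, ‖(((⌊(M : ℝ) * z.re⌋ : ℤ) : ℂ) +
      ((⌊(M : ℝ) * z.im⌋ : ℤ) : ℂ) * Complex.I) - M * z‖ ≤ 2 := by
    intro z
    have h1 : (((⌊(M : ℝ) * z.re⌋ : ℤ) : ℂ) + ((⌊(M : ℝ) * z.im⌋ : ℤ) : ℂ) * Complex.I) - M * z =
        (((⌊(M : ℝ) * z.re⌋ : ℝ) - M * z.re : ℝ) : ℂ) +
          (((⌊(M : ℝ) * z.im⌋ : ℝ) - M * z.im : ℝ) : ℂ) * Complex.I := by
      apply Complex.ext <;> simp
    rw [h1]
    refine (norm_add_le _ _).trans ?_
    rw [norm_mul, Complex.norm_I, mul_one, Complex.norm_real, Complex.norm_real, Real.norm_eq_abs,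
      Real.norm_eq_abs]
    have h2 : ∀ x : ℝ, |(⌊x⌋ : ℝ) - x| ≤ 1 := by
      intro x
      have h3 := Int.floor_le x
      have h4 := Int.lt_floor_add_one x
      rw [abs_le]
      constructor <;> linarith
    have h3 := h2 ((M : ℝ) * z.re)
    have h4 := h2 ((M : ℝ) * z.im)
    linarith
  have hMc : ((M : ℂ) + 2) ≠ 0 := by
    have : ((M : ℂ) + 2) = (((M : ℝ) + 2 : ℝ) : ℂ) := by push_cast; ring
    rw [this]
    exact_mod_cast hM0.ne'
  have hMn : ‖(M : ℂ) + 2‖ = (M : ℝ) + 2 := by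
    have : ((M : ℂ) + 2) = (((M : ℝ) + 2 : ℝ) : ℂ) := by push_cast; ring
    rw [this, Complex.norm_real, Real.norm_eq_abs, abs_of_pos hM0]
  have hr1 : ∀ z, ‖z‖ ≤ 1 → ‖r z‖ ≤ 1 := by
    intro z hz
    simp only [hr]
    rw [norm_div, hMn, div_le_one hM0]
    have h1 := norm_le_norm_add_norm_sub' (((⌊(M : ℝ) * z.re⌋ : ℤ) : ℂ) +
      ((⌊(M : ℝ) * z.im⌋ : ℤ) : ℂ) * Complex.I) (M * z)
    refine h1.trans ?_
    have h2 := hnum z
    have h3 : ‖(M : ℂ) * z‖ ≤ M := by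
      rw [norm_mul, Complex.norm_natCast]
      exact mul_le_of_le_one_right (Nat.cast_nonneg _) hz
    linarith
  refine ⟨((Finset.Icc (-(M : ℤ)) M ×ˢ Finset.Icc (-(M : ℤ)) M).image (fun p : ℤ × ℤ =>
    ((p.1 : ℂ) + (p.2 : ℂ) * Complex.I) / (M + 2))).filter (fun v => ‖v‖ ≤ 1), r, ?_, ?_, ?_, ?_⟩
  · have h1 : Measurable fun z : ℂ => (((⌊(M : ℝ) * z.re⌋ : ℤ) : ℂ)) :=
      (measurable_from_top (f := fun n : ℤ => (n : ℂ))).comp
        (Int.measurable_floor.comp (Complex.measurable_re.const_mul _))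
    have h2 : Measurable fun z : ℂ => (((⌊(M : ℝ) * z.im⌋ : ℤ) : ℂ)) :=
      (measurable_from_top (f := fun n : ℤ => (n : ℂ))).comp
        (Int.measurable_floor.comp (Complex.measurable_im.const_mul _))
    exact (h1.add (h2.mul_const _)).div_const _
  · intro z hz
    rw [Finset.mem_filter]
    refine ⟨Finset.mem_image.2 ⟨(⌊(M : ℝ) * z.re⌋, ⌊(M : ℝ) * z.im⌋), ?_, rfl⟩, hr1 z hz⟩
    have hb : ∀ x : ℝ, |x| ≤ 1 → ⌊(M : ℝ) * x⌋ ∈ Finset.Icc (-(M : ℤ)) M := by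
      intro x hx
      obtain ⟨h1, h2⟩ := abs_le.1 hx
      have hM' : (0 : ℝ) ≤ M := Nat.cast_nonneg _
      rw [Finset.mem_Icc]
      constructor
      · rw [Int.le_floor]
        push_cast
        nlinarith
      · have h3 : (⌊(M : ℝ) * x⌋ : ℝ) ≤ M := (Int.floor_le _).trans (by nlinarith)
        exact_mod_cast h3
    exact Finset.mem_product.2 ⟨hb _ ((Complex.abs_re_le_norm z).trans hz),
      hb _ ((Complex.abs_im_le_norm z).trans hz)⟩
  · intro v hv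
    exact (Finset.mem_filter.1 hv).2
  · intro z hz
    have h1 : z - r z = -((((⌊(M : ℝ) * z.re⌋ : ℤ) : ℂ) +
        ((⌊(M : ℝ) * z.im⌋ : ℤ) : ℂ) * Complex.I) - M * z - 2 * z) / (M + 2) := by
      simp only [hr]
      field_simp
      ring
    rw [h1, norm_div, norm_neg, hMn, div_le_iff₀ hM0]
    have h2 := norm_sub_le ((((⌊(M : ℝ) * z.re⌋ : ℤ) : ℂ) +
        ((⌊(M : ℝ) * z.im⌋ : ℤ) : ℂ) * Complex.I) - M * z) (2 * z)
    have h3 := hnum z
    have h4 : ‖2 * z‖ ≤ 2 := by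
      rw [norm_mul]
      simp only [Complex.norm_ofNat]
      linarith
    rw [div_lt_iff₀ hδ] at hM
    nlinarith

lemma prod_diff (J : ℕ) (a b : ℕ → ℂ) (ha : ∀ c, ‖a c‖ ≤ 1) (hb : ∀ c, ‖b c‖ ≤ 1) (δ : ℝ)
    (h : ∀ c, ‖a c - b c‖ ≤ δ) :
    ‖∏ c ∈ range J, a c - ∏ c ∈ range J, b c‖ ≤ J * δ := by
  induction J with
  | zero => simp
  | succ J ih =>
    rw [Finset.prod_range_succ, Finset.prod_range_succ]
    have h1 : (∏ c ∈ range J, a c) * a J - (∏ c ∈ range J, b c) * b J =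
        (∏ c ∈ range J, a c - ∏ c ∈ range J, b c) * a J +
          (∏ c ∈ range J, b c) * (a J - b J) := by ring
    rw [h1]
    refine (norm_add_le _ _).trans ?_
    rw [norm_mul, norm_mul]
    have h2 : ‖∏ c ∈ range J, b c‖ ≤ 1 := TS.norm_prod_le_one _ _ fun c _ => hb c
    have h3 := ha J
    have h4 := h J
    have h5 : ‖∏ c ∈ range J, a c - ∏ c ∈ range J, b c‖ * ‖a J‖ ≤ (J * δ) * 1 :=
      mul_le_mul ih h3 (norm_nonneg _) ((norm_nonneg _).trans ih)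
    have h6 : ‖∏ c ∈ range J, b c‖ * ‖a J - b J‖ ≤ 1 * δ :=
      mul_le_mul h2 h4 (norm_nonneg _) zero_le_one
    push_cast
    linarith

/-- **decoupling** -/
theorem dec (X ι : Type) [MeasurableSpace X] [Fintype ι] (J : ℕ) (lam : ℝ) (hlam : 0 < lam) :
    ∃ l0 : ℕ, ∀ l, l0 ≤ l → ∀ (S : TS X ι) (f : ℕ → X → ℂ)
      (_ : ∀ c, Measurable (f c)) (_ : ∀ c z, ‖f c z‖ ≤ 1) (g : X → ℂ) (_ : Measurable g)
      (_ : ∀ z, ‖g z‖ ≤ 1) (_ : ∀ z, S.P g z = 0) (b : Fin (l + 1) → X → ℂ)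
      (_ : ∀ i, Measurable (b i)) (_ : ∀ i z, ‖b i z‖ ≤ 1) (u : Fin (l + 1) → ℕ → ℕ)
      (_ : ∀ a a' : Fin (l + 1) → ℕ, (∀ k, a k ≤ J) → (∀ k, a' k ≤ J) →
        ∑ k, u k (a k) = ∑ k, u k (a' k) → a = a'),
      ∑ i, ‖∫ z, S.Ei J f g (b i) (u i) z ∂S.μ‖ ≤ lam * (l + 1) := by
  classical
  rcases Nat.eq_zero_or_pos J with hJ | hJ
  · subst hJ
    refine ⟨0, fun l _ S f mf f1 g mg g1 g0 b mb b1 u _ => ?_⟩
    have h1 : ∀ i, ∫ z, S.Ei 0 f g (b i) (u i) z ∂S.μ = 0 := by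
      intro i
      have h2 : ∀ z, S.Ei 0 f g (b i) (u i) z =
          (fun y => b i (S.σ y) * g y) (S.σ^[u i 0] z) := by
        intro z
        unfold TS.Ei
        simp only [Finset.range_zero, Finset.prod_empty, one_mul]
        rw [Function.iterate_succ_apply', mul_comm]
      simp only [h2]
      have m1 : Measurable (fun y => b i (S.σ y) * g y) := ((mb i).comp S.hσ).mul mg
      have b2 : ∀ y, ‖b i (S.σ y) * g y‖ ≤ 1 := fun y => by
        rw [norm_mul]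
        exact mul_le_one₀ (b1 i _) (norm_nonneg _) (g1 y)
      have h3 := S.int_iter (u i 0) m1 b2
      have h4 := S.int_P m1 b2
      have h5 : ∀ z, S.P (fun y => b i (S.σ y) * g y) z = 0 := fun z => by
        rw [S.P_pull g (b i) z, g0, mul_zero]
      rw [h3, ← h4]
      simp [h5]
    simp only [h1, norm_zero, Finset.sum_const_zero]
    positivity
  have hJR : (0 : ℝ) < J := by exact_mod_cast hJ
  obtain ⟨V, r, mr, hrV, hV1, hrδ⟩ := exists_round (lam / (4 * J)) (by positivity)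
  set s : ℝ := min 1 (lam / 4) with hs
  have hs0 : 0 < s := lt_min one_pos (by positivity)
  have hs1 : s ≤ 1 := min_le_left _ _
  have hs2 : s ≤ lam / 4 := min_le_right _ _
  obtain ⟨l0, hl0⟩ := exists_nat_gt ((J : ℝ) ^ 2 * Real.log V.card / s / (lam / 4))
  refine ⟨l0, fun l hl S f mf f1 g mg g1 g0 b mb b1 u hinj => ?_⟩
  have key := S.dec_fin J l hJ V hV1 (fun c z => r (f c z)) (fun c => mr.comp (mf c))
    (fun c z => hrV _ (f1 c z)) g mg g1 g0 b mb b1 u hinj s hs0 hs1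
  have hr1 : ∀ c z, ‖r (f c z)‖ ≤ 1 := fun c z => hV1 _ (hrV _ (f1 c z))
  have hdiff : ∀ i, ‖∫ z, S.Ei J f g (b i) (u i) z ∂S.μ‖ ≤
      ‖∫ z, S.Ei J (fun c z => r (f c z)) g (b i) (u i) z ∂S.μ‖ + lam / 4 := by
    intro i
    have hprob := S.prob
    have i1 := S.integrable_bddC (S.meas_Ei J mf mg (mb i) (u i))
      (S.norm_Ei J f1 g1 (b1 i) (u i))
    have i2 := S.integrable_bddC (S.meas_Ei J (f := fun c z => r (f c z))
      (fun c => mr.comp (mf c)) mg (mb i) (u i)) (S.norm_Ei J hr1 g1 (b1 i) (u i))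
    have h1 : ‖∫ z, S.Ei J f g (b i) (u i) z ∂S.μ -
        ∫ z, S.Ei J (fun c z => r (f c z)) g (b i) (u i) z ∂S.μ‖ ≤ lam / 4 := by
      rw [← integral_sub i1 i2]
      refine (norm_integral_le_of_norm_le_const (C := lam / 4)
        (Eventually.of_forall fun z => ?_)).trans ?_
      · unfold TS.Ei
        rw [← sub_mul, norm_mul]
        have h2 := prod_diff J (fun c => f c (S.σ^[u i c] z)) (fun c => r (f c (S.σ^[u i c] z)))
          (fun c => f1 c _) (fun c => hr1 c _) (lam / (4 * J)) (fun c => hrδ _ (f1 c _))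
        have h3 : ‖g (S.σ^[u i J] z) * b i (S.σ^[u i J + 1] z)‖ ≤ 1 := by
          rw [norm_mul]
          exact mul_le_one₀ (g1 _) (norm_nonneg _) (b1 i _)
        have h4 : (J : ℝ) * (lam / (4 * J)) = lam / 4 := by field_simp
        rw [h4] at h2
        calc _ ≤ lam / 4 * 1 := mul_le_mul h2 h3 (norm_nonneg _) (by positivity)
          _ = lam / 4 := mul_one _
      · simp
    have h2 := norm_le_norm_add_norm_sub' (∫ z, S.Ei J f g (b i) (u i) z ∂S.μ)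
      (∫ z, S.Ei J (fun c z => r (f c z)) g (b i) (u i) z ∂S.μ)
    linarith
  have hsum : ∑ i, ‖∫ z, S.Ei J f g (b i) (u i) z ∂S.μ‖ ≤
      ∑ i, ‖∫ z, S.Ei J (fun c z => r (f c z)) g (b i) (u i) z ∂S.μ‖ + (l + 1) * (lam / 4) := by
    refine (Finset.sum_le_sum fun i _ => hdiff i).trans ?_
    rw [Finset.sum_add_distrib, Finset.sum_const, Finset.card_univ, Fintype.card_fin, nsmul_eq_mul]
    push_cast
    exact le_rfl
  set Q := ∑ i, ‖∫ z, S.Ei J (fun c z => r (f c z)) g (b i) (u i) z ∂S.μ‖ with hQ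
  have hl1 : (l0 : ℝ) ≤ l := by exact_mod_cast hl
  have h1 : (J : ℝ) ^ 2 * Real.log V.card ≤ s * ((lam / 4) * (l + 1)) := by
    have h2 : (J : ℝ) ^ 2 * Real.log V.card / s / (lam / 4) < l + 1 := by linarith
    rw [div_lt_iff₀ (by positivity), div_lt_iff₀ hs0] at h2
    linarith
  have h2 : s * Q ≤ s * ((lam / 4) * (l + 1) + s * (l + 1)) := by
    calc s * Q ≤ _ := key
      _ ≤ s * ((lam / 4) * (l + 1)) + s ^ 2 * (l + 1) := by linarith
      _ = _ := by ring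
  have h3 := le_of_mul_le_mul_left h2 hs0
  have h4 : s * ((l : ℝ) + 1) ≤ lam / 4 * (l + 1) := mul_le_mul_of_nonneg_right hs2 (by positivity)
  nlinarith [hlam, (Nat.cast_nonneg l : (0 : ℝ) ≤ l)]

end Pool.Agent.N709
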