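import Mathlib
import Pool.Agent.N709.Dec

/-! No nonnegative sines along separated sums. -/

set_option autoImplicit false
open MeasureTheory Finset Filter Topology
open scoped ENNReal

namespace Pool.Agent.N709

lemma prod_telescope (R : ℕ) (a h : ℕ → ℂ) :
    ∏ c ∈ range R, a c - ∏ c ∈ range R, h c =
      ∑ j ∈ range R, (∏ c ∈ range j, a c) * (a j - h j) * ∏ c ∈ Finset.Ico (j + 1) R, h c := by
  induction R with
  | zero => simp
  | succ R ih =>
    rw [Finset.prod_range_succ, Finset.prod_range_succ, Finset.sum_range_succ]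
    have h1 : ∑ j ∈ range R, (∏ c ∈ range j, a c) * (a j - h j) *
        ∏ c ∈ Finset.Ico (j + 1) (R + 1), h c =
        (∑ j ∈ range R, (∏ c ∈ range j, a c) * (a j - h j) *
          ∏ c ∈ Finset.Ico (j + 1) R, h c) * h R := by
      rw [Finset.sum_mul]
      refine Finset.sum_congr rfl fun j hj => ?_
      rw [Finset.prod_Ico_succ_top (by have := Finset.mem_range.1 hj; omega)]
      ring
    rw [h1, ← ih, Finset.Ico_self, Finset.prod_empty]
    ring

namespace TS

variable {X ι : Type} [MeasurableSpace X] [Fintype ι] (S : TS X ι)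

open Classical in
/-- indicator of `act` or of its complement -/
noncomputable def chi (act : Set X) (b : Bool) (z : X) : ℝ :=
  if (z ∈ act ↔ b = true) then 1 else 0

lemma chi_nonneg (act : Set X) (b : Bool) (z : X) : 0 ≤ chi act b z := by
  unfold chi
  split_ifs <;> norm_num

lemma chi_le_one (act : Set X) (b : Bool) (z : X) : chi act b z ≤ 1 := by
  unfold chi
  split_ifs <;> norm_num

lemma meas_chi {act : Set X} (hact : MeasurableSet act) (b : Bool) :
    Measurable (chi act b) := by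
  classical
  unfold chi
  cases b
  · have h : {z : X | (z ∈ act ↔ false = true)} = actᶜ := by
      ext z
      simp
    refine Measurable.ite ?_ measurable_const measurable_const
    rw [h]
    exact hact.compl
  · have h : {z : X | (z ∈ act ↔ true = true)} = act := by
      ext z
      simp
    refine Measurable.ite ?_ measurable_const measurable_const
    rw [h]
    exact hact

/-- the factors -/
noncomputable def FF (e : X → ℂ) (act : Set X) (C : ℕ → Bool) (K : ℕ → ℕ) (c : ℕ) : X → ℂ :=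
  fun z => ((chi act (C c) (S.σ z) : ℝ) : ℂ) * e z ^ K c

/-- their conditional expectations -/
noncomputable def HH (e : X → ℂ) (act : Set X) (C : ℕ → Bool) (K : ℕ → ℕ) (c : ℕ) : X → ℂ :=
  fun z => if C c = true then S.P (S.FF e act C K c) (S.σ z) else S.FF e act C K c z

section

variable {e : X → ℂ} (me : Measurable e) (e1 : ∀ z, ‖e z‖ = 1) {act : Set X}
  (mact : MeasurableSet act)

include me mact in
lemma meas_FF (C : ℕ → Bool) (K : ℕ → ℕ) (c : ℕ) : Measurable (S.FF e act C K c) :=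
  (Complex.measurable_ofReal.comp ((meas_chi mact _).comp S.hσ)).mul (me.pow_const _)

include me mact in
lemma meas_HH (C : ℕ → Bool) (K : ℕ → ℕ) (c : ℕ) : Measurable (S.HH e act C K c) := by
  unfold HH
  by_cases h : C c = true
  · simp only [h, if_true]
    exact (S.meas_P (S.meas_FF me mact C K c)).comp S.hσ
  · simp only [h, if_false]
    exact S.meas_FF me mact C K c

include e1 in
lemma norm_FF_eq (C : ℕ → Bool) (K : ℕ → ℕ) (c : ℕ) (z : X) :
    ‖S.FF e act C K c z‖ = chi act (C c) (S.σ z) := by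
  unfold FF
  rw [norm_mul, norm_pow, e1, one_pow, mul_one, Complex.norm_real, Real.norm_eq_abs,
    abs_of_nonneg (chi_nonneg _ _ _)]

include e1 in
lemma norm_FF (C : ℕ → Bool) (K : ℕ → ℕ) (c : ℕ) (z : X) : ‖S.FF e act C K c z‖ ≤ 1 := by
  rw [S.norm_FF_eq e1]
  exact chi_le_one _ _ _

include e1 in
lemma norm_HH (C : ℕ → Bool) (K : ℕ → ℕ) (c : ℕ) (z : X) : ‖S.HH e act C K c z‖ ≤ 1 := by
  unfold HH
  split_ifs
  · exact S.P_norm_le (S.norm_FF e1 C K c) _
  · exact S.norm_FF e1 C K c z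

lemma P_FF (C : ℕ → Bool) (K : ℕ → ℕ) (c : ℕ) (z : X) : S.P (S.FF e act C K c) z =
    ((chi act (C c) z : ℝ) : ℂ) * S.P (fun y => e y ^ K c) z :=
  S.P_pull (fun y => e y ^ K c) (fun y => ((chi act (C c) y : ℝ) : ℂ)) z

include e1 in
lemma norm_HH_le {κ0 : ℝ} (hκ0 : 0 ≤ κ0)
    (hκ : ∀ u : ℕ, ¬ 3 ∣ u → ∀ z ∈ act, ‖S.P (fun y => e y ^ u) z‖ ≤ κ0)
    (C : ℕ → Bool) (K : ℕ → ℕ) (c : ℕ) (hK : ¬ 3 ∣ K c) (z : X) :
    ‖S.HH e act C K c z‖ ≤ (if C c = true then κ0 else 1) * chi act (C c) (S.σ z) := by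
  unfold HH
  split_ifs with h
  · rw [S.P_FF, norm_mul, Complex.norm_real, Real.norm_eq_abs, abs_of_nonneg (chi_nonneg _ _ _),
      mul_comm]
    by_cases h2 : S.σ z ∈ act
    · exact mul_le_mul_of_nonneg_right (hκ _ hK _ h2) (chi_nonneg _ _ _)
    · have h3 : chi act (C c) (S.σ z) = 0 := by
        unfold chi
        rw [if_neg]
        rw [h]
        simpa using h2
      rw [h3]
      simp
  · rw [S.norm_FF_eq e1, one_mul]

/-- the weight -/
noncomputable def WW (act : Set X) (R : ℕ) (C : ℕ → Bool) (u : ℕ → ℕ) : X → ℝ :=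
  fun z => ∏ c ∈ range R, chi act (C c) (S.σ^[u c + 1] z)

include mact in
lemma meas_WW (R : ℕ) (C : ℕ → Bool) (u : ℕ → ℕ) : Measurable (S.WW act R C u) :=
  Finset.measurable_prod _ fun c _ => (meas_chi mact _).comp (S.hσ.iterate _)

lemma WW_nonneg (R : ℕ) (C : ℕ → Bool) (u : ℕ → ℕ) (z : X) : 0 ≤ S.WW act R C u z :=
  Finset.prod_nonneg fun _ _ => chi_nonneg _ _ _

lemma WW_le_one (R : ℕ) (C : ℕ → Bool) (u : ℕ → ℕ) (z : X) : S.WW act R C u z ≤ 1 :=
  Finset.prod_le_one (fun _ _ => chi_nonneg _ _ _) fun _ _ => chi_le_one _ _ _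

lemma WW_abs (R : ℕ) (C : ℕ → Bool) (u : ℕ → ℕ) (z : X) : |S.WW act R C u z| ≤ 1 := by
  rw [abs_of_nonneg (S.WW_nonneg R C u z)]
  exact S.WW_le_one R C u z

include me e1 mact in
/-- the correlations of one pattern -/
lemma pattern {κ0 : ℝ} (hκ0 : 0 ≤ κ0) (hκ1 : κ0 ≤ 1)
    (hκ : ∀ u : ℕ, ¬ 3 ∣ u → ∀ z ∈ act, ‖S.P (fun y => e y ^ u) z‖ ≤ κ0)
    (R l p : ℕ) (lam : ℝ)
    (hdec : ∀ J < R, ∀ (f : ℕ → X → ℂ)
      (_ : ∀ c, Measurable (f c)) (_ : ∀ c z, ‖f c z‖ ≤ 1) (g : X → ℂ) (_ : Measurable g)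
      (_ : ∀ z, ‖g z‖ ≤ 1) (_ : ∀ z, S.P g z = 0) (b : Fin (l + 1) → X → ℂ)
      (_ : ∀ i, Measurable (b i)) (_ : ∀ i z, ‖b i z‖ ≤ 1) (u : Fin (l + 1) → ℕ → ℕ)
      (_ : ∀ a a' : Fin (l + 1) → ℕ, (∀ k, a k ≤ J) → (∀ k, a' k ≤ J) →
        ∑ k, u k (a k) = ∑ k, u k (a' k) → a = a'),
      ∑ i, ‖∫ z, S.Ei J f g (b i) (u i) z ∂S.μ‖ ≤ lam * (l + 1))
    (u : Fin (l + 1) → ℕ → ℕ) (hu : ∀ i, ∀ c' ≤ R, ∀ c < c', u i c < u i c')
    (hinj : ∀ a a' : Fin (l + 1) → ℕ, (∀ k, a k ≤ R) → (∀ k, a' k ≤ R) →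
        ∑ k, u k (a k) = ∑ k, u k (a' k) → a = a')
    (C : ℕ → Bool) (hC : p ≤ ((range R).filter (fun c => C c = true)).card)
    (K : ℕ → ℕ) (hK : ∀ c < R, ¬ 3 ∣ K c) (b : Fin (l + 1) → X → ℂ)
    (mb : ∀ i, Measurable (b i)) (b1 : ∀ i z, ‖b i z‖ ≤ 1) :
    ∑ i, ‖∫ z, (∏ c ∈ range R, S.FF e act C K c (S.σ^[u i c] z)) * b i (S.σ^[u i R] z) ∂S.μ‖ ≤
      κ0 ^ p * ∑ i, ∫ z, S.WW act R C (u i) z ∂S.μ + R * (2 * (lam * (l + 1))) := by
  classical
  have hprob := S.prob
  set F := S.FF e act C K with hF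
  set H := S.HH e act C K with hH
  have mF : ∀ c, Measurable (F c) := S.meas_FF me mact C K
  have mH : ∀ c, Measurable (H c) := S.meas_HH me mact C K
  have F1 : ∀ c z, ‖F c z‖ ≤ 1 := S.norm_FF e1 C K
  have H1 : ∀ c z, ‖H c z‖ ≤ 1 := S.norm_HH e1 C K
  set G : ℕ → X → ℂ := fun c z => (1 / 2 : ℝ) • (F c z - H c z) with hG
  have mG : ∀ c, Measurable (G c) := fun c => by
    have h1 : Measurable fun z => F c z - H c z := (mF c).sub (mH c)
    exact h1.const_smul (1 / 2 : ℝ)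
  have G1 : ∀ c z, ‖G c z‖ ≤ 1 := by
    intro c z
    simp only [hG]
    rw [norm_smul, Real.norm_eq_abs, abs_of_pos (by norm_num)]
    have := norm_sub_le (F c z) (H c z)
    have := F1 c z
    have := H1 c z
    linarith
  have G0 : ∀ c z, S.P (G c) z = 0 := by
    intro c z
    simp only [hG]
    rw [S.P_smul, S.P_sub]
    by_cases h : C c = true
    · have h1 : H c = fun z => S.P (F c) (S.σ z) := by
        funext z
        simp only [hH, HH, h, if_true]
        rfl
      rw [h1, S.P_comp, sub_self, smul_zero]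
    · have h1 : H c = F c := by
        funext z
        simp only [hH, HH, if_neg h]
        rfl
      rw [h1, sub_self, smul_zero]
  -- the deeper factors
  set B : ℕ → Fin (l + 1) → X → ℂ := fun j i y =>
    (∏ c ∈ Finset.Ico (j + 1) R, H c (S.σ^[u i c - (u i j + 1)] y)) *
      b i (S.σ^[u i R - (u i j + 1)] y) with hB
  have mB : ∀ j i, Measurable (B j i) := fun j i =>
    (Finset.measurable_prod _ fun c _ => (mH c).comp (S.hσ.iterate _)).mul
      ((mb i).comp (S.hσ.iterate _))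
  have B1 : ∀ j i z, ‖B j i z‖ ≤ 1 := by
    intro j i z
    simp only [hB]
    rw [norm_mul]
    exact mul_le_one₀ (norm_prod_le_one _ _ fun c _ => H1 c _) (norm_nonneg _) (b1 i _)
  have hcomp : ∀ (i : Fin (l + 1)) (j c : ℕ), j < c → c ≤ R → ∀ z,
      S.σ^[u i c - (u i j + 1)] (S.σ^[u i j + 1] z) = S.σ^[u i c] z := by
    intro i j c hjc hc z
    rw [← Function.iterate_add_apply]
    congr 1
    have := hu i c hc j hjc
    omega
  have hterm : ∀ i, ∀ j < R, ∀ z, (∏ c ∈ range j, F c (S.σ^[u i c] z)) *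
      (F j (S.σ^[u i j] z) - H j (S.σ^[u i j] z)) *
      (∏ c ∈ Finset.Ico (j + 1) R, H c (S.σ^[u i c] z)) * b i (S.σ^[u i R] z) =
      (2 : ℂ) * S.Ei j F (G j) (B j i) (u i) z := by
    intro i j hj z
    unfold Ei
    have h1 : B j i (S.σ^[u i j + 1] z) = (∏ c ∈ Finset.Ico (j + 1) R, H c (S.σ^[u i c] z)) *
        b i (S.σ^[u i R] z) := by
      simp only [hB]
      rw [hcomp i j R hj le_rfl]
      congr 1
      refine Finset.prod_congr rfl fun c hc => ?_
      have h2 := Finset.mem_Ico.1 hc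
      rw [hcomp i j c (by omega) (by omega)]
    rw [h1]
    simp only [hG, Complex.real_smul]
    push_cast
    ring
  set Q : Fin (l + 1) → X → ℂ := fun i z =>
    (∏ c ∈ range R, H c (S.σ^[u i c] z)) * b i (S.σ^[u i R] z) with hQ
  have mQ : ∀ i, Measurable (Q i) := fun i =>
    (Finset.measurable_prod _ fun c _ => (mH c).comp (S.hσ.iterate _)).mul
      ((mb i).comp (S.hσ.iterate _))
  have Q1 : ∀ i z, ‖Q i z‖ ≤ 1 := by
    intro i z
    simp only [hQ]
    rw [norm_mul]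
    exact mul_le_one₀ (norm_prod_le_one _ _ fun c _ => H1 c _) (norm_nonneg _) (b1 i _)
  have hsplit : ∀ i z, (∏ c ∈ range R, F c (S.σ^[u i c] z)) * b i (S.σ^[u i R] z) =
      Q i z + ∑ j ∈ range R, (2 : ℂ) * S.Ei j F (G j) (B j i) (u i) z := by
    intro i z
    have h1 := prod_telescope R (fun c => F c (S.σ^[u i c] z)) (fun c => H c (S.σ^[u i c] z))
    have h2 : ∑ j ∈ range R, (2 : ℂ) * S.Ei j F (G j) (B j i) (u i) z =
        (∑ j ∈ range R, (∏ c ∈ range j, F c (S.σ^[u i c] z)) *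
          (F j (S.σ^[u i j] z) - H j (S.σ^[u i j] z)) *
          ∏ c ∈ Finset.Ico (j + 1) R, H c (S.σ^[u i c] z)) * b i (S.σ^[u i R] z) := by
      rw [Finset.sum_mul]
      refine Finset.sum_congr rfl fun j hj => ?_
      rw [← hterm i j (Finset.mem_range.1 hj) z]
    rw [h2, ← h1]
    simp only [hQ]
    ring
  have mE : ∀ j i, Measurable (S.Ei j F (G j) (B j i) (u i)) := fun j i =>
    S.meas_Ei j mF (mG j) (mB j i) (u i)
  have bE : ∀ j i z, ‖S.Ei j F (G j) (B j i) (u i) z‖ ≤ 1 := fun j i =>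
    S.norm_Ei j F1 (G1 j) (B1 j i) (u i)
  have hint : ∀ i, ‖∫ z, (∏ c ∈ range R, F c (S.σ^[u i c] z)) * b i (S.σ^[u i R] z) ∂S.μ‖ ≤
      κ0 ^ p * ∫ z, S.WW act R C (u i) z ∂S.μ +
        ∑ j ∈ range R, 2 * ‖∫ z, S.Ei j F (G j) (B j i) (u i) z ∂S.μ‖ := by
    intro i
    simp only [hsplit]
    rw [integral_add (S.integrable_bddC (mQ i) (Q1 i))
      (integrable_finsetSum _ fun j _ => (S.integrable_bddC (mE j i) (bE j i)).const_mul _),
      integral_finsetSum _ fun j _ => (S.integrable_bddC (mE j i) (bE j i)).const_mul _]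
    refine (norm_add_le _ _).trans (add_le_add ?_ ?_)
    · refine (norm_integral_le_integral_norm _).trans ?_
      rw [← integral_const_mul]
      refine integral_mono_of_nonneg (Eventually.of_forall fun z => norm_nonneg _)
        ((S.integrable_bdd (S.meas_WW mact R C (u i)) (S.WW_abs R C (u i))).const_mul _)
        (Eventually.of_forall fun z => ?_)
      simp only [hQ]
      rw [norm_mul, norm_prod]
      have h1 : ∏ c ∈ range R, ‖H c (S.σ^[u i c] z)‖ ≤
          ∏ c ∈ range R, ((if C c = true then κ0 else 1) * chi act (C c) (S.σ^[u i c + 1] z)) := by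
        refine Finset.prod_le_prod (fun _ _ => norm_nonneg _) fun c hc => ?_
        have h2 := S.norm_HH_le e1 hκ0 hκ C K c (hK c (Finset.mem_range.1 hc)) (S.σ^[u i c] z)
        rwa [← Function.iterate_succ_apply' S.σ (u i c) z] at h2
      have h2 : ∏ c ∈ range R, (if C c = true then κ0 else 1) ≤ κ0 ^ p := by
        rw [Finset.prod_ite, Finset.prod_const, Finset.prod_const_one, mul_one]
        exact pow_le_pow_of_le_one hκ0 hκ1 hC
      rw [Finset.prod_mul_distrib] at h1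
      have h3 : 0 ≤ S.WW act R C (u i) z := S.WW_nonneg R C (u i) z
      have h4 : ∏ c ∈ range R, ‖H c (S.σ^[u i c] z)‖ ≤ κ0 ^ p * S.WW act R C (u i) z :=
        h1.trans (mul_le_mul_of_nonneg_right h2 h3)
      calc _ ≤ (κ0 ^ p * S.WW act R C (u i) z) * 1 :=
            mul_le_mul h4 (b1 i _) (norm_nonneg _) (by positivity)
        _ = _ := mul_one _
    · refine (norm_sum_le _ _).trans (Finset.sum_le_sum fun j _ => ?_)
      rw [integral_const_mul, norm_mul]
      simp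
  calc _ ≤ ∑ i, (κ0 ^ p * ∫ z, S.WW act R C (u i) z ∂S.μ +
        ∑ j ∈ range R, 2 * ‖∫ z, S.Ei j F (G j) (B j i) (u i) z ∂S.μ‖) :=
        Finset.sum_le_sum fun i _ => hint i
    _ = κ0 ^ p * ∑ i, ∫ z, S.WW act R C (u i) z ∂S.μ +
        ∑ j ∈ range R, 2 * ∑ i, ‖∫ z, S.Ei j F (G j) (B j i) (u i) z ∂S.μ‖ := by
        rw [Finset.sum_add_distrib, ← Finset.mul_sum, Finset.sum_comm]
        congr 1
        refine Finset.sum_congr rfl fun j _ => ?_
        rw [Finset.mul_sum]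
    _ ≤ κ0 ^ p * ∑ i, ∫ z, S.WW act R C (u i) z ∂S.μ +
        ∑ j ∈ range R, 2 * (lam * (l + 1)) := by
        refine add_le_add le_rfl (Finset.sum_le_sum fun j hj => ?_)
        have hjR := Finset.mem_range.1 hj
        refine mul_le_mul_of_nonneg_left ?_ (by norm_num)
        exact hdec j hjR F mF F1 (G j) (mG j) (G1 j) (G0 j) (B j) (mB j) (B1 j) u
          (fun a a' ha ha' h => hinj a a' (fun k => (ha k).trans hjR.le)
            (fun k => (ha' k).trans hjR.le) h)
    _ = _ := by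
        rw [Finset.sum_const, Finset.card_range, nsmul_eq_mul]

end

end TS

end Pool.Agent.N709
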