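import Mathlib
import Pool.Agent.N709.Mm

/-! No nonnegative sines along separated sums: conclusion. -/

set_option autoImplicit false
open MeasureTheory Finset Filter Topology
open scoped ENNReal

namespace Pool.Agent.N709

namespace TS

variable {X ι : Type} [MeasurableSpace X] [Fintype ι] (S : TS X ι)

section

variable {e : X → ℂ} (me : Measurable e) (e1 : ∀ z, ‖e z‖ = 1) {act : Set X}
  (mact : MeasurableSet act)

/-- the products -/
noncomputable def xx (e : X → ℂ) (R : ℕ) (K : ℕ → ℕ) (b : X → ℂ) (u : ℕ → ℕ) : X → ℂ :=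
  fun z => (∏ c ∈ range R, e (S.σ^[u c] z) ^ K c) * b (S.σ^[u R] z)

lemma FF_prod (R : ℕ) (C : ℕ → Bool) (K : ℕ → ℕ) (b : X → ℂ) (u : ℕ → ℕ) (z : X) :
    (∏ c ∈ range R, S.FF e act C K c (S.σ^[u c] z)) * b (S.σ^[u R] z) =
      ((S.WW act R C u z : ℝ) : ℂ) * S.xx e R K b u z := by
  unfold FF WW xx
  rw [Finset.prod_mul_distrib]
  push_cast
  rw [mul_assoc]
  congr 1
  refine Finset.prod_congr rfl fun c _ => ?_
  rw [Function.iterate_succ_apply']

lemma xx_sq (R : ℕ) (K : ℕ → ℕ) (b : X → ℂ) (u : ℕ → ℕ) (z : X) :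
    S.xx e R (fun c => 2 * K c) (fun z => b z ^ 2) u z = S.xx e R K b u z ^ 2 := by
  unfold xx
  rw [mul_pow, ← Finset.prod_pow]
  congr 1
  refine Finset.prod_congr rfl fun c _ => ?_
  show e (S.σ^[u c] z) ^ (2 * K c) = (e (S.σ^[u c] z) ^ K c) ^ 2
  rw [← pow_mul, mul_comm 2]

include e1 in
lemma norm_xx (R : ℕ) (K : ℕ → ℕ) {b : X → ℂ} (b1 : ∀ z, ‖b z‖ = 1) (u : ℕ → ℕ) (z : X) :
    ‖S.xx e R K b u z‖ = 1 := by
  unfold xx
  rw [norm_mul, norm_prod, b1, mul_one]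
  refine Finset.prod_eq_one fun c _ => ?_
  rw [norm_pow, e1, one_pow]

include me in
lemma meas_xx (R : ℕ) (K : ℕ → ℕ) {b : X → ℂ} (mb : Measurable b) (u : ℕ → ℕ) :
    Measurable (S.xx e R K b u) :=
  (Finset.measurable_prod _ fun c _ => (me.comp (S.hσ.iterate _)).pow_const _).mul
    (mb.comp (S.hσ.iterate _))

include me e1 mact in
lemma half (R : ℕ) (C : ℕ → Bool) (K : ℕ → ℕ) {b : X → ℂ} (mb : Measurable b)
    (b1 : ∀ z, ‖b z‖ = 1) (u : ℕ → ℕ) (him : ∀ᵐ z ∂S.μ, 0 ≤ (S.xx e R K b u z).im) :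
    1 / 2 * ∫ z, S.WW act R C u z ∂S.μ ≤
      ‖∫ z, (∏ c ∈ range R, S.FF e act C K c (S.σ^[u c] z)) * b (S.σ^[u R] z) ∂S.μ‖ +
      1 / 2 * ‖∫ z, (∏ c ∈ range R, S.FF e act C (fun c => 2 * K c) c (S.σ^[u c] z)) *
        (fun z => b z ^ 2) (S.σ^[u R] z) ∂S.μ‖ := by
  have hprob := S.prob
  have h1 : ∀ z, (∏ c ∈ range R, S.FF e act C K c (S.σ^[u c] z)) * b (S.σ^[u R] z) =
      ((S.WW act R C u z : ℝ) : ℂ) * S.xx e R K b u z := fun z => S.FF_prod R C K b u z
  have h2 : ∀ z, (∏ c ∈ range R, S.FF e act C (fun c => 2 * K c) c (S.σ^[u c] z)) *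
        (fun z => b z ^ 2) (S.σ^[u R] z) =
      ((S.WW act R C u z : ℝ) : ℂ) * S.xx e R K b u z ^ 2 := fun z => by
    rw [S.FF_prod R C (fun c => 2 * K c) (fun z => b z ^ 2) u z, S.xx_sq]
  simp only [h1, h2]
  set W := S.WW act R C u with hW
  set x := S.xx e R K b u with hx
  have mW : Measurable W := S.meas_WW mact R C u
  have mx : Measurable x := S.meas_xx me R K mb u
  have W0 : ∀ z, 0 ≤ W z := S.WW_nonneg R C u
  have W1 : ∀ z, |W z| ≤ 1 := S.WW_abs R C u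
  have x1 : ∀ z, ‖x z‖ = 1 := S.norm_xx e1 R K b1 u
  have mWx : Measurable fun z => ((W z : ℝ) : ℂ) * x z :=
    (Complex.measurable_ofReal.comp mW).mul mx
  have mWx2 : Measurable fun z => ((W z : ℝ) : ℂ) * x z ^ 2 :=
    (Complex.measurable_ofReal.comp mW).mul (mx.pow_const 2)
  have bWx : ∀ z, ‖((W z : ℝ) : ℂ) * x z‖ ≤ 1 := fun z => by
    rw [norm_mul, x1, mul_one, Complex.norm_real]
    exact W1 z
  have bWx2 : ∀ z, ‖((W z : ℝ) : ℂ) * x z ^ 2‖ ≤ 1 := fun z => by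
    rw [norm_mul, norm_pow, x1, one_pow, mul_one, Complex.norm_real]
    exact W1 z
  have i1 := S.integrable_bddC mWx bWx
  have i2 := S.integrable_bddC mWx2 bWx2
  have i1' : Integrable (fun z => (((W z : ℝ) : ℂ) * x z).im) S.μ := i1.im
  have i2' : Integrable (fun z => (((W z : ℝ) : ℂ) * x z ^ 2).re) S.μ := i2.re
  have hpt : ∀ᵐ z ∂S.μ, 1 / 2 * W z ≤ (((W z : ℝ) : ℂ) * x z).im +
      1 / 2 * (((W z : ℝ) : ℂ) * x z ^ 2).re := by
    filter_upwards [him] with z hz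
    rw [Complex.im_ofReal_mul, Complex.re_ofReal_mul]
    have h3 : (x z).re ^ 2 + (x z).im ^ 2 = 1 := by
      have h4 := Complex.sq_norm (x z)
      rw [x1, Complex.normSq_apply] at h4
      nlinarith
    have h5 : (x z ^ 2).re = (x z).re ^ 2 - (x z).im ^ 2 := by
      rw [pow_two, Complex.mul_re]
      ring
    rw [h5]
    have h6 : (x z).im ≤ 1 := by nlinarith [sq_nonneg (x z).re]
    have h7 : (x z).im ^ 2 ≤ (x z).im := by
      have h8 : 0 ≤ (x z).im := hz
      nlinarith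
    have h9 := W0 z
    nlinarith
  have hint : ∫ z, 1 / 2 * W z ∂S.μ ≤ ∫ z, ((((W z : ℝ) : ℂ) * x z).im +
      1 / 2 * (((W z : ℝ) : ℂ) * x z ^ 2).re) ∂S.μ :=
    integral_mono_ae ((S.integrable_bdd mW W1).const_mul _)
      (i1'.add (i2'.const_mul _)) hpt
  rw [integral_const_mul, integral_add i1' (i2'.const_mul _), integral_const_mul] at hint
  have e3 : ∫ z, (((W z : ℝ) : ℂ) * x z).im ∂S.μ = (∫ z, ((W z : ℝ) : ℂ) * x z ∂S.μ).im := by
    have := integral_im (𝕜 := ℂ) i1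
    simpa using this
  have e4 : ∫ z, (((W z : ℝ) : ℂ) * x z ^ 2).re ∂S.μ =
      (∫ z, ((W z : ℝ) : ℂ) * x z ^ 2 ∂S.μ).re := by
    have := integral_re (𝕜 := ℂ) i2
    simpa using this
  rw [e3, e4] at hint
  have h3 := (le_abs_self _).trans (Complex.abs_im_le_norm (∫ z, ((W z : ℝ) : ℂ) * x z ∂S.μ))
  have h4 := (le_abs_self _).trans (Complex.abs_re_le_norm (∫ z, ((W z : ℝ) : ℂ) * x z ^ 2 ∂S.μ))
  linarith

end

open Classical in
/-- the total weight of the patterns with many active classes is large -/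
lemma weight_large {act : Set X} (mact : MeasurableSet act) {ρ : ℝ} (hρ : ρ ≤ S.μ.real act)
    (R p : ℕ) (u : ℕ → ℕ) :
    (R : ℝ) * ρ - p ≤ R * ∑ C ∈ (Finset.univ : Finset (Fin R → Bool)).filter
      (fun C => p ≤ (Finset.univ.filter (fun c => C c = true)).card),
      ∫ z, S.WW act R (fun c => if h : c < R then C ⟨c, h⟩ else false) u z ∂S.μ := by
  have hprob := S.prob
  set ext : (Fin R → Bool) → ℕ → Bool := fun C c => if h : c < R then C ⟨c, h⟩ else false with hext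
  set cnt : (Fin R → Bool) → ℕ := fun C => (Finset.univ.filter (fun c => C c = true)).card with hcnt
  set Cz : X → Fin R → Bool := fun z c => decide (S.σ^[u c + 1] z ∈ act) with hCz
  have hCt : ∀ z c, Cz z c = true ↔ S.σ^[u c + 1] z ∈ act := fun z c => by
    simp only [hCz]
    exact decide_eq_true_iff
  have hW : ∀ C z, S.WW act R (ext C) u z = if C = Cz z then 1 else 0 := by
    intro C z
    unfold WW
    rw [Finset.prod_range]
    have h1 : ∀ c : Fin R, ext C c = C c := fun c => by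
      simp [hext]
    simp only [h1]
    split_ifs with h
    · refine Finset.prod_eq_one fun c _ => ?_
      unfold chi
      rw [if_pos]
      rw [h]
      exact (hCt z c).symm
    · obtain ⟨c, hc⟩ := Function.ne_iff.1 h
      refine Finset.prod_eq_zero (Finset.mem_univ c) ?_
      unfold chi
      rw [if_neg]
      intro h2
      apply hc
      rw [Bool.eq_iff_iff, hCt]
      exact h2.symm
  set D := (Finset.univ : Finset (Fin R → Bool)).filter (fun C => p ≤ cnt C) with hD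
  -- the pointwise inequality
  have hpt : ∀ z, ∑ c : Fin R, chi act true (S.σ^[u c + 1] z) ≤
      R * ∑ C ∈ D, S.WW act R (ext C) u z + p := by
    intro z
    have h1 : ∑ c : Fin R, chi act true (S.σ^[u c + 1] z) = (cnt (Cz z) : ℝ) := by
      simp only [hcnt]
      rw [Finset.card_filter]
      push_cast
      refine Finset.sum_congr rfl fun c _ => ?_
      unfold chi
      simp only [hCt, iff_true]
    rw [h1]
    simp only [hW]
    rw [Finset.sum_ite_eq']
    have h2 : cnt (Cz z) ≤ R := by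
      simp only [hcnt]
      refine (Finset.card_filter_le _ _).trans ?_
      simp
    by_cases h3 : Cz z ∈ D
    · rw [if_pos h3, mul_one]
      have h4 : (cnt (Cz z) : ℝ) ≤ R := by exact_mod_cast h2
      have h5 : (0 : ℝ) ≤ p := Nat.cast_nonneg _
      linarith
    · rw [if_neg h3, mul_zero, zero_add]
      have h4 : ¬ p ≤ cnt (Cz z) := fun h => h3 (Finset.mem_filter.2 ⟨Finset.mem_univ _, h⟩)
      have h5 : cnt (Cz z) ≤ p := by omega
      exact_mod_cast h5
  have mchi : Measurable (chi act true) := meas_chi mact true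
  have bchi : ∀ z, |chi act true z| ≤ 1 := fun z => by
    rw [abs_of_nonneg (chi_nonneg _ _ _)]
    exact chi_le_one _ _ _
  have i1 : ∀ c : Fin R, Integrable (fun z => chi act true (S.σ^[u c + 1] z)) S.μ := fun c =>
    S.integrable_bdd (mchi.comp (S.hσ.iterate _)) (fun z => bchi _)
  have i2 : ∀ C, Integrable (fun z => S.WW act R (ext C) u z) S.μ := fun C =>
    S.integrable_bdd (S.meas_WW mact R _ u) (S.WW_abs R _ u)
  have hint : ∫ z, ∑ c : Fin R, chi act true (S.σ^[u c + 1] z) ∂S.μ ≤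
      ∫ z, (R * ∑ C ∈ D, S.WW act R (ext C) u z + p) ∂S.μ :=
    integral_mono (integrable_finsetSum _ fun c _ => i1 c)
      (((integrable_finsetSum _ fun C _ => i2 C).const_mul _).add (integrable_const _)) hpt
  rw [integral_finsetSum _ fun c _ => i1 c, integral_add
    ((integrable_finsetSum _ fun C _ => i2 C).const_mul _) (integrable_const _),
    integral_const_mul, integral_finsetSum _ fun C _ => i2 C] at hint
  have e1 : ∀ c : Fin R, ∫ z, chi act true (S.σ^[u c + 1] z) ∂S.μ = S.μ.real act := by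
    intro c
    rw [S.int_iter' (u c + 1) mchi bchi]
    have h1 : chi act true = act.indicator (fun _ => (1 : ℝ)) := by
      funext z
      unfold chi
      by_cases h : z ∈ act <;> simp [h]
    rw [h1, integral_indicator mact]
    simp
  simp only [e1] at hint
  rw [Finset.sum_const, Finset.card_univ, Fintype.card_fin, nsmul_eq_mul] at hint
  simp only [integral_const, probReal_univ, smul_eq_mul, one_mul] at hint
  have h2 : (R : ℝ) * ρ ≤ R * S.μ.real act := mul_le_mul_of_nonneg_left hρ (Nat.cast_nonneg _)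
  linarith

end TS

/-- **Theorem M.** -/
theorem thmM (X ι : Type) [MeasurableSpace X] [Fintype ι] (ρ κ0 : ℝ) (hρ : 0 < ρ) (hκ0 : 0 ≤ κ0)
    (hκ1 : κ0 < 1) : ∃ R l : ℕ, ∀ (S : TS X ι) (e : X → ℂ) (_ : Measurable e)
      (_ : ∀ z, ‖e z‖ = 1) (act : Set X) (_ : MeasurableSet act) (_ : ρ ≤ S.μ.real act)
      (_ : ∀ u : ℕ, ¬ 3 ∣ u → ∀ z ∈ act, ‖S.P (fun y => e y ^ u) z‖ ≤ κ0)
      (u : Fin (l + 1) → ℕ → ℕ) (_ : ∀ i, ∀ c' ≤ R, ∀ c < c', u i c < u i c')
      (_ : ∀ a a' : Fin (l + 1) → ℕ, (∀ k, a k ≤ R) → (∀ k, a' k ≤ R) →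
        ∑ k, u k (a k) = ∑ k, u k (a' k) → a = a')
      (K : ℕ → ℕ) (_ : ∀ c < R, ¬ 3 ∣ K c) (b : Fin (l + 1) → X → ℂ)
      (_ : ∀ i, Measurable (b i)) (_ : ∀ i z, ‖b i z‖ = 1),
      ¬ ∀ i, ∀ᵐ z ∂S.μ, 0 ≤ (S.xx e R K (b i) (u i) z).im := by
  classical
  obtain ⟨p, hp⟩ := exists_pow_lt_of_lt_one (by norm_num : (0 : ℝ) < 1 / 6) hκ1
  obtain ⟨R, hR⟩ := exists_nat_gt (max (2 * p / ρ) 0)
  have hR1 : 2 * p / ρ < R := (le_max_left _ _).trans_lt hR
  have hR0 : (0 : ℝ) < R := (le_max_right _ _).trans_lt hR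
  set lam : ℝ := ρ / (2 ^ R * 48 * R) with hlam
  have hlam0 : 0 < lam := by positivity
  have hl : ∀ J, ∃ l0 : ℕ, ∀ l, l0 ≤ l → ∀ (S : TS X ι) (f : ℕ → X → ℂ)
      (_ : ∀ c, Measurable (f c)) (_ : ∀ c z, ‖f c z‖ ≤ 1) (g : X → ℂ) (_ : Measurable g)
      (_ : ∀ z, ‖g z‖ ≤ 1) (_ : ∀ z, S.P g z = 0) (b : Fin (l + 1) → X → ℂ)
      (_ : ∀ i, Measurable (b i)) (_ : ∀ i z, ‖b i z‖ ≤ 1) (u : Fin (l + 1) → ℕ → ℕ)
      (_ : ∀ a a' : Fin (l + 1) → ℕ, (∀ k, a k ≤ J) → (∀ k, a' k ≤ J) →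
        ∑ k, u k (a k) = ∑ k, u k (a' k) → a = a'),
      ∑ i, ‖∫ z, S.Ei J f g (b i) (u i) z ∂S.μ‖ ≤ lam * (l + 1) := fun J =>
    dec X ι J lam hlam0
  choose l0 hl0 using hl
  set l : ℕ := ∑ J ∈ range R, l0 J with hldef
  have hlJ : ∀ J < R, l0 J ≤ l := fun J hJ =>
    Finset.single_le_sum (f := l0) (fun _ _ => Nat.zero_le _) (Finset.mem_range.2 hJ)
  refine ⟨R, l, fun S e me e1 act mact hact hκ u hu hinj K hK b mb b1 him => ?_⟩
  have hprob := S.prob
  have hdec : ∀ J < R, ∀ (f : ℕ → X → ℂ)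
      (_ : ∀ c, Measurable (f c)) (_ : ∀ c z, ‖f c z‖ ≤ 1) (g : X → ℂ) (_ : Measurable g)
      (_ : ∀ z, ‖g z‖ ≤ 1) (_ : ∀ z, S.P g z = 0) (b : Fin (l + 1) → X → ℂ)
      (_ : ∀ i, Measurable (b i)) (_ : ∀ i z, ‖b i z‖ ≤ 1) (u : Fin (l + 1) → ℕ → ℕ)
      (_ : ∀ a a' : Fin (l + 1) → ℕ, (∀ k, a k ≤ J) → (∀ k, a' k ≤ J) →
        ∑ k, u k (a k) = ∑ k, u k (a' k) → a = a'),
      ∑ i, ‖∫ z, S.Ei J f g (b i) (u i) z ∂S.μ‖ ≤ lam * (l + 1) := fun J hJ =>
    hl0 J l (hlJ J hJ) S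
  -- one pattern
  have hpat : ∀ C : ℕ → Bool, p ≤ ((range R).filter (fun c => C c = true)).card →
      ∑ i, ∫ z, S.WW act R C (u i) z ∂S.μ ≤ 12 * (R * (lam * (l + 1))) := by
    intro C hC
    have h1 := S.pattern me e1 mact hκ0 hκ1.le hκ R l p lam hdec u hu hinj C hC K hK b mb
      (fun i z => (b1 i z).le)
    have h2 := S.pattern me e1 mact hκ0 hκ1.le hκ R l p lam hdec u hu hinj C hC
      (fun c => 2 * K c) (fun c hc h => hK c hc (by
        have h3 : Nat.Coprime 3 2 := by norm_num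
        exact h3.dvd_of_dvd_mul_left h)) (fun i z => b i z ^ 2) (fun i => (mb i).pow_const 2)
      (fun i z => by rw [norm_pow, b1, one_pow])
    have h3 : ∀ i, 1 / 2 * ∫ z, S.WW act R C (u i) z ∂S.μ ≤
      ‖∫ z, (∏ c ∈ range R, S.FF e act C K c (S.σ^[u i c] z)) * b i (S.σ^[u i R] z) ∂S.μ‖ +
      1 / 2 * ‖∫ z, (∏ c ∈ range R, S.FF e act C (fun c => 2 * K c) c (S.σ^[u i c] z)) *
        (fun z => b i z ^ 2) (S.σ^[u i R] z) ∂S.μ‖ := fun i =>
      S.half me e1 mact R C K (mb i) (b1 i) (u i) (him i)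
    have h4 := Finset.sum_le_sum fun i (_ : i ∈ (Finset.univ : Finset (Fin (l + 1)))) => h3 i
    rw [← Finset.mul_sum, Finset.sum_add_distrib, ← Finset.mul_sum] at h4
    set Wt := ∑ i, ∫ z, S.WW act R C (u i) z ∂S.μ with hWt
    have hWt0 : 0 ≤ Wt := Finset.sum_nonneg fun i _ =>
      integral_nonneg fun z => S.WW_nonneg R C (u i) z
    have h5 : κ0 ^ p * Wt ≤ 1 / 6 * Wt := mul_le_mul_of_nonneg_right hp.le hWt0
    linarith
  -- the sum over the patterns
  set D := (Finset.univ : Finset (Fin R → Bool)).filter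
      (fun C => p ≤ (Finset.univ.filter (fun c => C c = true)).card) with hD
  set ext : (Fin R → Bool) → ℕ → Bool := fun C c => if h : c < R then C ⟨c, h⟩ else false with hext
  have hext2 : ∀ C ∈ D, p ≤ ((range R).filter (fun c => ext C c = true)).card := by
    intro C hC
    have h1 := (Finset.mem_filter.1 hC).2
    refine h1.trans (le_of_eq ?_)
    have h2 : (range R).filter (fun c => ext C c = true) =
        (Finset.univ.filter (fun c => C c = true)).map Fin.valEmbedding := by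
      ext c
      simp only [Finset.mem_filter, Finset.mem_range, Finset.mem_map, Finset.mem_univ, true_and,
        Fin.valEmbedding_apply]
      constructor
      · rintro ⟨h3, h4⟩
        refine ⟨⟨c, h3⟩, ?_, rfl⟩
        simpa [hext, h3] using h4
      · rintro ⟨c', h3, rfl⟩
        exact ⟨c'.2, by simp [hext, h3]⟩
    rw [h2, Finset.card_map]
  have hup : ∑ C ∈ D, ∑ i, ∫ z, S.WW act R (ext C) (u i) z ∂S.μ ≤
      2 ^ R * (12 * (R * (lam * (l + 1)))) := by
    calc _ ≤ ∑ _C ∈ D, 12 * (R * (lam * (l + 1))) :=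
          Finset.sum_le_sum fun C hC => hpat (ext C) (hext2 C hC)
      _ = D.card * (12 * (R * (lam * (l + 1)))) := by
          rw [Finset.sum_const, nsmul_eq_mul]
      _ ≤ 2 ^ R * (12 * (R * (lam * (l + 1)))) := by
          refine mul_le_mul_of_nonneg_right ?_ (by positivity)
          have h1 : D.card ≤ 2 ^ R := by
            refine (Finset.card_filter_le _ _).trans ?_
            simp
          exact_mod_cast h1
  have hlow : ((l : ℝ) + 1) * (ρ / 2) ≤ ∑ C ∈ D, ∑ i, ∫ z, S.WW act R (ext C) (u i) z ∂S.μ := by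
    rw [Finset.sum_comm]
    have h1 : ∀ i : Fin (l + 1), ρ / 2 ≤ ∑ C ∈ D, ∫ z, S.WW act R (ext C) (u i) z ∂S.μ := by
      intro i
      have h2 := S.weight_large mact hact R p (u i)
      rw [← hD] at h2
      have h3 : (p : ℝ) ≤ R * (ρ / 2) := by
        rw [div_lt_iff₀ hρ] at hR1
        linarith
      have h4 : (R : ℝ) * (ρ / 2) ≤ R * ∑ C ∈ D, ∫ z, S.WW act R (ext C) (u i) z ∂S.μ := by
        refine le_trans ?_ h2
        linarith
      exact le_of_mul_le_mul_left h4 hR0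
    have h5 := Finset.sum_le_sum fun i (_ : i ∈ (Finset.univ : Finset (Fin (l + 1)))) => h1 i
    rw [Finset.sum_const, Finset.card_univ, Fintype.card_fin, nsmul_eq_mul] at h5
    push_cast at h5
    exact h5
  have h6 := hlow.trans hup
  have h7 : (2 : ℝ) ^ R * (12 * (R * (lam * (l + 1)))) = (l + 1) * (ρ / 4) := by
    rw [hlam]
    field_simp
    norm_num
  rw [h7] at h6
  have h8 : (0 : ℝ) < (l : ℝ) + 1 := by positivity
  nlinarith

end Pool.Agent.N709
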