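import Mathlib
import Pool.Agent.TH338.LG.Cnt
import Pool.Agent.N709.Comb
import Pool.Agent.N709.Mf

/-! Many constraints leave few words, uniformly. -/

set_option autoImplicit false
open MeasureTheory Finset Filter Topology
open scoped ENNReal

namespace Pool.Agent.N709

open Pool.Agent.TH338.LG

/-- **limit measures**, with a constant depending on `ε` only (the proof is that of
`Pool.Agent.TH338.LG.exists_meas`) -/
theorem exists_meas' {ε : ℝ} (hε : 0 < ε) : ∃ c : ℝ, 0 < c ∧ ∀ (Wf : ℕ → Finset (List Bool))
    (_ : ∀ T, ∀ w ∈ Wf T, w.length = T)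
    (_ : ∀ T : ℕ, 1 ≤ T → Real.exp (ε * T) ≤ ((Wf T).card : ℝ)),
    ∃ μ : Measure SX, IsProbabilityMeasure μ ∧ μ.map sh = μ ∧
      (∀ g : SX → ℝ, Continuous g →
        c ≤ ∫ ω, (bit (ω 0) - g (sh ω)) ^ 2 ∂μ) ∧
      ∀ F : SX → ℝ, Continuous F → (∀ ω, 0 ≤ F ω) →
        (∃ K : ℝ, ∀ T, ∀ w ∈ Wf T, ∑ k ∈ range T, F (ext (w.take (k + 1)).reverse) ≤ K) →
        ∫ ω, F ω ∂μ = 0 := by
  classical
  obtain ⟨C, hC0, hC⟩ := binEntropy_le (ε / 2) (by positivity)
  refine ⟨ε / 2 / C, by positivity, fun Wf hlen hbig => ?_⟩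
  set I : ℕ → Finset (List Bool × ℕ) := fun T => Wf (T + 1) ×ˢ range (T + 1) with hI
  set y : List Bool × ℕ → SX := fun i => ext (i.1.take (i.2 + 1)).reverse with hy
  have hWpos : ∀ T, 0 < (Wf (T + 1)).card := by
    intro T
    have h1 := hbig (T + 1) (by omega)
    have h2 : (0 : ℝ) < ((Wf (T + 1)).card : ℝ) := lt_of_lt_of_le (Real.exp_pos _) h1
    exact_mod_cast h2
  have hIne : ∀ T, (I T).Nonempty := fun T =>
    Finset.Nonempty.product (Finset.card_pos.1 (hWpos T)) ⟨0, by simp⟩
  have hIcard : ∀ T, ((I T).card : ℝ) = ((Wf (T + 1)).card : ℝ) * (T + 1) := fun T => by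
    simp only [hI]
    rw [Finset.card_product, Finset.card_range]
    push_cast
    ring
  set μT : ℕ → ProbabilityMeasure SX := fun T => ⟨emp (I T) y, emp_prob (hIne T) y⟩ with hμT
  obtain ⟨μ, hμ⟩ := exists_clusterPt_of_compactSpace (Filter.map μT atTop)
  have hμ' : MapClusterPt μ atTop μT := hμ
  obtain ⟨U, hU, hlim⟩ := mapClusterPt_iff_ultrafilter.1 hμ'
  have hint : ∀ (T : ℕ) (F : SX → ℝ), ∫ ω, F ω ∂(μT T : Measure SX) =
      (((Wf (T + 1)).card : ℝ) * (T + 1))⁻¹ *
        ∑ w ∈ Wf (T + 1), ∑ k ∈ range (T + 1), F (ext (w.take (k + 1)).reverse) := by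
    intro T F
    show ∫ ω, F ω ∂(emp (I T) y) = _
    rw [emp_int, hIcard, hI]
    simp only
    rw [Finset.sum_product]
  -- convergence for continuous functions
  have hconv : ∀ F : SX → ℝ, Continuous F →
      Tendsto (fun T => ∫ ω, F ω ∂(μT T : Measure SX)) U (𝓝 (∫ ω, F ω ∂(μ : Measure SX))) := by
    intro F hF
    have := (ProbabilityMeasure.tendsto_iff_forall_integral_tendsto.1 hlim)
      (BoundedContinuousFunction.mkOfCompact ⟨F, hF⟩)
    simpa using this
  have hev : ∀ p : ℕ → Prop, (∀ T, p T) → ∀ᶠ T in (U : Filter ℕ), p T := fun p h =>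
    Eventually.of_forall h
  have hsmall : ∀ K : ℝ, Tendsto (fun T : ℕ => K / ((T : ℝ) + 1)) U (𝓝 0) := by
    intro K
    have h1 : Tendsto (fun T : ℕ => K / ((T : ℝ) + 1)) atTop (𝓝 0) :=
      tendsto_const_nhds.div_atTop
        (tendsto_atTop_add_const_right _ _ tendsto_natCast_atTop_atTop)
    exact h1.mono_left hU
  -- an upper bound for averages
  have havg : ∀ (T : ℕ) (G : List Bool → ℝ) (K : ℝ), (∀ w ∈ Wf (T + 1), G w ≤ K) →
      (((Wf (T + 1)).card : ℝ) * (T + 1))⁻¹ * ∑ w ∈ Wf (T + 1), G w ≤ K / (T + 1) := by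
    intro T G K hG
    have hc : (0 : ℝ) < ((Wf (T + 1)).card : ℝ) := by exact_mod_cast hWpos T
    have h1 : ∑ w ∈ Wf (T + 1), G w ≤ (Wf (T + 1)).card * K := by
      refine (Finset.sum_le_sum hG).trans ?_
      rw [Finset.sum_const, nsmul_eq_mul]
    rw [inv_mul_le_iff₀ (by positivity)]
    refine h1.trans (le_of_eq ?_)
    field_simp
  refine ⟨μ, inferInstance, ?_, ?_, ?_⟩
  · -- invariance
    have hms : Measurable sh := cont_sh.measurable
    have : IsProbabilityMeasure ((μ : Measure SX).map sh) :=
      Measure.isProbabilityMeasure_map hms.aemeasurable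
    refine ext_of_forall_integral_eq_of_IsFiniteMeasure fun f => ?_
    rw [integral_map hms.aemeasurable f.continuous.aestronglyMeasurable]
    set F : SX → ℝ := fun ω => f ω with hF
    have cF : Continuous F := f.continuous
    obtain ⟨C, hC⟩ : ∃ C : ℝ, ∀ ω, |F ω| ≤ C := ⟨‖f‖, fun ω => f.norm_coe_le_norm ω⟩
    have l1 := hconv F cF
    have l2 := hconv (fun ω => F (sh ω)) (cF.comp cont_sh)
    have l3 : Tendsto (fun T => ∫ ω, F (sh ω) ∂(μT T : Measure SX) -
        ∫ ω, F ω ∂(μT T : Measure SX)) U (𝓝 0) := by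
      refine squeeze_zero_norm (fun T => ?_) (hsmall (2 * C))
      rw [hint, hint, ← mul_sub, ← Finset.sum_sub_distrib]
      have key : ∀ w ∈ Wf (T + 1), |∑ k ∈ range (T + 1), F (sh (ext (w.take (k + 1)).reverse)) -
          ∑ k ∈ range (T + 1), F (ext (w.take (k + 1)).reverse)| ≤ 2 * C := by
        intro w hw
        have hl := hlen _ w hw
        have e1 : ∀ k ∈ range (T + 1), F (sh (ext (w.take (k + 1)).reverse)) =
            F (ext (w.take k).reverse) := by
          intro k hk
          have hk' : k < w.length := by rw [hl]; exact Finset.mem_range.1 hk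
          rw [List.take_succ_eq_append_getElem hk', List.reverse_append]
          simp only [List.reverse_singleton, List.singleton_append]
          rw [sh_ext]
        rw [Finset.sum_congr rfl e1, ← Finset.sum_sub_distrib]
        have e2 := Finset.sum_range_sub (fun k => F (ext (w.take k).reverse)) (T + 1)
        have e3 : ∑ k ∈ range (T + 1), (F (ext (w.take k).reverse) -
            F (ext (w.take (k + 1)).reverse)) =
            -(∑ k ∈ range (T + 1), (F (ext (w.take (k + 1)).reverse) -
              F (ext (w.take k).reverse))) := by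
          rw [← Finset.sum_neg_distrib]
          refine Finset.sum_congr rfl fun k _ => ?_
          ring
        rw [e3, e2, abs_neg]
        refine (abs_sub _ _).trans ?_
        have := hC (ext (w.take (T + 1)).reverse)
        have := hC (ext (w.take 0).reverse)
        linarith
      rw [Real.norm_eq_abs, abs_mul, abs_of_nonneg (by positivity)]
      calc (((Wf (T + 1)).card : ℝ) * (T + 1))⁻¹ * |∑ w ∈ Wf (T + 1),
            (∑ k ∈ range (T + 1), F (sh (ext (w.take (k + 1)).reverse)) -
              ∑ k ∈ range (T + 1), F (ext (w.take (k + 1)).reverse))| ≤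
            (((Wf (T + 1)).card : ℝ) * (T + 1))⁻¹ * ∑ w ∈ Wf (T + 1),
            |∑ k ∈ range (T + 1), F (sh (ext (w.take (k + 1)).reverse)) -
              ∑ k ∈ range (T + 1), F (ext (w.take (k + 1)).reverse)| :=
            mul_le_mul_of_nonneg_left (Finset.abs_sum_le_sum_abs _ _) (by positivity)
        _ ≤ 2 * C / (T + 1) := havg T _ _ key
    have l4 := l2.sub l1
    have := tendsto_nhds_unique l4 l3
    linarith
  · -- the prediction error
    intro g hg
    have cG : Continuous (fun ω : SX => (bit (ω 0) - g (sh ω)) ^ 2) :=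
      (cont_bit0.sub (hg.comp cont_sh)).pow 2
    refine ge_of_tendsto (hconv _ cG) (hev _ fun T => ?_)
    rw [hint]
    have hc : (0 : ℝ) < ((Wf (T + 1)).card : ℝ) := by exact_mod_cast hWpos T
    have ht := tree hC0 hC (fun l => g (ext l)) (T + 1) [] (Wf (T + 1)) (hlen (T + 1))
    have e1 : ∀ w ∈ Wf (T + 1), cost (fun l => g (ext l)) [] w = ∑ k ∈ range (T + 1),
        (bit (ext (w.take (k + 1)).reverse 0) - g (sh (ext (w.take (k + 1)).reverse))) ^ 2 := by
      intro w hw
      have hl := hlen _ w hw
      rw [cost_eq, hl]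
      refine Finset.sum_congr rfl fun k hk => ?_
      have hk' : k < w.length := by rw [hl]; exact Finset.mem_range.1 hk
      rw [List.take_succ_eq_append_getElem hk', List.reverse_append]
      simp only [List.reverse_singleton, List.singleton_append, List.append_nil]
      rw [sh_ext, ext_zero]
      congr 3
      exact List.getD_eq_getElem w false hk'
    rw [Finset.sum_congr rfl e1] at ht
    set Q := ∑ w ∈ Wf (T + 1), ∑ k ∈ range (T + 1),
        (bit (ext (w.take (k + 1)).reverse 0) - g (sh (ext (w.take (k + 1)).reverse))) ^ 2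
    have h1 := hbig (T + 1) (by omega)
    have h2 : ε * ((T + 1 : ℕ) : ℝ) ≤ Real.log ((Wf (T + 1)).card : ℝ) := by
      rw [Real.le_log_iff_exp_le hc]
      exact h1
    have h3 : ((Wf (T + 1)).card : ℝ) * (ε / 2 * ((T + 1 : ℕ) : ℝ)) ≤ C * Q := by
      refine le_trans ?_ ht
      refine mul_le_mul_of_nonneg_left ?_ hc.le
      linarith
    rw [div_le_iff₀ hC0, inv_mul_eq_div, div_mul_eq_mul_div, le_div_iff₀ (by positivity)]
    push_cast at h3
    linarith
  · -- vanishing integrals
    rintro F cF hF0 ⟨K, hK⟩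
    have l1 := hconv F cF
    have l2 : Tendsto (fun T => ∫ ω, F ω ∂(μT T : Measure SX)) U (𝓝 0) := by
      refine squeeze_zero (fun T => integral_nonneg hF0) (fun T => ?_) (hsmall K)
      rw [hint]
      exact havg T _ K (hK (T + 1))
    exact tendsto_nhds_unique l1 l2

/-- the conditional variance is bounded below (the proof is that of
`Pool.Agent.TH338.LG.int_var_pos`) -/
lemma int_var_low (μ : Measure SX) [IsProbabilityMeasure μ] (w : Bool → SX → ℝ)
    (mw : ∀ a, Measurable (w a)) (w0 : ∀ a z, 0 ≤ w a z) (w1 : ∀ z, ∑ a, w a z = 1)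
    (inv : ∀ F : SX → ℂ, Measurable F → (∃ C : ℝ, ∀ z, ‖F z‖ ≤ C) →
        ∫ z, ∑ a, w a z • F (cns a z) ∂μ = ∫ z, F z ∂μ)
    (c : ℝ) (hc : 0 < c) (hP : ∀ g : SX → ℝ, Continuous g →
        c ≤ ∫ ω, (bit (ω 0) - g (sh ω)) ^ 2 ∂μ) :
    c ≤ ∫ z, 3 * (w false z * w true z) ∂μ := by
  have hw1 : ∀ z, w false z = 1 - w true z := fun z => by
    have := w1 z
    rw [Fintype.sum_bool] at this
    linarith
  have wle : ∀ a z, w a z ≤ 1 := fun a z => by
    have h1 := hw1 z
    have h2 := w0 true z
    have h3 := w0 false z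
    cases a <;> linarith
  have invR : ∀ F : SX → ℝ, Measurable F → (∀ z, |F z| ≤ 1) →
      ∫ z, (w true z * F (cns true z) + w false z * F (cns false z)) ∂μ = ∫ z, F z ∂μ := by
    intro F mF hF
    have h1 := inv (fun z => (F z : ℂ)) (Complex.measurable_ofReal.comp mF)
      ⟨1, fun z => by simpa using hF z⟩
    have h2 : ∀ z, ∑ a, w a z • ((F (cns a z) : ℝ) : ℂ) =
        (((w true z * F (cns true z) + w false z * F (cns false z) : ℝ)) : ℂ) := by
      intro z
      rw [Fintype.sum_bool]
      simp only [Complex.real_smul]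
      push_cast
      ring
    simp only [h2] at h1
    rw [integral_complex_ofReal, integral_complex_ofReal] at h1
    exact_mod_cast h1
  have iw : Integrable (w true) μ := Integrable.of_bound (mw true).aestronglyMeasurable 1
    (Eventually.of_forall fun z => by
      rw [Real.norm_eq_abs, abs_of_nonneg (w0 _ _)]; exact wle _ _)
  obtain ⟨g0, hg0, ig0⟩ := iw.exists_boundedContinuous_integral_sub_le (ε := c / 2) (by positivity)
  set g : SX → ℝ := fun z => max 0 (min 1 (g0 z)) with hg
  have cg : Continuous g := continuous_const.max (continuous_const.min g0.continuous)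
  have g00 : ∀ z, 0 ≤ g z := fun z => le_max_left _ _
  have g01 : ∀ z, g z ≤ 1 := fun z => max_le zero_le_one (min_le_left _ _)
  have hclip : ∀ z, |w true z - g z| ≤ |w true z - g0 z| := by
    intro z
    have h1 := w0 true z
    have h2 := wle true z
    simp only [hg]
    rcases le_total (g0 z) 0 with h | h
    · rw [min_eq_right (by linarith), max_eq_left h, sub_zero, abs_of_nonneg h1,
        abs_of_nonneg (by linarith)]
      linarith
    · rcases le_total (g0 z) 1 with h' | h'
      · rw [min_eq_right h', max_eq_right h]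
      · rw [min_eq_left h', max_eq_right zero_le_one, abs_of_nonpos (by linarith),
          abs_of_nonpos (by linarith)]
        linarith
  have h1 := hP g cg
  have mF : Measurable (fun ω : SX => (bit (ω 0) - g (sh ω)) ^ 2) :=
    ((cont_bit0.sub (cg.comp cont_sh)).pow 2).measurable
  rw [← invR _ mF ?_] at h1
  swap
  · intro ω
    rw [abs_of_nonneg (by positivity)]
    have a1 := bit_nonneg (ω 0)
    have a2 := bit_le_one (ω 0)
    have a3 := g00 (sh ω)
    have a4 := g01 (sh ω)
    have : |bit (ω 0) - g (sh ω)| ≤ 1 := by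
      rw [abs_le]; constructor <;> linarith
    rw [← sq_abs]
    exact pow_le_one₀ (abs_nonneg _) this
  have h2 : ∀ z, w true z * (bit (cns true z 0) - g (sh (cns true z))) ^ 2 +
      w false z * (bit (cns false z 0) - g (sh (cns false z))) ^ 2 =
      (w true z - g z) ^ 2 + w false z * w true z := by
    intro z
    rw [sh_cns, sh_cns]
    have e1 : bit (cns true z 0) = 1 := by simp [cns, bit]
    have e2 : bit (cns false z 0) = 0 := by simp [cns, bit]
    rw [e1, e2, hw1]
    ring
  simp only [h2] at h1
  have mg : Measurable g := cg.measurable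
  have i1 : Integrable (fun z => (w true z - g z) ^ 2) μ :=
    Integrable.of_bound (((mw true).sub mg).pow_const 2).aestronglyMeasurable 1
      (Eventually.of_forall fun z => by
        rw [Real.norm_eq_abs, abs_of_nonneg (by positivity), ← sq_abs]
        refine pow_le_one₀ (abs_nonneg _) ?_
        have a1 := w0 true z
        have a2 := wle true z
        have a3 := g00 z
        have a4 := g01 z
        rw [abs_le]; constructor <;> linarith)
  have i2 : Integrable (fun z => w false z * w true z) μ :=
    Integrable.of_bound ((mw false).mul (mw true)).aestronglyMeasurable 1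
      (Eventually.of_forall fun z => by
        rw [Real.norm_eq_abs, abs_of_nonneg (mul_nonneg (w0 _ _) (w0 _ _))]
        exact mul_le_one₀ (wle _ _) (w0 _ _) (wle _ _))
  rw [integral_add i1 i2] at h1
  have h3 : ∫ z, (w true z - g z) ^ 2 ∂μ ≤ c / 2 := by
    refine le_trans ?_ hg0
    refine integral_mono_of_nonneg (Eventually.of_forall fun z => by positivity)
      ((iw.sub ig0).norm) (Eventually.of_forall fun z => ?_)
    have a1 := w0 true z
    have a2 := wle true z
    have a3 := g00 z
    have a4 := g01 z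
    have a5 : |w true z - g z| ≤ 1 := by rw [abs_le]; constructor <;> linarith
    show (w true z - g z) ^ 2 ≤ ‖w true z - g0 z‖
    rw [← sq_abs, Real.norm_eq_abs, pow_two]
    calc |w true z - g z| * |w true z - g z| ≤ |w true z - g z| * 1 :=
          mul_le_mul_of_nonneg_left a5 (abs_nonneg _)
      _ = |w true z - g z| := mul_one _
      _ ≤ _ := hclip z
  rw [integral_const_mul]
  linarith


lemma eX_iter (n : ℕ) (z : SX) : eX (sh^[n] z) = eX z ^ (3 ^ n) := by
  induction n with
  | zero => simp
  | succ n ih => rw [Function.iterate_succ_apply', ← eX_cube, ih, ← pow_mul, pow_succ]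

/-- **uniform count** -/
theorem ucount (ε : ℝ) (hε : 0 < ε) : ∃ k : ℕ, ∀ (S : Set ℕ) (G : Finset ℕ), (G : Set ℕ) ⊆ S →
    k ≤ G.card → ∃ T : ℕ, 1 ≤ T ∧ ((WT S T).card : ℝ) < Real.exp (ε * T) := by
  classical
  obtain ⟨c, hc, hmeas⟩ := exists_meas' hε
  set τ : ℝ := min (c / 2) (1 / 2) with hτ
  have hτ0 : 0 < τ := lt_min (by positivity) (by norm_num)
  have hτ1 : τ ≤ 1 / 2 := min_le_right _ _
  have hτ2 : τ ≤ c / 2 := min_le_left _ _
  set κ0 : ℝ := √(1 - τ) with hκ0
  have hκ00 : 0 ≤ κ0 := Real.sqrt_nonneg _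
  have hκ01 : κ0 < 1 := by
    rw [hκ0, Real.sqrt_lt' one_pos]
    linarith
  obtain ⟨R, l, hM⟩ := thmM SX Bool (c / 2) κ0 (by positivity) hκ00 hκ01
  obtain ⟨k, hk⟩ := comb R (l + 1)
  refine ⟨k, fun S G hGS hGk => ?_⟩
  by_contra hcon
  push Not at hcon
  obtain ⟨μ, hμ, hinv, hP, hvan⟩ := hmeas (WT S) (fun T w hw => (mem_WT.1 hw).1) hcon
  obtain ⟨w, mw, w0, w1, winv⟩ := exists_weights μ sh cont_sh.measurable hinv cns
    (fun a => (cont_cns a).measurable) (fun ω => ω 0)
    (fun a => (measurable_pi_apply 0) (measurableSet_singleton a)) cns_sh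
  have hv := int_var_low μ w mw w0 w1 winv c hc hP
  set v : SX → ℝ := fun z => 3 * (w false z * w true z) with hvdef
  have mv : Measurable v := (((mw false).mul (mw true))).const_mul 3
  have v0 : ∀ z, 0 ≤ v z := fun z => by
    have := w0 false z
    have := w0 true z
    positivity
  set Y : TS SX Bool :=
    { σ := sh
      c := cns
      w := w
      μ := μ
      prob := hμ
      hσ := cont_sh.measurable
      hc := fun a => (cont_cns a).measurable
      hw := mw
      w0 := w0
      w1 := w1
      σc := sh_cns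
      inv := winv } with hY
  have hvu : ∀ u : ℕ, ¬ 3 ∣ u → ∀ z, v z ≤ 1 - ‖Y.P (fun y => eX y ^ u) z‖ ^ 2 := fun u hu z =>
    vu_aux w w1 hu z
  have v1 : ∀ z, v z ≤ 1 := fun z => by
    have h1 := hvu 1 (by norm_num) z
    have h2 : 0 ≤ ‖Y.P (fun y => eX y ^ 1) z‖ ^ 2 := by positivity
    linarith
  set act : Set SX := {z | τ ≤ v z} with hact
  have mact : MeasurableSet act := measurableSet_le measurable_const mv
  have hμact : c / 2 ≤ μ.real act := by
    have h1 : ∀ z, v z ≤ τ + act.indicator (fun _ => (1 : ℝ)) z := by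
      intro z
      by_cases hz : z ∈ act
      · rw [Set.indicator_of_mem hz]
        have := v1 z
        linarith
      · rw [Set.indicator_of_notMem hz]
        have h2 : v z < τ := not_le.1 hz
        linarith
    have iv : Integrable v μ := Integrable.of_bound mv.aestronglyMeasurable 1
      (Eventually.of_forall fun z => by
        rw [Real.norm_eq_abs, abs_of_nonneg (v0 z)]
        exact v1 z)
    have ii : Integrable (act.indicator (fun _ => (1 : ℝ))) μ :=
      (integrable_const (1 : ℝ)).indicator mact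
    have h2 : ∫ z, v z ∂μ ≤ ∫ z, (τ + act.indicator (fun _ => (1 : ℝ)) z) ∂μ :=
      integral_mono iv ((integrable_const τ).add ii) h1
    rw [integral_add (integrable_const τ) ii, integral_indicator mact] at h2
    simp only [integral_const, probReal_univ, smul_eq_mul, one_mul, mul_one,
      measureReal_restrict_apply_univ] at h2
    linarith
  have hκ : ∀ u : ℕ, ¬ 3 ∣ u → ∀ z ∈ act, ‖Y.P (fun y => eX y ^ u) z‖ ≤ κ0 := by
    intro u hu z hz
    have h1 := hvu u hu z
    have h2 : τ ≤ v z := hz
    rw [hκ0]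
    refine Real.le_sqrt_of_sq_le ?_
    linarith
  obtain ⟨g, U, K, M, hgG, hU0, hUm, hUinj, hK, hsum⟩ := hk G hGk
  set u : Fin (l + 1) → ℕ → ℕ := fun i c => if h : c < R + 1 then U ⟨c, h⟩ i else 0 with hu
  have hu' : ∀ i c (h : c < R + 1), u i c = U ⟨c, h⟩ i := fun i c h => by
    simp only [hu, dif_pos h]
  set K' : ℕ → ℕ := fun c => if h : c < R then K ⟨c, h⟩ else 0 with hK'
  refine hM Y eX meas_eX eX_norm act mact hμact hκ u ?_ ?_ K' ?_ (fun i z => eX z ^ (M i)) ?_ ?_ ?_
  · intro i c' hc' c hcc
    rw [hu' i c (by omega), hu' i c' (by omega)]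
    exact hUm i (by rw [Fin.lt_def]; exact hcc)
  · intro a a' ha ha' haa
    have h1 : (fun k => (⟨a k, by have := ha k; omega⟩ : Fin (R + 1))) =
        fun k => (⟨a' k, by have := ha' k; omega⟩ : Fin (R + 1)) := by
      apply hUinj
      have h2 : ∀ k, u k (a k) = U ⟨a k, by have := ha k; omega⟩ k := fun k =>
        hu' k (a k) (by have := ha k; omega)
      have h3 : ∀ k, u k (a' k) = U ⟨a' k, by have := ha' k; omega⟩ k := fun k =>
        hu' k (a' k) (by have := ha' k; omega)
      simp only [h2, h3] at haa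
      exact haa
    funext k
    have h2 := congrFun h1 k
    simpa using h2
  · intro c hcR
    simp only [hK', dif_pos hcR]
    exact hK _
  · intro i
    have h1 : Measurable fun x : ℂ => x ^ (M i) := by
      rcases Int.eq_nat_or_neg (M i) with ⟨n, hn | hn⟩
      · rw [hn]
        simp only [zpow_natCast]
        exact measurable_id.pow_const n
      · rw [hn]
        simp only [zpow_neg, zpow_natCast]
        exact (measurable_id.pow_const n).inv
    exact h1.comp meas_eX
  · intro i z
    rw [norm_zpow, eX_norm, one_zpow]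
  · intro i
    have hne : ∀ z, eX z ≠ 0 := fun z h => by
      have := eX_norm z
      rw [h, norm_zero] at this
      exact zero_ne_one this
    have hx : ∀ z, Y.xx eX R K' (fun z => eX z ^ (M i)) (u i) z = eX z ^ (2 ^ g i) := by
      intro z
      unfold TS.xx
      have h1 : ∀ c, eX (Y.σ^[u i c] z) = eX z ^ (3 ^ (u i c)) := fun c => eX_iter _ z
      simp only [h1]
      rw [Finset.prod_range]
      have h2 : ∀ c : Fin R, (eX z ^ (3 ^ (u i c))) ^ (K' c) =
          eX z ^ (K c * 3 ^ (U c.castSucc i)) := by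
        intro c
        have h3 : K' c = K c := by
          simp only [hK', dif_pos c.2]
        have h4 : u i c = U c.castSucc i := hu' i c (by have := c.2; omega)
        rw [h3, h4, ← pow_mul, mul_comm]
      rw [Finset.prod_congr rfl fun c _ => h2 c, Finset.prod_pow_eq_pow_sum]
      have h5 : u i R = U (Fin.last R) i := hu' i R (by omega)
      rw [h5]
      have h6 : ((2 ^ g i : ℕ) : ℤ) = ((∑ c : Fin R, K c * 3 ^ (U c.castSucc i) : ℕ) : ℤ) +
          ((3 ^ (U (Fin.last R) i) : ℕ) : ℤ) * M i := by
        push_cast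
        exact hsum i
      rw [← zpow_natCast (eX z) (2 ^ g i), h6, zpow_add₀ (hne z), zpow_mul, zpow_natCast,
        zpow_natCast]
    simp only [hx]
    have hn : g i ∈ S := hGS (Finset.mem_coe.2 (hgG i))
    set F : SX → ℝ := fun z => max 0 (-(Real.sin (2 * Real.pi * (2 ^ (g i) * xval z)))) with hF
    have cF : Continuous F := continuous_const.max
      ((Real.continuous_sin.comp (continuous_const.mul (continuous_const.mul cont_xval))).neg)
    have h1 := hvan F cF (fun z => le_max_left _ _) ⟨2 * Real.pi * 2 ^ (g i), ?_⟩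
    · have i1 : Integrable F μ := Integrable.of_bound cF.aestronglyMeasurable 1
        (Eventually.of_forall fun z => by
          rw [Real.norm_eq_abs, abs_of_nonneg (le_max_left _ _)]
          refine max_le zero_le_one ?_
          have := Real.neg_one_le_sin (2 * Real.pi * (2 ^ (g i) * xval z))
          linarith)
      have h2 := (integral_eq_zero_iff_of_nonneg (fun z => le_max_left _ _) i1).1 h1
      show ∀ᵐ z ∂μ, 0 ≤ (eX z ^ (2 ^ (g i))).im
      filter_upwards [h2] with z hz
      have h3 : F z = 0 := hz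
      rw [eX_pow_im]
      push_cast
      have h4 : -(Real.sin (2 * Real.pi * (2 ^ (g i) * xval z))) ≤ F z := le_max_right _ _
      linarith
    · intro T w hw
      calc ∑ k ∈ range T, F (ext (w.take (k + 1)).reverse) ≤
            ∑ k ∈ range T, 2 * Real.pi * 2 ^ (g i) * (1 / 3 ^ (k + 1)) := by
            refine Finset.sum_le_sum fun k hk => ?_
            have := sin_bound hn hw (k := k + 1) (by
              have := Finset.mem_range.1 hk; omega)
            refine max_le (by positivity) ?_
            linarith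
        _ = 2 * Real.pi * 2 ^ (g i) * ∑ k ∈ range T, (1 : ℝ) / 3 ^ (k + 1) := by
            rw [Finset.mul_sum]
        _ ≤ 2 * Real.pi * 2 ^ (g i) * 1 :=
            mul_le_mul_of_nonneg_left (sum_third T) (by positivity)
        _ = 2 * Real.pi * 2 ^ (g i) := mul_one _

end Pool.Agent.N709
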