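import Mathlib
import Pool.Agent.TH338.LG.Dimn
import Pool.Agent.N709.Uc

/-! The dyadic nesting constant is zero. -/

set_option autoImplicit false
open MeasureTheory Finset Filter Topology
open scoped ENNReal NNReal

namespace Pool.Agent.N709

open Pool.Agent.TH338.LG

/-- **Theorem.** The dimension of the set of the points with at least `k` exponents tends to `0`. -/
theorem nest : Tendsto (fun k : ℕ => dimH {x : ℤ_[3] |
    (k : ℕ∞) ≤ {n : ℕ | Om ((2 : ℤ_[3]) ^ n * x)}.encard}) atTop (𝓝 0) := by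
  classical
  rw [ENNReal.tendsto_nhds_zero]
  intro ε hε
  obtain ⟨e, he0, hee⟩ : ∃ e : ℝ≥0, 0 < e ∧ (e : ℝ≥0∞) ≤ ε := by
    obtain ⟨e, h1, h2⟩ := ENNReal.lt_iff_exists_nnreal_btwn.1 hε
    exact ⟨e, by exact_mod_cast h1, h2.le⟩
  have heR : (0 : ℝ) < e := by exact_mod_cast he0
  obtain ⟨k0, hk0⟩ := ucount (e * Real.log 3) (mul_pos heR (Real.log_pos (by norm_num)))
  filter_upwards [eventually_ge_atTop (k0 + 1)] with k hk
  refine le_trans ?_ hee
  set Idx := {p : ℕ × Finset ℕ // 0 ∈ p.2 ∧ ∃ T : ℕ, 1 ≤ T ∧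
    ((WT (p.2 : Set ℕ) T).card : ℝ) ≤ ((3 : ℝ) ^ T) ^ (e : ℝ)} with hIdx
  have hsub : {x : ℤ_[3] | (k : ℕ∞) ≤ {n : ℕ | Om ((2 : ℤ_[3]) ^ n * x)}.encard} ⊆
      ⋃ p : Idx, {x : ℤ_[3] | ∀ n ∈ (p.1.2 : Set ℕ),
        Om ((2 : ℤ_[3]) ^ n * ((2 : ℤ_[3]) ^ p.1.1 * x))} := by
    intro x hx
    have hx' : (k : ℕ∞) ≤ {n : ℕ | Om ((2 : ℤ_[3]) ^ n * x)}.encard := hx
    set A : Set ℕ := {n : ℕ | Om ((2 : ℤ_[3]) ^ n * x)} with hA
    obtain ⟨t, htA, htc⟩ := Set.exists_subset_encard_eq hx'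
    have htf : t.Finite := Set.finite_of_encard_eq_coe htc
    have htc' : htf.toFinset.card = k := by
      have h1 := htf.encard_eq_coe_toFinset_card
      rw [htc] at h1
      exact_mod_cast h1.symm
    have hne : A.Nonempty := by
      obtain ⟨a, ha⟩ := Finset.card_pos.1 (by omega : 0 < htf.toFinset.card)
      exact ⟨a, htA (htf.mem_toFinset.1 ha)⟩
    set n0 := sInf A with hn0
    have hn0A : n0 ∈ A := Nat.sInf_mem hne
    have hn0le : ∀ n ∈ A, n0 ≤ n := fun n hn => Nat.sInf_le hn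
    set S : Set ℕ := {n | n0 + n ∈ A} with hS
    have hS0 : 0 ∈ S := by
      show n0 + 0 ∈ A
      simpa using hn0A
    set G : Finset ℕ := htf.toFinset.image (fun n => n - n0) with hG
    have hGS : (G : Set ℕ) ⊆ S := by
      intro m hm
      rw [hG, Finset.mem_coe, Finset.mem_image] at hm
      obtain ⟨n, hn, rfl⟩ := hm
      have h1 : n ∈ A := htA (htf.mem_toFinset.1 hn)
      have h2 := hn0le n h1
      show n0 + (n - n0) ∈ A
      rwa [Nat.add_sub_cancel' h2]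
    have hGc : G.card = k := by
      rw [hG, Finset.card_image_of_injOn, htc']
      intro n hn m hm hnm
      have h1 := hn0le n (htA (htf.mem_toFinset.1 (Finset.mem_coe.1 hn)))
      have h2 := hn0le m (htA (htf.mem_toFinset.1 (Finset.mem_coe.1 hm)))
      simp only at hnm
      omega
    obtain ⟨T, hT, hcount⟩ := hk0 S G hGS (by omega)
    obtain ⟨F, hF0, hFS, hFW⟩ := exists_finite S hS0 T
    have hcard : ((WT (F : Set ℕ) T).card : ℝ) ≤ ((3 : ℝ) ^ T) ^ (e : ℝ) := by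
      have h1 : ((WT (F : Set ℕ) T).card : ℝ) ≤ ((WT S T).card : ℝ) := by
        exact_mod_cast Finset.card_le_card hFW
      refine h1.trans (hcount.le.trans (le_of_eq ?_))
      rw [← Real.rpow_natCast 3 T, ← Real.rpow_mul (by norm_num),
        Real.rpow_def_of_pos (by norm_num)]
      congr 1
      ring
    rw [Set.mem_iUnion]
    refine ⟨⟨(n0, F), hF0, T, hT, hcard⟩, ?_⟩
    intro n hn
    have h1 : n0 + n ∈ A := hFS hn
    have h2 : Om ((2 : ℤ_[3]) ^ (n0 + n) * x) := h1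
    show Om ((2 : ℤ_[3]) ^ n * ((2 : ℤ_[3]) ^ n0 * x))
    rw [← mul_assoc, ← pow_add, add_comm n n0]
    exact h2
  refine (dimH_mono hsub).trans ?_
  rw [dimH_iUnion]
  refine iSup_le fun p => ?_
  obtain ⟨⟨n0, F⟩, hF0, T, hT, hcard⟩ := p
  exact dim_piece (F : Set ℕ) hF0 n0 T hT e hcard

end Pool.Agent.N709
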